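import Pool.Agent.Lib.MP_f1379f_gt.EV.LPB
import Pool.Agent.Lib.MP_f1379f_gt.EV.GEG
import Pool.Agent.Lib.MP_f1379f_gt.EV.VLB
import Pool.Agent.Lib.MP_f1379f_gt.EV.FRM
import Pool.Agent.Lib.MP_f1379f_gt.EV.CLS
import Pool.Agent.Lib.MP_f1379f_gt.EV.RIG
import Pool.Agent.Lib.MP_f1379f_gt.EV.STA
import Pool.Agent.Lib.MP_f1379f_gt.EV.NRM
import Pool.Agent.Lib.MP_f1379f_gt.EV.BAD
import Pool.Agent.Lib.MP_f1379f_gt.EV.ZBL

section
/-!
# Module LPI: equality in the Delsarte bound
-/
set_option autoImplicit false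

namespace Pool.Agent.Lib.MP_f1379f_gt.EV

open MeasureTheory LPBM

theorem specLPI (hGEG : SpecGEG) : SpecLPI := by
  intro Y hK
  have hY := hK.kiss
  have h1 := fund Y
  rw [hK.card] at h1
  norm_num at h1
  have h2 : 0 ≤ ∑ y ∈ Y, ∑ z ∈ Y, hh y z :=
    Finset.sum_nonneg fun y hy => Finset.sum_nonneg fun z hz => hh_nonneg hY hy hz
  have e1 := SS_nonneg hGEG hY (k := 1) (by norm_num)
  have e2 := SS_nonneg hGEG hY (k := 2) (by norm_num)
  have e3 := SS_nonneg hGEG hY (k := 3) (by norm_num)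
  have e4 := SS_nonneg hGEG hY (k := 4) (by norm_num)
  have e5 := SS_nonneg hGEG hY (k := 5) (by norm_num)
  have e6 := SS_nonneg hGEG hY (k := 6) (by norm_num)
  constructor
  · intro y hy z hz
    have h3 : ∑ y ∈ Y, ∑ z ∈ Y, hh y z = 0 := by linarith
    have h4 := (Finset.sum_eq_zero_iff_of_nonneg
      (fun y hy => Finset.sum_nonneg fun z hz => hh_nonneg hY hy hz)).1 h3 y hy
    have h5 := (Finset.sum_eq_zero_iff_of_nonneg (fun z hz => hh_nonneg hY hy hz)).1 h4 z hz
    by_cases hyz : z = y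
    · left
      rw [hyz]
      exact hY.nrm y hy
    · right
      simp only [hh, hyz, if_false, zero_sub, neg_eq_zero, ff] at h5
      rcases mul_eq_zero.1 h5 with h6 | h6
      · rcases mul_eq_zero.1 h6 with h7 | h7
        · rcases mul_eq_zero.1 h7 with h8 | h8
          · right; right; right
            linarith
          · right; right; left
            have := pow_eq_zero_iff two_ne_zero |>.1 h8
            linarith
        · right; left
          have := pow_eq_zero_iff two_ne_zero |>.1 h7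
          linarith
      · left
        linarith
  · intro k hk1 hk6
    change SS Y k = 0
    interval_cases k <;> linarith

end Pool.Agent.Lib.MP_f1379f_gt.EV
end

section
/-!
# MP_f1379f_gt: assembly of row 192
-/
set_option autoImplicit false

namespace Pool.Agent.Lib.MP_f1379f_gt.EV.All

theorem hGEG : SpecGEG := specGEG
theorem hLPB : SpecLPB := specLPB hGEG
theorem hLPI : SpecLPI := specLPI hGEG
theorem hMOM : SpecMOM := specMOM hGEG hLPI
theorem hPOL : SpecPOL := specPOL hMOM
theorem hCLO : SpecCLO := specCLO hLPB hLPI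
theorem hCNT : SpecCNT := specCNT hPOL hLPI hCLO
theorem hFRM : SpecFRM := specFRM hMOM hPOL hCLO hLPI
theorem hHAM : SpecHAM := specHAM
theorem hROT : SpecROT := specROT
theorem hCLS : SpecCLS := specCLS hLPI hCLO hFRM hHAM
theorem hCMP : SpecCMP := specCMP hCLS
theorem hRGA : SpecRGA := specRGA hCLO hCNT
theorem hRGB : SpecRGB := specRGB hCLO hCNT hRGA
theorem hRIG : SpecRIG := specRIG hLPI hPOL hCLO hCNT hRGA hRGB
theorem hSTA : SpecSTA := specSTA hROT hRIG
theorem hNRM : SpecNRM := specNRM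
theorem hCOV : SpecCOV := specCOV
theorem hVOL : SpecVOL := specVOL hCOV
theorem hCON : SpecCON := specCON
theorem hSYM : SpecSYM := specSYM hCOV hCLO hCNT hROT hVOL hCON
theorem hPVL : SpecPVL := specPVL hROT hCON hSYM
theorem hBAD : SpecBAD := specBAD hROT
theorem hZBL : SpecZBL := specZBL hROT hCOV
theorem hVLB : SpecVLB := specVLB hROT hSYM hPVL hBAD hZBL
theorem hLOC : SpecLOC := specLOC hROT hCNT hSTA hNRM hVLB
theorem hFIN : SpecFIN := specFIN hROT hCMP hLOC hVOL

end Pool.Agent.Lib.MP_f1379f_gt.EV.All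
end

section
/-!
# MP_f1379f_gt, equality case: the lattice E8 is a packing, its cell, congruence of cells
-/
set_option autoImplicit false

namespace Pool.Agent.Lib.MP_f1379f_gt.EV

open MeasureTheory

namespace EQCM

/-- The extended Hamming code has minimal weight 4. -/
theorem code : ∀ a b c d e f g h : Fin 2,
    ((a : ℕ) + b + c + d) % 2 = 0 → ((a : ℕ) + b + e + f) % 2 = 0 →
    ((a : ℕ) + c + e + g) % 2 = 0 → ((a : ℕ) + b + c + d + e + f + g + h) % 2 = 0 →
    (a : ℕ) + b + c + d + e + f + g + h < 4 → (a : ℕ) + b + c + d + e + f + g + h = 0 := by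
  decide

/-- A nonzero vector of the lattice has squared norm at least 4. -/
theorem sq_ge (n : Fin 8 → ℤ) (hn : InL n) (h0 : n ≠ 0) : 4 ≤ ∑ i, n i ^ 2 := by
  by_contra hc
  push Not at hc
  obtain ⟨h1, h2, h3, h4⟩ := hn
  have hb : ∀ i, n i ^ 2 ≤ 3 := by
    intro i
    have := Finset.single_le_sum (f := fun i => n i ^ 2) (fun j _ => sq_nonneg (n j))
      (Finset.mem_univ i)
    linarith
  have hr : ∀ i, n i = -1 ∨ n i = 0 ∨ n i = 1 := by
    intro i
    have h := hb i
    have a1 : n i ≤ 1 := by nlinarith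
    have a2 : -1 ≤ n i := by nlinarith
    omega
  have hm : ∀ i, n i ^ 2 = n i % 2 := by
    intro i
    rcases hr i with h | h | h <;> rw [h] <;> norm_num
  have hne : ∃ i, n i ≠ 0 := by
    by_contra h
    push Not at h
    exact h0 (funext h)
  have hpos : 0 < ∑ i, n i ^ 2 := by
    obtain ⟨i, hi⟩ := hne
    refine Finset.sum_pos' (fun j _ => sq_nonneg (n j)) ⟨i, Finset.mem_univ i, by positivity⟩
  simp only [hm, Fin.sum_univ_eight] at hc hpos h4
  have hlt : ∀ i, (n i % 2).toNat < 2 := fun i => by omega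
  have key := code ⟨_, hlt 0⟩ ⟨_, hlt 1⟩ ⟨_, hlt 2⟩ ⟨_, hlt 3⟩ ⟨_, hlt 4⟩ ⟨_, hlt 5⟩ ⟨_, hlt 6⟩
    ⟨_, hlt 7⟩ (by simp only; omega) (by simp only; omega) (by simp only; omega)
    (by simp only; omega) (by simp only; omega)
  simp only at key
  omega

theorem vec_sub (n m : Fin 8 → ℤ) : vec n - vec m = vec (n - m) := by
  ext i
  simp [vec]

theorem norm_vec_sq (n : Fin 8 → ℤ) : ‖vec n‖ ^ 2 = ((∑ i, n i ^ 2 : ℤ) : ℝ) := by
  rw [EuclideanSpace.norm_sq_eq]
  push_cast
  refine Finset.sum_congr rfl fun i _ => ?_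
  simp [vec]

theorem InL_sub {n m : Fin 8 → ℤ} (hn : InL n) (hm : InL m) : InL (n - m) := by
  obtain ⟨a1, a2, a3, a4⟩ := hn
  obtain ⟨b1, b2, b3, b4⟩ := hm
  refine ⟨?_, ?_, ?_, ?_⟩
  · simp only [Pi.sub_apply]; omega
  · simp only [Pi.sub_apply]; omega
  · simp only [Pi.sub_apply]; omega
  · simp only [Pi.sub_apply, Fin.sum_univ_eight] at a4 b4 ⊢; omega

theorem zero_mem : (0 : E) ∈ E8 := by
  refine ⟨0, ?_, ?_⟩
  · refine ⟨?_, ?_, ?_, ?_⟩ <;> simp
  · ext i; simp [vec]

/-- The lattice E8 is a packing of unit balls. -/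
theorem packing_E8 : Packing E8 := by
  rintro x ⟨n, hn, rfl⟩ y ⟨m, hm, rfl⟩ hne
  rw [dist_eq_norm, vec_sub]
  have h1 : n - m ≠ 0 := fun h => hne (by rw [sub_eq_zero.1 h])
  have h2 := sq_ge _ (InL_sub hn hm) h1
  have h3 : (2 : ℝ) ^ 2 ≤ ‖vec (n - m)‖ ^ 2 := by
    rw [norm_vec_sq]
    have : (4 : ℝ) ≤ ((∑ i, (n - m) i ^ 2 : ℤ) : ℝ) := by exact_mod_cast h2
    norm_num at this ⊢
    exact this
  exact le_of_sq_le_sq h3 (norm_nonneg _)

/-- The polytope cut out by the 240 minimal vectors. -/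
def PV : Set E := {y | ∀ r ∈ shell, dist y 0 ≤ dist y r}

/-- Its volume is 16. -/
theorem vol_PV : volume PV = 16 := by
  have h1 : cell ({0} ∪ shell) 0 = PV := by
    ext y
    simp only [cell, PV, Set.mem_ofPred_eq, Set.mem_union, Set.mem_singleton_iff]
    constructor
    · intro h r hr
      exact h r (Or.inr hr)
    · rintro h x (rfl | hx)
      · exact le_rfl
      · exact h x hx
  have h2 : ({0} ∪ shell : Set E) ⊆ E8 := by
    rintro y (rfl | hy)
    · exact zero_mem
    · exact hy.1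
  rw [← h1]
  refine All.hFIN.eq _ (fun x hx y hy hne => packing_E8 x (h2 hx) y (h2 hy) hne) 0
    (Or.inl rfl) (LinearIsometryEquiv.refl ℝ E) fun r hr => ?_
  right
  simpa using hr

/-- **The volume of the E8 cell.** -/
theorem vol_E8 : volume (cell E8 0) = 16 :=
  All.hFIN.eq E8 packing_E8 0 zero_mem (LinearIsometryEquiv.refl ℝ E) fun r hr => by
    simpa using hr.1

/-- Half-space form. -/
theorem dist_le_iff (y r : E) : dist y 0 ≤ dist y r ↔ 2 * (inner ℝ y r : ℝ) ≤ ‖r‖ ^ 2 := by
  rw [dist_zero_right, dist_eq_norm]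
  have h3 : ‖y - r‖ ^ 2 = ‖y‖ ^ 2 - 2 * inner ℝ y r + ‖r‖ ^ 2 := norm_sub_sq_real y r
  constructor
  · intro h
    have := pow_le_pow_left₀ (norm_nonneg y) h 2
    linarith
  · intro h
    refine le_of_sq_le_sq ?_ (norm_nonneg _)
    linarith

/-- Cells are closed. -/
theorem closed_cell (X : Set E) (x : E) : IsClosed (cell X x) := by
  have : cell X x = ⋂ x' ∈ X, {y : E | dist y x ≤ dist y x'} := by
    ext y; simp [cell]
  rw [this]
  exact isClosed_biInter fun u _ => isClosed_le (by fun_prop) (by fun_prop)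

theorem convex_PV : Convex ℝ PV := by
  have : PV = ⋂ r ∈ shell, {y : E | (innerSL ℝ r) y ≤ ‖r‖ ^ 2 / 2} := by
    ext y
    simp only [PV, Set.mem_ofPred_eq, dist_le_iff, Set.mem_iInter, innerSL_apply_apply]
    refine forall₂_congr fun r _ => ?_
    rw [real_inner_comm]
    constructor <;> intro h <;> linarith
  rw [this]
  exact convex_iInter₂ fun r _ => convex_halfSpace_le (innerSL ℝ r).isBoundedLinearMap.toIsLinearMap _

theorem interior_PV : (interior PV).Nonempty := by
  refine ⟨0, ?_⟩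
  rw [mem_interior_iff_mem_nhds]
  refine Filter.mem_of_superset (Metric.ball_mem_nhds (0 : E) one_pos) ?_
  intro y hy r hr
  rw [dist_le_iff, hr.2]
  rw [mem_ball_zero_iff] at hy
  have h1 := real_inner_le_norm y r
  rw [hr.2] at h1
  linarith

/-- A closed subset of the same volume is everything. -/
theorem eq_of_vol {K L : Set E} (hK : IsClosed K) (hL : Convex ℝ L)
    (hLi : (interior L).Nonempty) (h : K ⊆ L) (hfin : volume K ≠ ⊤)
    (hv : volume L ≤ volume K) : K = L := by
  refine Set.Subset.antisymm h ?_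
  have h1 : volume (L \ K) = 0 := by
    rw [measure_sdiff h hK.measurableSet.nullMeasurableSet hfin]
    exact tsub_eq_zero_of_le hv
  have h2 : interior L ∩ Kᶜ = ∅ := by
    have ho : IsOpen (interior L ∩ Kᶜ) := isOpen_interior.inter hK.isOpen_compl
    have h3 : volume (interior L ∩ Kᶜ) = 0 := by
      refine measure_mono_null ?_ h1
      rintro y ⟨h4, h5⟩
      exact ⟨interior_subset h4, h5⟩
    exact (ho.measure_eq_zero_iff volume).1 h3
  have h4 : interior L ⊆ K := by
    intro y hy
    by_contra hyK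
    have : y ∈ interior L ∩ Kᶜ := ⟨hy, hyK⟩
    rw [h2] at this
    exact this
  have h5 : closure (interior L) ⊆ K := closure_minimal h4 hK
  rw [hL.closure_interior_eq_closure_of_nonempty_interior hLi] at h5
  exact subset_closure.trans h5

/-- The E8 cell is cut out by the minimal vectors. -/
theorem cell_E8 : cell E8 0 = PV := by
  refine eq_of_vol (closed_cell _ _) convex_PV interior_PV ?_ ?_ ?_
  · intro y hy r hr
    exact hy r hr.1
  · rw [vol_E8]; norm_num
  · rw [vol_PV, vol_E8]

/-- Rigid motions preserve volume. -/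
theorem vol_motion (x : E) (A : E ≃ₗᵢ[ℝ] E) (K : Set E) :
    volume ((fun y => x + A y) '' K) = volume K := by
  have h1 : (fun y => x + A y) '' K = (fun y => x + y) '' (A '' K) := by
    rw [Set.image_image]
  rw [h1, Set.image_add_left, measure_preimage_add]
  have h2 : A '' K = A.symm ⁻¹' K := by
    ext y
    simp only [Set.mem_image, Set.mem_preimage]
    constructor
    · rintro ⟨z, hz, rfl⟩
      simpa using hz
    · intro h
      exact ⟨A.symm y, h, by simp⟩
  rw [h2]
  exact A.symm.measurePreserving.measure_preimage_equiv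
    (f := A.symm.toHomeomorph.toMeasurableEquiv) _

/-- A cell of volume 16 whose centre has the 240 neighbours of E8 is a copy of the E8 cell. -/
theorem cell_copy (X : Set E) (hX : Packing X) (x : E) (hx : x ∈ X) (A : E ≃ₗᵢ[ℝ] E)
    (hA : ∀ r ∈ shell, x + A r ∈ X) : cell X x = (fun y => x + A y) '' cell E8 0 := by
  have hv : volume (cell X x) = 16 := All.hFIN.eq X hX x hx A hA
  have himg : (fun y => x + A y) '' PV = (fun z => A.symm (z - x)) ⁻¹' PV := by
    ext z
    simp only [Set.mem_image, Set.mem_preimage]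
    constructor
    · rintro ⟨y, hy, rfl⟩
      simpa using hy
    · intro h
      exact ⟨_, h, by simp⟩
  have hcont : Continuous fun z => A.symm (z - x) := by fun_prop
  rw [cell_E8]
  refine eq_of_vol (closed_cell _ _) ?_ ?_ ?_ ?_ ?_
  · have h1 : (fun y => x + A y) '' PV = (fun y => x + y) '' (A '' PV) := by
      rw [Set.image_image]
    rw [h1]
    exact (convex_PV.linear_image (A.toLinearEquiv : E →ₗ[ℝ] E)).translate x
  · rw [himg]
    obtain ⟨y, hy⟩ := interior_PV
    refine ⟨x + A y, ?_⟩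
    rw [mem_interior_iff_mem_nhds] at hy ⊢
    refine hcont.continuousAt.preimage_mem_nhds ?_
    simpa using hy
  · intro y hy
    rw [himg]
    intro r hr
    have h1 := hy _ (hA r hr)
    rw [dist_eq_norm, dist_eq_norm] at h1 ⊢
    have e1 : A.symm (y - x) - 0 = A.symm (y - x) := sub_zero _
    have e2 : A.symm (y - x) - r = A.symm (y - (x + A r)) := by
      rw [← sub_sub, map_sub A.symm (y - x) (A r), A.symm_apply_apply]
    rw [e1, e2, A.symm.norm_map, A.symm.norm_map]
    exact h1
  · rw [hv]; norm_num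
  · rw [vol_motion, vol_PV, hv]

end EQCM

end Pool.Agent.Lib.MP_f1379f_gt.EV
end
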