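import Pool.Agent.Lib.MP_f1379f_gt.FV.SpecA

section
set_option autoImplicit false

namespace Pool.Agent.Lib.MP_f1379f_gt.FV

namespace GSLM

open MeasureTheory Matrix

/-- volume of a ball `|t|^2 < R` in a space of dimension `j ≥ 1` -/
theorem ball_vol {F : Type*} [NormedAddCommGroup F] [InnerProductSpace ℝ F] [MeasurableSpace F]
    [BorelSpace F] [FiniteDimensional ℝ F] (j : ℕ) (hj : 1 ≤ j)
    (hF : Module.finrank ℝ F = j) (R : ℝ) :
    volume {t : F | ‖t‖ ^ 2 < R} = ENNReal.ofReal (kap j * Real.sqrt R ^ j) := by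
  have hset : {t : F | ‖t‖ ^ 2 < R} = Metric.ball (0 : F) (Real.sqrt R) := by
    ext t
    rw [Set.mem_ofPred_eq, mem_ball_zero_iff, Real.lt_sqrt (norm_nonneg t)]
  have hnt : Nontrivial F := Module.nontrivial_of_finrank_pos (R := ℝ) (by omega)
  rw [hset, Measure.addHaar_ball _ _ (Real.sqrt_nonneg R), hF]
  have hunit : volume (Metric.ball (0 : F) 1)
      = volume (Metric.ball (0 : EuclideanSpace ℝ (Fin j)) 1) := by
    have b : OrthonormalBasis (Fin j) ℝ F := (stdOrthonormalBasis ℝ F).reindex (finCongr hF)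
    have hm := b.measurePreserving_repr
    have hpre : b.repr ⁻¹' (Metric.ball (0 : EuclideanSpace ℝ (Fin j)) 1) = Metric.ball (0 : F) 1 := by
      ext t
      simp
    rw [← hpre]
    exact hm.measure_preimage Metric.isOpen_ball.measurableSet.nullMeasurableSet
  rw [hunit, kap, mul_comm (ENNReal.toReal _), ENNReal.ofReal_mul (by positivity),
    ENNReal.ofReal_toReal (measure_ball_lt_top.ne)]

/-- slicing over a subspace -/
theorem slice (S : Submodule ℝ E) (j : ℕ) (hj : 1 ≤ j) (hS : Module.finrank ℝ Sᗮ = j)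
    (B : Set S) (hB : MeasurableSet B) (R : ℝ) :
    volume {y : E | ‖y‖ ^ 2 < R ∧ S.orthogonalProjectionOnto y ∈ B} =
      ∫⁻ s in B, ENNReal.ofReal (kap j * Real.sqrt (R - ‖s‖ ^ 2) ^ j) := by
  set T : Set (S × Sᗮ) := {q | ‖q.1‖ ^ 2 + ‖q.2‖ ^ 2 < R ∧ q.1 ∈ B} with hT
  have hTm : MeasurableSet T := by
    apply MeasurableSet.inter
    · have hcont : Continuous (fun q : S × Sᗮ => ‖q.1‖ ^ 2 + ‖q.2‖ ^ 2) := by fun_prop
      exact measurableSet_lt hcont.measurable measurable_const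
    · exact measurable_fst hB
  have hmp : MeasurePreserving (fun y : E => WithLp.ofLp (S.orthogonalDecomposition y))
      volume (volume : Measure (S × Sᗮ)) :=
    (WithLp.volume_preserving_ofLp S Sᗮ).comp S.orthogonalDecomposition.measurePreserving
  have hpre : (fun y : E => WithLp.ofLp (S.orthogonalDecomposition y)) ⁻¹' T
      = {y : E | ‖y‖ ^ 2 < R ∧ S.orthogonalProjectionOnto y ∈ B} := by
    ext y
    rw [hT, Set.mem_preimage, Set.mem_ofPred_eq, Set.mem_ofPred_eq]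
    have h1 : (WithLp.ofLp (S.orthogonalDecomposition y)).1 = S.orthogonalProjectionOnto y := by
      exact Submodule.fst_orthogonalDecomposition_apply S y
    have h2 : ‖(WithLp.ofLp (S.orthogonalDecomposition y)).1‖ ^ 2
        + ‖(WithLp.ofLp (S.orthogonalDecomposition y)).2‖ ^ 2 = ‖y‖ ^ 2 := by
      rw [← S.orthogonalDecomposition.norm_map y, WithLp.prod_norm_sq_eq_of_L2]
      rfl
    rw [h2, h1]
  rw [← hpre, hmp.measure_preimage hTm.nullMeasurableSet]
  rw [Measure.volume_eq_prod, Measure.prod_apply hTm, ← lintegral_indicator hB]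
  apply lintegral_congr
  intro s
  by_cases hs : s ∈ B
  · rw [Set.indicator_of_mem hs]
    have : Prod.mk s ⁻¹' T = {t : Sᗮ | ‖t‖ ^ 2 < R - ‖s‖ ^ 2} := by
      ext t
      rw [hT, Set.mem_preimage, Set.mem_ofPred_eq, Set.mem_ofPred_eq]
      constructor
      · intro h; linarith [h.1]
      · intro h; exact ⟨by linarith, hs⟩
    rw [this, ball_vol j hj hS]
  · rw [Set.indicator_of_notMem hs]
    have : Prod.mk s ⁻¹' T = ∅ := by
      ext t
      rw [hT, Set.mem_preimage, Set.mem_ofPred_eq]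
      simp [hs]
    rw [this, measure_empty]

end GSLM

open GSLM MeasureTheory Matrix in
theorem specGSL : SpecGSL := by
  intro k j hkj hj a ha A hA R
  set S : Submodule ℝ E := Submodule.span ℝ (Set.range a) with hS
  have hSk : Module.finrank ℝ S = k := by
    rw [hS, finrank_span_eq_card ha, Fintype.card_fin]
  have hSj : Module.finrank ℝ Sᗮ = j := by
    have h := S.finrank_add_finrank_orthogonal
    rw [hSk] at h
    have h8 : Module.finrank ℝ E = 8 := by simp [E]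
    omega
  have haS : ∀ i, a i ∈ S := fun i => Submodule.subset_span ⟨i, rfl⟩
  -- the linear functionals
  set L : S → (Fin k → ℝ) := fun s i => (inner ℝ (a i) (s : E) : ℝ) with hL
  have hLm : Measurable L := by
    apply measurable_pi_lambda
    intro i
    have : Continuous (fun s : S => (inner ℝ (a i) (s : E) : ℝ)) :=
      continuous_const.inner continuous_subtype_val
    exact this.measurable
  have hinner : ∀ (i : Fin k) (y : E), (inner ℝ (a i) y : ℝ)
      = inner ℝ (a i) ((S.orthogonalProjectionOnto y : S) : E) := by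
    intro i y
    have h := Submodule.inner_orthogonalProjectionOnto_eq_of_mem_left (K := S) ⟨a i, haS i⟩ y
    exact h.symm
  have hset : {y : E | ‖y‖ ^ 2 < R ∧ (fun i => (inner ℝ (a i) y : ℝ)) ∈ A}
      = {y : E | ‖y‖ ^ 2 < R ∧ S.orthogonalProjectionOnto y ∈ L ⁻¹' A} := by
    ext y
    rw [Set.mem_ofPred_eq, Set.mem_ofPred_eq, Set.mem_preimage]
    have : (fun i => (inner ℝ (a i) y : ℝ)) = L (S.orthogonalProjectionOnto y) := by
      funext i
      exact hinner i y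
    rw [this]
  rw [hset, slice S j hj hSj _ (hLm hA) R]
  -- coordinates
  set b : OrthonormalBasis (Fin k) ℝ S := (stdOrthonormalBasis ℝ S).reindex (finCongr hSk) with hb
  set c : S → (Fin k → ℝ) := fun s => WithLp.ofLp (b.repr s) with hc
  have hcm : MeasurePreserving c volume volume :=
    (PiLp.volume_preserving_ofLp (Fin k)).comp b.measurePreserving_repr
  set M : Matrix (Fin k) (Fin k) ℝ := Matrix.of fun i l => (inner ℝ (a i) ((b l : S) : E) : ℝ) with hM
  set G : Matrix (Fin k) (Fin k) ℝ := Matrix.of fun i l => (inner ℝ (a i) (a l) : ℝ) with hG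
  have hLc : ∀ s, L s = M.mulVec (c s) := by
    intro s
    funext i
    have h1 : (s : E) = ∑ l, c s l • ((b l : S) : E) := by
      have h := b.sum_repr s
      conv_lhs => rw [← h]
      simp [hc]
    simp only [hL, hM, mulVec, dotProduct, Matrix.of_apply]
    rw [h1, inner_sum]
    apply Finset.sum_congr rfl
    intro l _
    rw [inner_smul_right, mul_comm]
  have hnorm : ∀ s : S, ‖s‖ ^ 2 = c s ⬝ᵥ c s := by
    intro s
    rw [← b.repr.norm_map s, EuclideanSpace.norm_sq_eq]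
    simp [hc, dotProduct, sq]
  have hGM : G = M * Mᵀ := by
    ext i l
    rw [Matrix.mul_apply]
    simp only [hG, hM, Matrix.of_apply, Matrix.transpose_apply]
    have h := b.sum_inner_mul_inner ⟨a i, haS i⟩ ⟨a l, haS l⟩
    simp only [Submodule.coe_inner] at h
    rw [← h]
    apply Finset.sum_congr rfl
    intro m _
    rw [real_inner_comm (a l)]
  have hGdet : G.det ≠ 0 := by
    have h := (Matrix.det_gram_ne_zero_iff_linearIndependent (𝕜 := ℝ) (v := a)).2 ha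
    exact h
  have hdetG : G.det = M.det ^ 2 := by
    rw [hGM, det_mul, det_transpose, sq]
  have hMdet : M.det ≠ 0 := by
    intro h
    apply hGdet
    rw [hdetG, h]
    norm_num
  have hMu : IsUnit M.det := isUnit_iff_ne_zero.2 hMdet
  have hquad : ∀ x : Fin k → ℝ, (M.mulVec x) ⬝ᵥ (G⁻¹.mulVec (M.mulVec x)) = x ⬝ᵥ x := by
    intro x
    have h1 : G⁻¹ = Mᵀ⁻¹ * M⁻¹ := by rw [hGM, Matrix.mul_inv_rev]
    have h2 : G⁻¹.mulVec (M.mulVec x) = Mᵀ⁻¹.mulVec x := by
      rw [h1, mulVec_mulVec, Matrix.mul_assoc, Matrix.nonsing_inv_mul M hMu, Matrix.mul_one]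
    rw [h2, ← Matrix.vecMul_transpose, ← Matrix.dotProduct_mulVec, mulVec_mulVec,
      Matrix.mul_nonsing_inv _ (by rwa [det_transpose]), one_mulVec]
  -- transport to the coordinates
  have hMm : Measurable (fun x : Fin k → ℝ => M.mulVec x) := by
    have : Continuous (fun x : Fin k → ℝ => M.mulVec x) := by fun_prop
    exact this.measurable
  set g : ℝ → ENNReal := fun q => ENNReal.ofReal (kap j * Real.sqrt (R - q) ^ j) with hg
  have hgm : Measurable g := by
    have : Continuous (fun q : ℝ => kap j * Real.sqrt (R - q) ^ j) := by fun_prop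
    exact this.measurable.ennreal_ofReal
  set h : (Fin k → ℝ) → ENNReal := fun z => A.indicator (fun z => g (z ⬝ᵥ (G⁻¹.mulVec z))) z with hh
  have hqm : Measurable (fun z : Fin k → ℝ => z ⬝ᵥ (G⁻¹.mulVec z)) := by
    have : Continuous (fun z : Fin k → ℝ => z ⬝ᵥ (G⁻¹.mulVec z)) := by fun_prop
    exact this.measurable
  have hhm : Measurable h := (hgm.comp hqm).indicator hA
  have e1 : ∫⁻ s in L ⁻¹' A, ENNReal.ofReal (kap j * Real.sqrt (R - ‖s‖ ^ 2) ^ j)
      = ∫⁻ s, h (M.mulVec (c s)) := by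
    rw [← lintegral_indicator (hLm hA)]
    apply lintegral_congr
    intro s
    rw [← hLc s]
    by_cases hs : L s ∈ A
    · rw [Set.indicator_of_mem (show s ∈ L ⁻¹' A from hs)]
      simp only [hh]
      rw [Set.indicator_of_mem hs, hLc s, hquad, ← hnorm]
    · rw [Set.indicator_of_notMem (show s ∉ L ⁻¹' A from hs)]
      simp only [hh]
      rw [Set.indicator_of_notMem hs]
  have e2 : ∫⁻ s, h (M.mulVec (c s)) = ∫⁻ x, h (M.mulVec x) :=
    hcm.lintegral_comp (hhm.comp hMm)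
  have e3 : ∫⁻ x, h (M.mulVec x) = ENNReal.ofReal |(M.det)⁻¹| * ∫⁻ z, h z := by
    have hmap := Real.map_matrix_volume_pi_eq_smul_volume_pi hMdet
    have : ∫⁻ x, h (M.mulVec x) = ∫⁻ z, h z ∂(Measure.map (toLin' M) volume) := by
      rw [lintegral_map hhm]
      · rfl
      · exact hMm
    rw [this, hmap, lintegral_smul_measure, smul_eq_mul]
  rw [e1, e2, e3, ← lintegral_indicator hA, ← lintegral_const_mul _ hhm]
  apply lintegral_congr
  intro z
  by_cases hz : z ∈ A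
  · simp only [hh, hg]
    rw [Set.indicator_of_mem hz, Set.indicator_of_mem hz, ← ENNReal.ofReal_mul (abs_nonneg _)]
    congr 1
    rw [hdetG, Real.sqrt_sq_eq_abs, abs_inv]
    ring
  · simp only [hh]
    rw [Set.indicator_of_notMem hz, Set.indicator_of_notMem hz, mul_zero]

end Pool.Agent.Lib.MP_f1379f_gt.FV
end

section
/-!
# I0: two-body lower bound of the truncated cell (from BON and LNK)
-/
set_option autoImplicit false

namespace Pool.Agent.Lib.MP_f1379f_gt.FV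

open MeasureTheory

theorem specI0 (hBON : SpecBON) (hLNK : SpecLNK) : SpecI0 := by
  intro U hU
  refine le_trans ?_ (hBON U)
  have key : ∑ u ∈ U, ∑ v ∈ U.erase u, max 0 (v2 u v - 9 * s3) ≤
      ∑ u ∈ U, ∑ v ∈ U.erase u,
        max 0 (v2 u v - (1 / 3) * ∑ w ∈ (U.erase u).erase v, v3 u v w) := by
    refine Finset.sum_le_sum fun u hu => Finset.sum_le_sum fun v hv => ?_
    rw [Finset.mem_erase] at hv
    have h := hLNK U hU u hu v hv.2 (Ne.symm hv.1)
    refine max_le_max le_rfl ?_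
    linarith
  linarith

end Pool.Agent.Lib.MP_f1379f_gt.FV
end

section
set_option autoImplicit false

namespace Pool.Agent.Lib.MP_f1379f_gt.FV

open MeasureTheory

namespace INVM

/-- Two finite families with the same Gram matrix differ by a linear isometry. -/
theorem exists_isom {k : ℕ} (a a' : Fin k → E)
    (h : ∀ i j, (inner ℝ (a i) (a j) : ℝ) = inner ℝ (a' i) (a' j)) :
    ∃ L : E ≃ₗᵢ[ℝ] E, ∀ i, L (a i) = a' i := by
  classical
  set F : (Fin k → ℝ) →ₗ[ℝ] E := Fintype.linearCombination ℝ a with hF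
  set G : (Fin k → ℝ) →ₗ[ℝ] E := Fintype.linearCombination ℝ a' with hG
  have hnorm : ∀ c, ‖F c‖ = ‖G c‖ := by
    intro c
    have h1 : ‖F c‖ ^ 2 = ‖G c‖ ^ 2 := by
      rw [← real_inner_self_eq_norm_sq, ← real_inner_self_eq_norm_sq, hF, hG,
        Fintype.linearCombination_apply, Fintype.linearCombination_apply]
      simp only [sum_inner, inner_sum, inner_smul_left, inner_smul_right, RCLike.conj_to_real, h]
    exact (pow_left_inj₀ (norm_nonneg _) (norm_nonneg _) (by norm_num)).mp h1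
  have hker : LinearMap.ker F ≤ LinearMap.ker G := by
    intro c hc
    rw [LinearMap.mem_ker] at hc ⊢
    have := hnorm c
    rw [hc, norm_zero] at this
    exact norm_eq_zero.mp this.symm
  set S := LinearMap.range F with hS
  let T : S →ₗ[ℝ] E := ((LinearMap.ker F).liftQ G hker).comp
    (F.quotKerEquivRange.symm : S ≃ₗ[ℝ] _).toLinearMap
  have hT : ∀ c, T ⟨F c, LinearMap.mem_range_self F c⟩ = G c := by
    intro c
    have e : (F.quotKerEquivRange.symm ⟨F c, LinearMap.mem_range_self F c⟩) =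
        (LinearMap.ker F).mkQ c := by
      rw [LinearEquiv.symm_apply_eq]
      rfl
    simp only [T, LinearMap.comp_apply, LinearEquiv.coe_coe, e, Submodule.mkQ_apply,
      Submodule.liftQ_apply]
  have hTn : ∀ x : S, ‖T x‖ = ‖x‖ := by
    rintro ⟨x, c, rfl⟩
    rw [hT c, ← hnorm c]
    rfl
  let T' : S →ₗᵢ[ℝ] E := ⟨T, hTn⟩
  let L0 : E →ₗᵢ[ℝ] E := T'.extend
  refine ⟨L0.toLinearIsometryEquiv rfl, ?_⟩
  intro i
  have hai : a i = F (Pi.single i 1) := by
    rw [hF, Fintype.linearCombination_apply_single]; simp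
  have hai' : a' i = G (Pi.single i 1) := by
    rw [hG, Fintype.linearCombination_apply_single]; simp
  have hmem : a i ∈ S := by
    rw [hai]; exact LinearMap.mem_range_self F _
  have e1 : L0 (a i) = T' ⟨a i, hmem⟩ := T'.extend_apply ⟨a i, hmem⟩
  show L0 (a i) = a' i
  rw [e1, hai']
  show T ⟨a i, hmem⟩ = _
  rw [← hT]
  congr 1
  apply Subtype.ext
  exact hai

theorem isOpen_cap (u : E) : IsOpen (cap u) := by
  have h1 : IsOpen {y : E | ‖y‖ ^ 2 < 5 / 3} := isOpen_lt (by fun_prop) (by fun_prop)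
  have h2 : IsOpen {y : E | 1 < (inner ℝ u y : ℝ)} := isOpen_lt (by fun_prop) (by fun_prop)
  exact h1.inter h2

theorem cap_preimage (L : E ≃ₗᵢ[ℝ] E) (u u' : E) (h : L u = u') : L ⁻¹' cap u' = cap u := by
  ext y
  simp only [cap, Set.mem_preimage, Set.mem_ofPred_eq, LinearIsometryEquiv.norm_map, ← h,
    LinearIsometryEquiv.inner_map_map]

theorem vol_preimage (L : E ≃ₗᵢ[ℝ] E) (s : Set E) (hs : IsOpen s) :
    volume (L ⁻¹' s) = volume s :=
  L.measurePreserving.measure_preimage hs.measurableSet.nullMeasurableSet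

end INVM

open INVM

theorem specINV : SpecINV where
  g1 := by
    intro u u' h
    obtain ⟨L, hL⟩ := exists_isom ![u] ![u'] (by
      intro i j
      fin_cases i; fin_cases j
      simp [h])
    have h0 : L u = u' := hL 0
    unfold v1
    rw [← cap_preimage L u u' h0, vol_preimage L _ (isOpen_cap u')]
  g2 := by
    intro u v u' v' hu hv huv
    have hvu : (inner ℝ v u : ℝ) = inner ℝ v' u' := by
      rw [real_inner_comm, huv, real_inner_comm]
    obtain ⟨L, hL⟩ := exists_isom ![u, v] ![u', v'] (by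
      intro i j
      fin_cases i <;> fin_cases j <;> simp [hu, hv, huv, hvu])
    have h0 : L u = u' := hL 0
    have h1 : L v = v' := hL 1
    unfold v2
    rw [← cap_preimage L u u' h0, ← cap_preimage L v v' h1, ← Set.preimage_inter,
      vol_preimage L _ ((isOpen_cap u').inter (isOpen_cap v'))]
  g3 := by
    intro u v w u' v' w' hu hv hw huv huw hvw
    have hvu : (inner ℝ v u : ℝ) = inner ℝ v' u' := by
      rw [real_inner_comm, huv, real_inner_comm]
    have hwu : (inner ℝ w u : ℝ) = inner ℝ w' u' := by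
      rw [real_inner_comm, huw, real_inner_comm]
    have hwv : (inner ℝ w v : ℝ) = inner ℝ w' v' := by
      rw [real_inner_comm, hvw, real_inner_comm]
    obtain ⟨L, hL⟩ := exists_isom ![u, v, w] ![u', v', w'] (by
      intro i j
      fin_cases i <;> fin_cases j <;> simp [hu, hv, hw, huv, hvu, huw, hwu, hvw, hwv])
    have h0 : L u = u' := hL 0
    have h1 : L v = v' := hL 1
    have h2 : L w = w' := hL 2
    unfold v3
    rw [← cap_preimage L u u' h0, ← cap_preimage L v v' h1, ← cap_preimage L w w' h2,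
      ← Set.preimage_inter, ← Set.preimage_inter,
      vol_preimage L _ (((isOpen_cap u').inter (isOpen_cap v')).inter (isOpen_cap w'))]

end Pool.Agent.Lib.MP_f1379f_gt.FV
end

section
set_option autoImplicit false

namespace Pool.Agent.Lib.MP_f1379f_gt.FV

open MeasureTheory

namespace JINM

/-- The substitution. -/
noncomputable def phi (Q th y : ℝ) : ℝ := Real.sqrt (Q - th * (Q - y ^ 2))

theorem inside_pos {Q th y : ℝ} (hth1 : th ≤ 1) (hyQ : y ^ 2 < Q) :
    y ^ 2 ≤ Q - th * (Q - y ^ 2) := by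
  nlinarith

theorem phi_ge {Q th y : ℝ} (hth1 : th ≤ 1) (hyQ : y ^ 2 < Q) :
    y ≤ phi Q th y := by
  unfold phi
  exact Real.le_sqrt_of_sq_le (inside_pos hth1 hyQ)

theorem phi_deriv {Q th y : ℝ} (hth1 : th ≤ 1) (hy : 0 < y) (hyQ : y ^ 2 < Q) :
    HasDerivAt (phi Q th) (th * y / phi Q th y) y := by
  have hin : 0 < Q - th * (Q - y ^ 2) := by
    have := inside_pos hth1 hyQ
    have : 0 < y ^ 2 := by positivity
    linarith
  have h1 : HasDerivAt (fun z : ℝ => Q - th * (Q - z ^ 2)) (2 * th * y) y := by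
    refine ((((hasDerivAt_pow 2 y).const_sub Q).const_mul th).const_sub Q).congr_deriv ?_
    norm_num
    ring
  refine (h1.sqrt hin.ne').congr_deriv ?_
  have hs : Real.sqrt (Q - th * (Q - y ^ 2)) ≠ 0 := (Real.sqrt_pos.mpr hin).ne'
  unfold phi
  field_simp

theorem core (Q h h' th : ℝ) (hh : 0 < h) (hh' : h ≤ h') (hQ : h' ^ 2 < Q)
    (hth : th * (Q - h ^ 2) = Q - h' ^ 2) (hth0 : 0 < th) (hth1 : th ≤ 1) :
    ∫⁻ x in Set.Ioi h', ENNReal.ofReal (Real.sqrt (Q - x ^ 2) ^ 5) ≤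
      ENNReal.ofReal (Real.sqrt th ^ 7) *
        ∫⁻ x in Set.Ioi h, ENNReal.ofReal (Real.sqrt (Q - x ^ 2) ^ 5) := by
  have hQ0 : 0 < Q := lt_of_le_of_lt (sq_nonneg _) hQ
  set s : Set ℝ := Set.Ioo h (Real.sqrt Q) with hs
  have hmem : ∀ y ∈ s, 0 < y ∧ y ^ 2 < Q := by
    intro y hy
    have hy0 : 0 < y := lt_trans hh hy.1
    refine ⟨hy0, ?_⟩
    exact (Real.lt_sqrt hy0.le).mp hy.2
  have hder : ∀ y ∈ s, HasDerivWithinAt (phi Q th) (th * y / phi Q th y) s y := by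
    intro y hy
    obtain ⟨h1, h2⟩ := hmem y hy
    exact (phi_deriv hth1 h1 h2).hasDerivWithinAt
  have hinj : Set.InjOn (phi Q th) s := by
    intro y hy z hz e
    obtain ⟨h1, h2⟩ := hmem y hy
    obtain ⟨h3, h4⟩ := hmem z hz
    have i1 := inside_pos hth1 h2
    have i2 := inside_pos hth1 h4
    unfold phi at e
    have e' := (Real.sqrt_inj (le_trans (sq_nonneg _) i1) (le_trans (sq_nonneg _) i2)).mp e
    have e2 : th * (y ^ 2 - z ^ 2) = 0 := by linarith
    have e3 : y ^ 2 = z ^ 2 := by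
      rcases mul_eq_zero.mp e2 with h5 | h5
      · exact absurd h5 hth0.ne'
      · linarith
    exact (pow_left_inj₀ h1.le h3.le (by norm_num)).mp e3
  have himg : Set.Ioo h' (Real.sqrt Q) ⊆ phi Q th '' s := by
    intro x hx
    have hx0 : 0 < x := lt_of_lt_of_le hh (hh'.trans hx.1.le)
    have hxQ : x ^ 2 < Q := (Real.lt_sqrt hx0.le).mp hx.2
    have hxh : h' ^ 2 < x ^ 2 := by
      apply pow_lt_pow_left₀ hx.1 (hh.le.trans hh') (by norm_num)
    have hlt : (Q - x ^ 2) / th < Q - h ^ 2 := by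
      rw [div_lt_iff₀ hth0, mul_comm, hth]
      linarith
    have hpos : 0 < (Q - x ^ 2) / th := div_pos (by linarith) hth0
    have hin : h ^ 2 < Q - (Q - x ^ 2) / th := by linarith
    refine ⟨Real.sqrt (Q - (Q - x ^ 2) / th), ⟨?_, ?_⟩, ?_⟩
    · exact (Real.lt_sqrt hh.le).mpr hin
    · exact Real.sqrt_lt_sqrt (le_trans (sq_nonneg _) hin.le) (by linarith)
    · unfold phi
      rw [Real.sq_sqrt (le_trans (sq_nonneg _) hin.le)]
      have e : Q - th * (Q - (Q - (Q - x ^ 2) / th)) = x ^ 2 := by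
        field_simp
        ring
      rw [e, Real.sqrt_sq hx0.le]
  have hsm : MeasurableSet s := measurableSet_Ioo
  have step1 : ∫⁻ x in Set.Ioi h', ENNReal.ofReal (Real.sqrt (Q - x ^ 2) ^ 5) ≤
      ∫⁻ x in Set.Ioo h' (Real.sqrt Q), ENNReal.ofReal (Real.sqrt (Q - x ^ 2) ^ 5) := by
    rw [← lintegral_indicator measurableSet_Ioi, ← lintegral_indicator measurableSet_Ioo]
    apply lintegral_mono
    intro x
    by_cases hx : x ∈ Set.Ioi h'
    · rw [Set.indicator_of_mem hx]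
      by_cases hx2 : x < Real.sqrt Q
      · have hx3 : x ∈ Set.Ioo h' (Real.sqrt Q) := ⟨hx, hx2⟩
        rw [Set.indicator_of_mem hx3]
      · push Not at hx2
        have : Q - x ^ 2 ≤ 0 := by
          have := (Real.sqrt_le_left (lt_of_lt_of_le hh (hh'.trans (le_of_lt hx))).le).mp hx2
          linarith
        rw [Real.sqrt_eq_zero_of_nonpos this]
        simp
    · rw [Set.indicator_of_notMem hx]
      exact zero_le
  have step2 : ∫⁻ x in Set.Ioo h' (Real.sqrt Q), ENNReal.ofReal (Real.sqrt (Q - x ^ 2) ^ 5) ≤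
      ∫⁻ x in phi Q th '' s, ENNReal.ofReal (Real.sqrt (Q - x ^ 2) ^ 5) :=
    lintegral_mono_set himg
  have step3 := lintegral_image_eq_lintegral_abs_deriv_mul hsm hder hinj
    (fun x => ENNReal.ofReal (Real.sqrt (Q - x ^ 2) ^ 5))
  refine step1.trans (step2.trans ?_)
  rw [step3]
  calc ∫⁻ y in s, ENNReal.ofReal |th * y / phi Q th y| *
        ENNReal.ofReal (Real.sqrt (Q - phi Q th y ^ 2) ^ 5)
      ≤ ∫⁻ y in s, ENNReal.ofReal (Real.sqrt th ^ 7) *
          ENNReal.ofReal (Real.sqrt (Q - y ^ 2) ^ 5) := by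
        apply setLIntegral_mono' hsm
        intro y hy
        obtain ⟨h1, h2⟩ := hmem y hy
        have i1 := inside_pos hth1 h2
        have i2 := phi_ge hth1 h2
        have hphi : 0 < phi Q th y := lt_of_lt_of_le h1 i2
        have hsq : phi Q th y ^ 2 = Q - th * (Q - y ^ 2) :=
          Real.sq_sqrt (le_trans (sq_nonneg _) i1)
        rw [hsq]
        have e1 : Q - (Q - th * (Q - y ^ 2)) = th * (Q - y ^ 2) := by ring
        rw [e1, ← ENNReal.ofReal_mul (abs_nonneg _), ← ENNReal.ofReal_mul (by positivity)]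
        apply ENNReal.ofReal_le_ofReal
        rw [Real.sqrt_mul hth0.le, mul_pow]
        have e2 : |th * y / phi Q th y| ≤ th := by
          rw [abs_of_nonneg (by positivity), div_le_iff₀ hphi]
          exact mul_le_mul_of_nonneg_left i2 hth0.le
        have e3 : th * Real.sqrt th ^ 5 = Real.sqrt th ^ 7 := by
          have : Real.sqrt th ^ 2 = th := Real.sq_sqrt hth0.le
          calc th * Real.sqrt th ^ 5 = Real.sqrt th ^ 2 * Real.sqrt th ^ 5 := by rw [this]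
            _ = _ := by ring
        calc |th * y / phi Q th y| * (Real.sqrt th ^ 5 * Real.sqrt (Q - y ^ 2) ^ 5)
            ≤ th * (Real.sqrt th ^ 5 * Real.sqrt (Q - y ^ 2) ^ 5) := by gcongr
          _ = (th * Real.sqrt th ^ 5) * Real.sqrt (Q - y ^ 2) ^ 5 := by ring
          _ = _ := by rw [e3]
    _ = ENNReal.ofReal (Real.sqrt th ^ 7) * ∫⁻ y in s, ENNReal.ofReal (Real.sqrt (Q - y ^ 2) ^ 5) := by
        rw [lintegral_const_mul' _ _ ENNReal.ofReal_ne_top]
    _ ≤ _ := by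
        gcongr
        exact Set.Ioo_subset_Ioi_self

end JINM

open JINM

theorem specJIN : SpecJIN := by
  intro Q h r hh hr hr1 hQ
  have hr2 : 0 < r ^ 2 := by positivity
  have hhr : h ≤ h / r := by
    rw [le_div_iff₀ hr]
    nlinarith
  by_cases hcase : Q ≤ (h / r) ^ 2
  · have h0 : ∫⁻ x in Set.Ioi (h / r), ENNReal.ofReal (Real.sqrt (Q - x ^ 2) ^ 5) = 0 := by
      rw [← lintegral_indicator measurableSet_Ioi]
      have : (Set.Ioi (h / r)).indicator (fun x => ENNReal.ofReal (Real.sqrt (Q - x ^ 2) ^ 5)) =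
          fun _ => 0 := by
        funext x
        by_cases hx : x ∈ Set.Ioi (h / r)
        · rw [Set.indicator_of_mem hx]
          have hx' : h / r < x := hx
          have : Q - x ^ 2 ≤ 0 := by
            have h5 : (h / r) ^ 2 < x ^ 2 :=
              pow_lt_pow_left₀ hx' (by positivity) (by norm_num)
            linarith
          rw [Real.sqrt_eq_zero_of_nonpos this]
          simp
        · rw [Set.indicator_of_notMem hx]
      rw [this]
      simp
    rw [h0]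
    exact zero_le
  · push Not at hcase
    have hh2 : h ^ 2 ≤ (h / r) ^ 2 := pow_le_pow_left₀ hh.le hhr 2
    have hQh : 0 < Q - h ^ 2 := by linarith
    set th := (Q - (h / r) ^ 2) / (Q - h ^ 2) with hth
    have hth0 : 0 < th := div_pos (by linarith) hQh
    have hth1 : th ≤ 1 := by
      rw [hth, div_le_one hQh]; linarith
    have hmul : th * (Q - h ^ 2) = Q - (h / r) ^ 2 := div_mul_cancel₀ _ hQh.ne'
    refine (core Q h (h / r) th hh hhr hcase hmul hth0 hth1).trans ?_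
    gcongr
    unfold sig
    have hle : th ≤ (1 - 2 * (1 - r ^ 2)) / (1 - (1 - r ^ 2)) := by
      have e : 1 - (1 - r ^ 2) = r ^ 2 := by ring
      rw [e, hth, div_le_div_iff₀ hQh hr2, div_pow]
      have e2 : (Q - h ^ 2 / r ^ 2) * r ^ 2 = Q * r ^ 2 - h ^ 2 := by
        field_simp
      rw [e2]
      have h6 : 0 ≤ (1 - r ^ 2) := by nlinarith
      nlinarith
    gcongr

end Pool.Agent.Lib.MP_f1379f_gt.FV
end

section
set_option autoImplicit false

namespace Pool.Agent.Lib.MP_f1379f_gt.FV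

open MeasureTheory

namespace LKPM

theorem cc_norm_sq (u v : E) (hD : Dt u v ≠ 0) :
    ‖cc u v‖ ^ 2 = (‖u‖ ^ 2 + ‖v‖ ^ 2 - 2 * (inner ℝ u v : ℝ)) / Dt u v := by
  have h1 : ‖cc u v‖ ^ 2 = inner ℝ (cc u v) (cc u v) := (real_inner_self_eq_norm_sq _).symm
  rw [h1]
  unfold cc
  simp only [inner_add_left, inner_add_right, inner_smul_left, inner_smul_right,
    RCLike.conj_to_real, real_inner_self_eq_norm_sq, real_inner_comm u v]
  generalize hDD : Dt u v = D at hD ⊢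
  unfold Dt at hDD
  generalize ‖u‖ ^ 2 = a at *
  generalize ‖v‖ ^ 2 = b at *
  generalize (inner ℝ u v : ℝ) = p at *
  field_simp
  rw [← hDD]
  ring

theorem cc_inner (u v y : E) :
    (inner ℝ (cc u v) y : ℝ) = ((‖v‖ ^ 2 - (inner ℝ u v : ℝ)) / Dt u v) * inner ℝ u y +
      ((‖u‖ ^ 2 - (inner ℝ u v : ℝ)) / Dt u v) * inner ℝ v y := by
  unfold cc
  simp only [inner_add_left, inner_smul_left, RCLike.conj_to_real]

theorem pe_inner (u v w y : E) :
    (inner ℝ (pe u v w) y : ℝ) = inner ℝ w y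
      - ((‖v‖ ^ 2 * (inner ℝ u w : ℝ) - (inner ℝ u v : ℝ) * (inner ℝ v w : ℝ)) / Dt u v)
        * inner ℝ u y
      - ((‖u‖ ^ 2 * (inner ℝ v w : ℝ) - (inner ℝ u v : ℝ) * (inner ℝ u w : ℝ)) / Dt u v)
        * inner ℝ v y := by
  unfold pe
  simp only [inner_sub_left, inner_smul_left, RCLike.conj_to_real]

theorem pe_u (u v w : E) (hD : Dt u v ≠ 0) : (inner ℝ (pe u v w) u : ℝ) = 0 := by
  have e1 : (inner ℝ v u : ℝ) = inner ℝ u v := real_inner_comm _ _
  have e2 : (inner ℝ w u : ℝ) = inner ℝ u w := real_inner_comm _ _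
  rw [pe_inner, real_inner_self_eq_norm_sq, e1, e2]
  generalize hDD : Dt u v = D at hD ⊢
  unfold Dt at hDD
  field_simp
  rw [← hDD]
  ring

theorem pe_v (u v w : E) (hD : Dt u v ≠ 0) : (inner ℝ (pe u v w) v : ℝ) = 0 := by
  have e2 : (inner ℝ w v : ℝ) = inner ℝ v w := real_inner_comm _ _
  rw [pe_inner, real_inner_self_eq_norm_sq, e2]
  generalize hDD : Dt u v = D at hD ⊢
  unfold Dt at hDD
  field_simp
  rw [← hDD]
  ring

theorem cc_pe (u v w : E) (hD : Dt u v ≠ 0) : (inner ℝ (cc u v) (pe u v w) : ℝ) = 0 := by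
  rw [cc_inner]
  have e1 : (inner ℝ u (pe u v w) : ℝ) = 0 := by rw [real_inner_comm]; exact pe_u u v w hD
  have e2 : (inner ℝ v (pe u v w) : ℝ) = 0 := by rw [real_inner_comm]; exact pe_v u v w hD
  rw [e1, e2]; ring

/-- The algebraic core of the comparison. -/
theorem core (a b p D lam mu m s t A B : ℝ) (hD : 0 < D) (hDe : D = a * b - p ^ 2)
    (ha : 0 ≤ a) (hb : 0 ≤ b) (hp : p ≤ 1 / 2)
    (hlam : lam = (b - p) / D) (hmu : mu = (a - p) / D)
    (hm : m = 1 - (lam + mu) / 2) (hm0 : 0 ≤ m)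
    (hs : 0 ≤ s) (ht : 0 ≤ t) (hA : 0 ≤ A) (hB : 0 ≤ B) :
    (m + (lam * s + mu * t)) * (1 - (lam * (1 + A) + mu * (1 + B)) / 2) ≤
      m * (1 - ((b * (1 / 2 - s) - p * (1 / 2 - t)) / D * (1 + A) +
        (a * (1 / 2 - t) - p * (1 / 2 - s)) / D * (1 + B))) := by
  have hK : m * p / D ≤ lam * mu / 2 := by
    have e1 : lam * mu / 2 - m * p / D = (1 - 2 * p) / (2 * D) := by
      rw [hm, hlam, hmu]
      have hDne : D ≠ 0 := hD.ne'
      field_simp
      rw [hDe]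
      ring
    have e2 : 0 ≤ (1 - 2 * p) / (2 * D) := div_nonneg (by linarith) (by linarith)
    linarith
  have e3 : m * (1 - ((b * (1 / 2 - s) - p * (1 / 2 - t)) / D * (1 + A) +
        (a * (1 / 2 - t) - p * (1 / 2 - s)) / D * (1 + B))) -
      (m + (lam * s + mu * t)) * (1 - (lam * (1 + A) + mu * (1 + B)) / 2) =
      (m * b / D + lam ^ 2 / 2) * (s * A) + (m * a / D + mu ^ 2 / 2) * (t * B) +
        (lam * mu / 2 - m * p / D) * (s * B) + (lam * mu / 2 - m * p / D) * (t * A) := by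
    have e4 : (b * (1 / 2 - s) - p * (1 / 2 - t)) / D = lam / 2 - (b * s - p * t) / D := by
      rw [hlam]; ring
    have e5 : (a * (1 / 2 - t) - p * (1 / 2 - s)) / D = mu / 2 - (a * t - p * s) / D := by
      rw [hmu]; ring
    have e6 : (b * s - p * t) / D + (a * t - p * s) / D = lam * s + mu * t := by
      rw [hlam, hmu]; ring
    have e7 : 1 - (lam * (1 + A) + mu * (1 + B)) / 2 = m - (lam * A + mu * B) / 2 := by
      rw [hm]; ring
    have e8 : 1 - ((b * (1 / 2 - s) - p * (1 / 2 - t)) / D * (1 + A) +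
        (a * (1 / 2 - t) - p * (1 / 2 - s)) / D * (1 + B)) =
        (m - (lam * A + mu * B) / 2) + (lam * s + mu * t) +
          (b * s - p * t) / D * A + (a * t - p * s) / D * B := by
      rw [e4, e5]
      have : 1 - ((lam / 2 - (b * s - p * t) / D) * (1 + A) +
          (mu / 2 - (a * t - p * s) / D) * (1 + B)) =
          (1 - (lam * (1 + A) + mu * (1 + B)) / 2) + ((b * s - p * t) / D + (a * t - p * s) / D) +
          (b * s - p * t) / D * A + (a * t - p * s) / D * B := by ring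
      rw [this, e6, e7]
    rw [e8, e7]
    ring
  have hq1 : 0 ≤ (m * b / D + lam ^ 2 / 2) * (s * A) := by positivity
  have hq2 : 0 ≤ (m * a / D + mu ^ 2 / 2) * (t * B) := by positivity
  have hq3 : 0 ≤ (lam * mu / 2 - m * p / D) * (s * B) :=
    mul_nonneg (by linarith) (mul_nonneg hs hB)
  have hq4 : 0 ≤ (lam * mu / 2 - m * p / D) * (t * A) :=
    mul_nonneg (by linarith) (mul_nonneg ht hA)
  linarith

theorem rad_core (m tau q : ℝ) (hm0 : 1 / 6 < m) (hm1 : m ≤ 1 / 3) (ht : 2 - 2 * m ≤ tau)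
    (hq : tau ^ 2 ≤ (2 - 2 * m) * q) :
    5 / 3 ≤ (2 - tau) ^ 2 / (1 + m) + q := by
  have h1 : 0 < 1 + m := by linarith
  have h2 : 0 < 1 - m := by linarith
  have hq' : tau ^ 2 / (2 * (1 - m)) ≤ q := by
    rw [div_le_iff₀ (by linarith)]; linarith
  have h3 : 5 / 3 ≤ (2 - tau) ^ 2 / (1 + m) + tau ^ 2 / (2 * (1 - m)) := by
    have e : (2 - tau) ^ 2 / (1 + m) + tau ^ 2 / (2 * (1 - m)) - 5 / 3 =
        ((1 - 3 * m) * (1 - 2 * m)) / (3 * (1 + m)) +
          (2 - 4 * m / (1 + m)) * (tau - (2 - 2 * m)) +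
          (1 / (1 + m) + 1 / (2 * (1 - m))) * (tau - (2 - 2 * m)) ^ 2 := by
      field_simp
      ring
    have e1 : 0 ≤ ((1 - 3 * m) * (1 - 2 * m)) / (3 * (1 + m)) :=
      div_nonneg (mul_nonneg (by linarith) (by linarith)) (by linarith)
    have e2 : 0 ≤ 2 - 4 * m / (1 + m) := by
      rw [sub_nonneg, div_le_iff₀ h1]; linarith
    have e3 : 0 ≤ (2 - 4 * m / (1 + m)) * (tau - (2 - 2 * m)) :=
      mul_nonneg e2 (by linarith)
    have e4 : 0 ≤ (1 / (1 + m) + 1 / (2 * (1 - m))) * (tau - (2 - 2 * m)) ^ 2 := by positivity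
    linarith
  linarith

end LKPM

open LKPM

theorem specLKP : SpecLKP where
  cmp := by
    intro u v w y h hw huy hvy hwy
    have hD := h.D
    have hcn := cc_norm_sq u v hD.ne'
    set a := ‖u‖ ^ 2 with ha
    set b := ‖v‖ ^ 2 with hb
    set p := (inner ℝ u v : ℝ) with hp
    set D := Dt u v with hDD
    have hDe : D = a * b - p ^ 2 := rfl
    set lam := (b - p) / D with hlam
    set mu := (a - p) / D with hmu
    have hm : mm u v = 1 - (lam + mu) / 2 := by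
      unfold mm
      rw [hcn, hlam, hmu, ← add_div]
      ring
    have hm0 : 0 < mm u v := by linarith [h.mlo]
    set m := mm u v with hmm
    set s := 1 / 2 - (inner ℝ w u : ℝ) with hs
    set t := 1 / 2 - (inner ℝ w v : ℝ) with ht
    have hs0 : 0 ≤ s := by rw [hs]; linarith [hw.wu]
    have ht0 : 0 ≤ t := by rw [ht]; linarith [hw.wv]
    have hwu : (inner ℝ u w : ℝ) = 1 / 2 - s := by rw [hs, real_inner_comm]; ring
    have hwv : (inner ℝ v w : ℝ) = 1 / 2 - t := by rw [ht, real_inner_comm]; ring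
    have hlam0 : 0 < lam := div_pos (by linarith [h.vlo, h.phi]) hD
    have hmu0 : 0 < mu := div_pos (by linarith [h.ulo, h.phi]) hD
    have hcw : 1 - (inner ℝ (cc u v) w : ℝ) = m + (lam * s + mu * t) := by
      rw [cc_inner, ← ha, ← hb, ← hp, ← hDD, ← hlam, ← hmu, hwu, hwv, hm]
      ring
    have hL : 0 ≤ lam * s + mu * t := by positivity
    have hden : 0 < m + (lam * s + mu * t) := by linarith
    have hk0 : 0 < Real.sqrt ((1 + m) / 2) := Real.sqrt_pos.mpr (by linarith)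
    have hpw : Real.sqrt ((1 + m) / 2) * (inner ℝ (pw u v w) y : ℝ) =
        m / (m + (lam * s + mu * t)) * inner ℝ (pe u v w) y := by
      unfold pw
      rw [inner_smul_left, RCLike.conj_to_real, hcw, ← hmm]
      field_simp
    rw [hpw, div_mul_eq_mul_div, lt_div_iff₀ hden]
    have hcore := core a b p D lam mu m s t ((inner ℝ u y : ℝ) - 1) ((inner ℝ v y : ℝ) - 1)
      hD hDe (by positivity) (by positivity) h.phi hlam hmu hm hm0.le hs0 ht0
      (by linarith) (by linarith)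
    have hpe : (inner ℝ (pe u v w) y : ℝ) > 1 - ((b * (1 / 2 - s) - p * (1 / 2 - t)) / D *
        (1 + ((inner ℝ u y : ℝ) - 1)) +
        (a * (1 / 2 - t) - p * (1 / 2 - s)) / D * (1 + ((inner ℝ v y : ℝ) - 1))) := by
      rw [pe_inner, ← ha, ← hb, ← hp, ← hDD, hwu, hwv]
      have e1 : 1 + ((inner ℝ u y : ℝ) - 1) = inner ℝ u y := by ring
      have e2 : 1 + ((inner ℝ v y : ℝ) - 1) = inner ℝ v y := by ring
      rw [e1, e2]
      linarith
    have hcy : (inner ℝ (cc u v) y : ℝ) = lam * (1 + ((inner ℝ u y : ℝ) - 1)) +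
        mu * (1 + ((inner ℝ v y : ℝ) - 1)) := by
      rw [cc_inner, ← ha, ← hb, ← hp, ← hDD, ← hlam, ← hmu]
      ring
    rw [hcy]
    have h5 := mul_lt_mul_of_pos_left hpe hm0
    calc (1 - (lam * (1 + ((inner ℝ u y : ℝ) - 1)) + mu * (1 + ((inner ℝ v y : ℝ) - 1))) / 2) *
          (m + (lam * s + mu * t)) =
        (m + (lam * s + mu * t)) *
          (1 - (lam * (1 + ((inner ℝ u y : ℝ) - 1)) + mu * (1 + ((inner ℝ v y : ℝ) - 1))) / 2) :=
          mul_comm _ _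
      _ ≤ _ := hcore
      _ < m * (inner ℝ (pe u v w) y : ℝ) := h5
  rad := by
    intro u v y h huy hvy
    have hD := h.D
    have hcn := cc_norm_sq u v hD.ne'
    have hm0 := h.mlo
    have hm1 := h.mhi
    have hcm : ‖cc u v‖ ^ 2 = 2 - 2 * mm u v := by unfold mm; ring
    have hlam : 0 < (‖v‖ ^ 2 - (inner ℝ u v : ℝ)) / Dt u v :=
      div_pos (by linarith [h.vlo, h.phi]) hD
    have hmu : 0 < (‖u‖ ^ 2 - (inner ℝ u v : ℝ)) / Dt u v :=
      div_pos (by linarith [h.ulo, h.phi]) hD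
    have htau : 2 - 2 * mm u v ≤ (inner ℝ (cc u v) y : ℝ) := by
      rw [← hcm, hcn, cc_inner]
      have e : (‖u‖ ^ 2 + ‖v‖ ^ 2 - 2 * (inner ℝ u v : ℝ)) / Dt u v =
          (‖v‖ ^ 2 - (inner ℝ u v : ℝ)) / Dt u v + (‖u‖ ^ 2 - (inner ℝ u v : ℝ)) / Dt u v := by
        rw [← add_div]; ring
      rw [e]
      nlinarith
    have hq : (inner ℝ (cc u v) y : ℝ) ^ 2 ≤ (2 - 2 * mm u v) * ‖y - pe u v y‖ ^ 2 := by
      have e1 : (inner ℝ (cc u v) y : ℝ) = inner ℝ (cc u v) (y - pe u v y) := by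
        rw [inner_sub_right, cc_pe u v y hD.ne', sub_zero]
      rw [e1, ← hcm, ← mul_pow]
      have h6 := abs_real_inner_le_norm (cc u v) (y - pe u v y)
      rw [← sq_abs]
      exact pow_le_pow_left₀ (abs_nonneg _) h6 2
    have hk : Real.sqrt ((1 + mm u v) / 2) ^ 2 = (1 + mm u v) / 2 :=
      Real.sq_sqrt (by linarith)
    have e2 : 2 * ((1 - (inner ℝ (cc u v) y : ℝ) / 2) / Real.sqrt ((1 + mm u v) / 2)) ^ 2 =
        (2 - (inner ℝ (cc u v) y : ℝ)) ^ 2 / (1 + mm u v) := by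
      rw [div_pow, hk]
      have : (1 + mm u v) ≠ 0 := by linarith
      field_simp
    rw [e2]
    exact rad_core _ _ _ hm0 hm1 htau hq
  pos := by
    intro u v y h hy
    have hm0 := h.mlo
    have hm1 := h.mhi
    have hcm : ‖cc u v‖ ^ 2 = 2 - 2 * mm u v := by unfold mm; ring
    have h1 := real_inner_le_norm (cc u v) y
    have h2 : (‖cc u v‖ * ‖y‖) ^ 2 < 2 ^ 2 := by
      rw [mul_pow, hcm]
      nlinarith [sq_nonneg ‖y‖]
    have h3 : ‖cc u v‖ * ‖y‖ < 2 := lt_of_pow_lt_pow_left₀ 2 (by norm_num) h2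
    apply div_pos
    · linarith
    · exact Real.sqrt_pos.mpr (by linarith)

end Pool.Agent.Lib.MP_f1379f_gt.FV
end

section
set_option autoImplicit false

namespace Pool.Agent.Lib.MP_f1379f_gt.FV

open MeasureTheory

namespace LKVM

open LKPM

theorem keyK (a b p D lam mu m : ℝ) (hD : 0 < D) (hDe : D = a * b - p ^ 2) (hp : p ≤ 1 / 2)
    (hlam : lam = (b - p) / D) (hmu : mu = (a - p) / D)
    (hm : m = 1 - (lam + mu) / 2) : 2 * m * p / D ≤ lam * mu := by
  have e1 : lam * mu / 2 - m * p / D = (1 - 2 * p) / (2 * D) := by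
    rw [hm, hlam, hmu]
    have hDne : D ≠ 0 := hD.ne'
    field_simp
    rw [hDe]
    ring
  have e2 : 0 ≤ (1 - 2 * p) / (2 * D) := div_nonneg (by linarith) (by linarith)
  have e3 : 2 * m * p / D = 2 * (m * p / D) := by ring
  rw [e3]
  linarith

/-- The data of a link vector. -/
theorem data (u v w : E) (h : RP u v) (hw : LW u v w) :
    ∃ s t : ℝ, 0 ≤ s ∧ 0 ≤ t ∧ (inner ℝ u w : ℝ) = 1 / 2 - s ∧ (inner ℝ v w : ℝ) = 1 / 2 - t ∧
      1 - (inner ℝ (cc u v) w : ℝ) = mm u v +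
        ((‖v‖ ^ 2 - (inner ℝ u v : ℝ)) / Dt u v * s + (‖u‖ ^ 2 - (inner ℝ u v : ℝ)) / Dt u v * t) := by
  have hD := h.D
  have hcn := cc_norm_sq u v hD.ne'
  have hwu : (inner ℝ u w : ℝ) = inner ℝ w u := real_inner_comm _ _
  have hwv : (inner ℝ v w : ℝ) = inner ℝ w v := real_inner_comm _ _
  refine ⟨1 / 2 - (inner ℝ w u : ℝ), 1 / 2 - (inner ℝ w v : ℝ), by linarith [hw.wu],
    by linarith [hw.wv], by rw [hwu]; ring, by rw [hwv]; ring, ?_⟩
  unfold mm
  rw [hcn, cc_inner, hwu, hwv]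
  have hDne := hD.ne'
  field_simp
  ring

theorem pe_pe (u v w w' : E) (hD : Dt u v ≠ 0) :
    (inner ℝ (pe u v w) (pe u v w') : ℝ) = inner ℝ w w' -
      (‖v‖ ^ 2 * (inner ℝ u w : ℝ) * (inner ℝ u w' : ℝ) -
        (inner ℝ u v : ℝ) * ((inner ℝ u w : ℝ) * (inner ℝ v w' : ℝ) +
          (inner ℝ v w : ℝ) * (inner ℝ u w' : ℝ)) +
        ‖u‖ ^ 2 * (inner ℝ v w : ℝ) * (inner ℝ v w' : ℝ)) / Dt u v := by
  have h1 : (inner ℝ (pe u v w) (pe u v w') : ℝ) = inner ℝ (pe u v w) w' := by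
    have hu := pe_u u v w hD
    have hv := pe_v u v w hD
    conv_lhs => rw [pe.eq_1 u v w']
    rw [inner_sub_right, inner_sub_right, inner_smul_right, inner_smul_right, hu, hv]
    ring
  rw [h1, pe_inner]
  field_simp
  ring

/-- The projected inner product in the variables `s, t`. -/
theorem quad (a b p D lam mu m s t s' t' : ℝ) (hD : 0 < D)
    (hlam : lam = (b - p) / D) (hmu : mu = (a - p) / D)
    (hm : m = 1 - (lam + mu) / 2) :
    (b * (1 / 2 - s) * (1 / 2 - s') - p * ((1 / 2 - s) * (1 / 2 - t') +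
      (1 / 2 - t) * (1 / 2 - s')) + a * (1 / 2 - t) * (1 / 2 - t')) / D =
    (1 - m) / 2 - ((lam * s + mu * t) + (lam * s' + mu * t')) / 2 +
      (b * s * s' - p * (s * t' + t * s') + a * t * t') / D := by
  rw [hm, hlam, hmu]
  have hDne := hD.ne'
  field_simp
  ring

theorem pw_pw (u v w w' : E) (h : RP u v) :
    (inner ℝ (pw u v w) (pw u v w') : ℝ) = 2 * mm u v ^ 2 / ((1 + mm u v) *
      ((1 - (inner ℝ (cc u v) w : ℝ)) * (1 - (inner ℝ (cc u v) w' : ℝ)))) *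
        inner ℝ (pe u v w) (pe u v w') := by
  have hm0 := h.mlo
  unfold pw
  rw [inner_smul_left, inner_smul_right, RCLike.conj_to_real, ← mul_assoc]
  congr 1
  have hk : Real.sqrt ((1 + mm u v) / 2) * Real.sqrt ((1 + mm u v) / 2) = (1 + mm u v) / 2 :=
    Real.mul_self_sqrt (by linarith)
  generalize Real.sqrt ((1 + mm u v) / 2) = k at hk
  rw [div_mul_div_comm]
  have e : k * (1 - (inner ℝ (cc u v) w : ℝ)) * (k * (1 - (inner ℝ (cc u v) w' : ℝ))) =
      (1 + mm u v) / 2 * ((1 - (inner ℝ (cc u v) w : ℝ)) * (1 - (inner ℝ (cc u v) w' : ℝ))) := by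
    rw [← hk]; ring
  rw [e]
  have h1 : (1 + mm u v) ≠ 0 := by linarith
  rw [div_mul_eq_mul_div, div_div_eq_mul_div]
  ring

end LKVM

open LKPM LKVM

theorem specLKV : SpecLKV where
  le := by
    intro u v w h hw
    have hD := h.D
    have hcn := cc_norm_sq u v hD.ne'
    obtain ⟨s, t, hs, ht, hu, hv, hc⟩ := data u v w h hw
    have hpp := pw_pw u v w w h
    rw [pe_pe u v w w hD.ne', hc, hu, hv] at hpp
    have hpos : 0 < Dt u v := hD
    have hm1 : mm u v = 1 - ((‖v‖ ^ 2 - (inner ℝ u v : ℝ)) / Dt u v +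
        (‖u‖ ^ 2 - (inner ℝ u v : ℝ)) / Dt u v) / 2 := by
      unfold mm
      rw [hcn, ← add_div]
      ring
    rw [quad (‖u‖ ^ 2) (‖v‖ ^ 2) (inner ℝ u v : ℝ) (Dt u v) _ _ (mm u v) s t s t hD rfl rfl hm1]
      at hpp
    have hlam0 : 0 < (‖v‖ ^ 2 - (inner ℝ u v : ℝ)) / Dt u v :=
      div_pos (by linarith [h.vlo, h.phi]) hD
    have hmu0 : 0 < (‖u‖ ^ 2 - (inner ℝ u v : ℝ)) / Dt u v :=
      div_pos (by linarith [h.ulo, h.phi]) hD
    have hm0 : 0 < mm u v := by linarith [h.mlo]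
    have hX : 0 ≤ (‖v‖ ^ 2 * s * s - (inner ℝ u v : ℝ) * (s * t + t * s) + ‖u‖ ^ 2 * t * t) /
        Dt u v := by
      apply div_nonneg _ hD.le
      have hb : 0 < ‖v‖ ^ 2 := by linarith [h.vlo]
      have hDe : Dt u v = ‖u‖ ^ 2 * ‖v‖ ^ 2 - (inner ℝ u v : ℝ) ^ 2 := rfl
      have h1 : 0 ≤ ‖v‖ ^ 2 * (‖v‖ ^ 2 * s * s - (inner ℝ u v : ℝ) * (s * t + t * s) +
          ‖u‖ ^ 2 * t * t) := by
        have e : ‖v‖ ^ 2 * (‖v‖ ^ 2 * s * s - (inner ℝ u v : ℝ) * (s * t + t * s) +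
          ‖u‖ ^ 2 * t * t) = (‖v‖ ^ 2 * s - (inner ℝ u v : ℝ) * t) ^ 2 + Dt u v * t ^ 2 := by
          rw [hDe]; ring
        rw [e]
        positivity
      exact nonneg_of_mul_nonneg_right h1 hb
    have hw2 : (inner ℝ w w : ℝ) ≤ 1 := by
      rw [real_inner_self_eq_norm_sq]
      have := hw.nrm
      have h0 := norm_nonneg w
      nlinarith
    generalize hXX : (‖v‖ ^ 2 * s * s - (inner ℝ u v : ℝ) * (s * t + t * s) + ‖u‖ ^ 2 * t * t) /
        Dt u v = X at hX hpp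
    generalize hL : (‖v‖ ^ 2 - (inner ℝ u v : ℝ)) / Dt u v * s +
      (‖u‖ ^ 2 - (inner ℝ u v : ℝ)) / Dt u v * t = L at hc hpp
    have hL0 : 0 ≤ L := by
      rw [← hL]
      exact add_nonneg (mul_nonneg hlam0.le hs) (mul_nonneg hmu0.le ht)
    generalize mm u v = m at hm0 hc hpp
    refine ⟨by linarith, ?_⟩
    have h2 : (inner ℝ (pw u v w) (pw u v w) : ℝ) ≤ 1 := by
      rw [hpp]
      have hden : 0 < (1 + m) * ((m + L) * (m + L)) := by positivity
      rw [div_mul_eq_mul_div, div_le_one hden]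
      have h3 : (inner ℝ w w : ℝ) - ((1 - m) / 2 - (L + L) / 2 + X) ≤ (1 + m) / 2 + L := by
        linarith
      have h4 := mul_le_mul_of_nonneg_left h3 (show 0 ≤ 2 * m ^ 2 by positivity)
      nlinarith [mul_nonneg hm0.le hL0, mul_nonneg (mul_nonneg hm0.le hL0) hL0, sq_nonneg L]
    rw [real_inner_self_eq_norm_sq] at h2
    have h0 := norm_nonneg (pw u v w)
    nlinarith
  code := by
    intro u v w w' h hw hw' hww
    have hD := h.D
    have hcn := cc_norm_sq u v hD.ne'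
    obtain ⟨s, t, hs, ht, hu, hv, hc⟩ := data u v w h hw
    obtain ⟨s', t', hs', ht', hu', hv', hc'⟩ := data u v w' h hw'
    have hpp := pw_pw u v w w' h
    rw [pe_pe u v w w' hD.ne', hc, hu, hv, hc', hu', hv'] at hpp
    have hm1 : mm u v = 1 - ((‖v‖ ^ 2 - (inner ℝ u v : ℝ)) / Dt u v +
        (‖u‖ ^ 2 - (inner ℝ u v : ℝ)) / Dt u v) / 2 := by
      unfold mm
      rw [hcn, ← add_div]
      ring
    have hK := keyK (‖u‖ ^ 2) (‖v‖ ^ 2) (inner ℝ u v : ℝ) (Dt u v) _ _ (mm u v) hD rfl h.phi rfl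
      rfl hm1
    rw [quad (‖u‖ ^ 2) (‖v‖ ^ 2) (inner ℝ u v : ℝ) (Dt u v) _ _ (mm u v) s t s' t' hD rfl rfl hm1]
      at hpp
    have hlam0 : 0 < (‖v‖ ^ 2 - (inner ℝ u v : ℝ)) / Dt u v :=
      div_pos (by linarith [h.vlo, h.phi]) hD
    have hmu0 : 0 < (‖u‖ ^ 2 - (inner ℝ u v : ℝ)) / Dt u v :=
      div_pos (by linarith [h.ulo, h.phi]) hD
    have hm0 : 0 < mm u v := by linarith [h.mlo]
    have hm3 : mm u v ≤ 1 / 3 := h.mhi
    have hX : -(2 * mm u v * ((‖v‖ ^ 2 * s * s' - (inner ℝ u v : ℝ) * (s * t' + t * s') +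
        ‖u‖ ^ 2 * t * t') / Dt u v)) ≤
        ((‖v‖ ^ 2 - (inner ℝ u v : ℝ)) / Dt u v * s +
          (‖u‖ ^ 2 - (inner ℝ u v : ℝ)) / Dt u v * t) *
        ((‖v‖ ^ 2 - (inner ℝ u v : ℝ)) / Dt u v * s' +
          (‖u‖ ^ 2 - (inner ℝ u v : ℝ)) / Dt u v * t') := by
      have e1 : -(2 * mm u v * ((‖v‖ ^ 2 * s * s' - (inner ℝ u v : ℝ) * (s * t' + t * s') +
          ‖u‖ ^ 2 * t * t') / Dt u v)) = 2 * mm u v * (inner ℝ u v : ℝ) / Dt u v *
            (s * t' + t * s') - 2 * mm u v * (‖v‖ ^ 2 / Dt u v) * (s * s') -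
            2 * mm u v * (‖u‖ ^ 2 / Dt u v) * (t * t') := by ring
      rw [e1]
      have h1 : 0 ≤ s * t' + t * s' := by positivity
      have h2 := mul_le_mul_of_nonneg_right hK h1
      have h3 : 0 ≤ 2 * mm u v * (‖v‖ ^ 2 / Dt u v) * (s * s') := by positivity
      have h4 : 0 ≤ 2 * mm u v * (‖u‖ ^ 2 / Dt u v) * (t * t') := by positivity
      generalize (‖v‖ ^ 2 - (inner ℝ u v : ℝ)) / Dt u v = lam at *
      generalize (‖u‖ ^ 2 - (inner ℝ u v : ℝ)) / Dt u v = mu at *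
      have h5 : 0 ≤ lam * s * (lam * s') := by positivity
      have h6 : 0 ≤ mu * t * (mu * t') := by positivity
      nlinarith
    generalize hXX : (‖v‖ ^ 2 * s * s' - (inner ℝ u v : ℝ) * (s * t' + t * s') +
      ‖u‖ ^ 2 * t * t') / Dt u v = X at hX hpp
    generalize hL : (‖v‖ ^ 2 - (inner ℝ u v : ℝ)) / Dt u v * s +
      (‖u‖ ^ 2 - (inner ℝ u v : ℝ)) / Dt u v * t = L at hc hpp hX
    generalize hL' : (‖v‖ ^ 2 - (inner ℝ u v : ℝ)) / Dt u v * s' +
      (‖u‖ ^ 2 - (inner ℝ u v : ℝ)) / Dt u v * t' = L' at hc' hpp hX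
    have hL0 : 0 ≤ L := by
      rw [← hL]
      exact add_nonneg (mul_nonneg hlam0.le hs) (mul_nonneg hmu0.le ht)
    have hL0' : 0 ≤ L' := by
      rw [← hL']
      exact add_nonneg (mul_nonneg hlam0.le hs') (mul_nonneg hmu0.le ht')
    generalize mm u v = m at hm0 hc hc' hpp hX hm3
    rw [hpp]
    have hden : 0 < (1 + m) * ((m + L) * (m + L')) := by positivity
    rw [div_mul_eq_mul_div, div_le_iff₀ hden]
    have h3 : (inner ℝ w w' : ℝ) - ((1 - m) / 2 - (L + L') / 2 + X) ≤ (m + L + L') / 2 - X := by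
      linarith
    have h4 := mul_le_mul_of_nonneg_left h3 (show 0 ≤ 2 * m ^ 2 by positivity)
    have h5 : 2 * m ^ 2 * ((m + L + L') / 2 - X) ≤ m * ((m + L) * (m + L')) := by
      have e : 2 * m ^ 2 * ((m + L + L') / 2 - X) = m * (m * (m + L + L') + -(2 * m * X)) := by
        ring
      rw [e]
      apply mul_le_mul_of_nonneg_left _ hm0.le
      nlinarith
    have h6 : m * ((m + L) * (m + L')) ≤ 1 / 4 * ((1 + m) * ((m + L) * (m + L'))) := by
      have h7 : 0 ≤ (m + L) * (m + L') := by positivity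
      nlinarith
    linarith
  orth := by
    intro u v w h
    have hD := h.D.ne'
    unfold pw
    rw [inner_smul_left, inner_smul_left, pe_u u v w hD, pe_v u v w hD]
    simp

end Pool.Agent.Lib.MP_f1379f_gt.FV
end

section
/-!
# MP_f1379f_gt, full Q1, module LNK: the link bound
-/
set_option autoImplicit false

namespace Pool.Agent.Lib.MP_f1379f_gt.FV

open MeasureTheory

namespace LNKM

/-- Two different points of an admissible configuration have inner product at most `1/2`. -/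
lemma adm_half {U : Finset E} (hU : Adm U) {w u : E} (hw : w ∈ U) (hu : u ∈ U) (hne : w ≠ u) :
    (inner ℝ w u : ℝ) ≤ 1 / 2 := by
  have h1 := hU.sep w hw u hu hne
  have h2 := hU.le_one w hw
  have h3 := hU.le_one u hu
  have h4 : ‖w‖ ^ 2 ≤ 1 := by
    have := norm_nonneg w
    nlinarith
  have h5 : ‖u‖ ^ 2 ≤ 1 := by
    have := norm_nonneg u
    nlinarith
  nlinarith

/-- An orthonormal system of six vectors orthogonal to `u` and `v` which spans the orthogonal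
complement, as an isometry. -/
lemma exists_iso (u v : E) (hD : 0 < Dt u v) :
    ∃ (f : E → E6) (n : E), ‖n‖ = 1 ∧ (inner ℝ n u : ℝ) = 0 ∧ (inner ℝ n v : ℝ) = 0 ∧
      ∀ x y : E, ((inner ℝ x u : ℝ) = 0 ∧ (inner ℝ x v : ℝ) = 0) →
        ((inner ℝ y u : ℝ) = 0 ∧ (inner ℝ y v : ℝ) = 0) →
        (inner ℝ (f x) (f y) : ℝ) = inner ℝ x y := by
  classical
  have hli : LinearIndependent ℝ ![u, v] := by
    rw [LinearIndependent.pair_iff]
    intro s t hst
    have h1 : s * ‖u‖ ^ 2 + t * (inner ℝ u v : ℝ) = 0 := by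
      have := congrArg (fun z => (inner ℝ u z : ℝ)) hst
      simp only [inner_add_right, inner_smul_right, inner_zero_right,
        real_inner_self_eq_norm_sq] at this
      exact this
    have h2 : s * (inner ℝ u v : ℝ) + t * ‖v‖ ^ 2 = 0 := by
      have := congrArg (fun z => (inner ℝ v z : ℝ)) hst
      simp only [inner_add_right, inner_smul_right, inner_zero_right,
        real_inner_self_eq_norm_sq] at this
      rw [real_inner_comm u v] at this
      exact this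
    have h3 : s * Dt u v = 0 := by
      unfold Dt
      linear_combination ‖v‖ ^ 2 * h1 - (inner ℝ u v : ℝ) * h2
    have h4 : t * Dt u v = 0 := by
      unfold Dt
      linear_combination ‖u‖ ^ 2 * h2 - (inner ℝ u v : ℝ) * h1
    exact ⟨(mul_eq_zero.mp h3).resolve_right hD.ne', (mul_eq_zero.mp h4).resolve_right hD.ne'⟩
  set K : Submodule ℝ E := Submodule.span ℝ (Set.range ![u, v]) with hK
  have hfK : Module.finrank ℝ K = 2 := by
    rw [hK, finrank_span_eq_card hli]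
    rfl
  have hf : Module.finrank ℝ Kᗮ = 6 := by
    have h1 := Submodule.finrank_add_finrank_orthogonal K
    rw [hfK, finrank_euclideanSpace, Fintype.card_fin] at h1
    omega
  let b : OrthonormalBasis (Fin 6) ℝ Kᗮ := (stdOrthonormalBasis ℝ Kᗮ).reindex (finCongr hf)
  have hu : u ∈ K := Submodule.subset_span ⟨0, rfl⟩
  have hv : v ∈ K := Submodule.subset_span ⟨1, rfl⟩
  have hmem : ∀ x : E, ((inner ℝ x u : ℝ) = 0 ∧ (inner ℝ x v : ℝ) = 0) → x ∈ Kᗮ := by
    rintro x ⟨h1, h2⟩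
    rw [Submodule.mem_orthogonal']
    intro y hy
    rw [hK] at hy
    induction hy using Submodule.span_induction with
    | mem z hz =>
      obtain ⟨i, rfl⟩ := hz
      fin_cases i
      · exact h1
      · exact h2
    | zero => exact inner_zero_right _
    | add y z _ _ h3 h4 => rw [inner_add_right, h3, h4, add_zero]
    | smul a y _ h3 => rw [inner_smul_right, h3, mul_zero]
  refine ⟨fun x => if h : x ∈ Kᗮ then b.repr ⟨x, h⟩ else 0, (b 0 : E), ?_, ?_, ?_, ?_⟩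
  · have := b.orthonormal.1 0
    rw [← this]
    rfl
  · exact (Submodule.mem_orthogonal' K _).mp (b 0).2 u hu
  · exact (Submodule.mem_orthogonal' K _).mp (b 0).2 v hv
  · intro x y hx hy
    simp only [dif_pos (hmem x hx), dif_pos (hmem y hy)]
    rw [LinearIsometryEquiv.inner_map_map]
    rfl

end LNKM

open LNKM in
/-- The link bound, for every pair of every configuration. -/
theorem specLNK (hRPR : SpecRPR) (hLKV : SpecLKV) (hLKS : SpecLKS) (hMCP : SpecMCP)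
    (hS27 : SpecS27) : SpecLNK := by
  intro U hU u hu v hv huv
  have hs3 : 0 ≤ s3 := ENNReal.toReal_nonneg
  by_cases hne : (cap u ∩ cap v).Nonempty
  · have hRP : RP u v := hRPR u v (hU.le_one u hu) (hU.le_one v hv) (hU.sep u hu v hv huv) hne
    obtain ⟨f, n, hn, hnu, hnv, hf⟩ := exists_iso u v hRP.D
    have hmemU : ∀ w ∈ (U.erase u).erase v, w ∈ U ∧ w ≠ u ∧ w ≠ v := by
      intro w hw
      have h1 := Finset.mem_erase.mp hw
      have h2 := Finset.mem_erase.mp h1.2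
      exact ⟨h2.2, h2.1, h1.1⟩
    have hLW : ∀ w ∈ (U.erase u).erase v, LW u v w := by
      intro w hw
      obtain ⟨h1, h2, h3⟩ := hmemU w hw
      exact ⟨hU.le_one w h1, adm_half hU h1 hu h2, adm_half hU h1 hv h3⟩
    have hin : ∀ w w', (inner ℝ (f (pw u v w)) (f (pw u v w')) : ℝ) =
        inner ℝ (pw u v w) (pw u v w') :=
      fun w w' => hf _ _ (hLKV.orth u v w hRP) (hLKV.orth u v w' hRP)
    have hnorm : ∀ w, ‖f (pw u v w)‖ = ‖pw u v w‖ := by
      intro w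
      have h1 := hin w w
      rw [real_inner_self_eq_norm_sq, real_inner_self_eq_norm_sq] at h1
      have h2 := norm_nonneg (f (pw u v w))
      have h3 := norm_nonneg (pw u v w)
      nlinarith [sq_nonneg (‖f (pw u v w)‖ - ‖pw u v w‖), sq_nonneg (‖f (pw u v w)‖ + ‖pw u v w‖)]
    have h27 := hS27 E ((U.erase u).erase v) (fun w => f (pw u v w))
      (fun w hw => by
        simp only [hnorm]
        exact (hLKV.le u v w hRP (hLW w hw)).2)
      (fun w hw w' hw' hww => by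
        simp only [hin]
        exact hLKV.code u v w w' hRP (hLW w hw) (hLW w' hw')
          (adm_half hU (hmemU w hw).1 (hmemU w' hw').1 hww))
    simp only [hnorm] at h27
    have hterm : ∀ w ∈ (U.erase u).erase v, v3 u v w ≤ sig (1 - ‖pw u v w‖ ^ 2) * s3 := by
      intro w hw
      refine (hLKS u v w n hRP (hLW w hw) hn hnu hnv).trans ?_
      apply mul_le_mul_of_nonneg_left (hMCP u v n hRP hn hnu hnv)
      unfold sig
      positivity
    refine (Finset.sum_le_sum hterm).trans ?_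
    rw [← Finset.sum_mul]
    exact mul_le_mul_of_nonneg_right h27 hs3
  · rw [Set.not_nonempty_iff_eq_empty] at hne
    have h0 : ∀ w ∈ (U.erase u).erase v, v3 u v w = 0 := by
      intro w _
      unfold v3
      rw [hne, Set.empty_inter, measure_empty, ENNReal.toReal_zero]
    rw [Finset.sum_eq_zero h0]
    linarith

end Pool.Agent.Lib.MP_f1379f_gt.FV
end

section
/-!
# MP_f1379f_gt, full Q1, block A: MCP, the virtual triple volume is largest for contact pairs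
-/
set_option autoImplicit false

namespace Pool.Agent.Lib.MP_f1379f_gt.FV

open MeasureTheory

namespace MCPM

/-- The determinant comparison. -/
lemma detc (X d1 d2 k : ℝ) (hX : X = d1 + d2) (h1 : 0 ≤ d1) (h2 : 0 ≤ d2) (h1' : d1 ≤ 2 / 5)
    (h2' : d2 ≤ 2 / 5) (hk : 0 ≤ k) (hk' : k ≤ 1 / 2) :
    (1 - 24 / 25 * X) ^ 5 ≤ 1 - 3 / 2 * X + k + 2 * (d1 * d2 - k ^ 2) := by
  have hk2 : 0 ≤ k - 2 * k ^ 2 := by
    have h := mul_nonneg hk (sub_nonneg.2 hk')
    linarith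
  have hX0 : 0 ≤ X := by linarith
  have hX1 : X ≤ 4 / 5 := by linarith
  have hd : 0 ≤ d1 * d2 := mul_nonneg h1 h2
  have hy0 : 0 ≤ 1 - 24 / 25 * X := by linarith
  have hy1 : 1 - 24 / 25 * X ≤ 1 := by linarith
  rcases le_or_gt X (2 / 5) with h | h
  · have e : (1 - 24 / 25 * X) ^ 5 ≤ (1 - 24 / 25 * X) ^ 2 :=
      pow_le_pow_of_le_one hy0 hy1 (by norm_num)
    have e1 := mul_nonneg hX0 (sub_nonneg.2 h)
    linarith
  · have e : (1 - 24 / 25 * X) ^ 5 ≤ (77 / 125) ^ 5 :=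
      pow_le_pow_left₀ hy0 (by linarith) 5
    have e2 : ((77 : ℝ) / 125) ^ 5 ≤ 12 / 100 := by norm_num
    have e3 : 0 ≤ (2 / 5 - d1) * (2 / 5 - d2) := mul_nonneg (by linarith) (by linarith)
    linarith

/-- The scalar core. -/
lemma core (a b p : ℝ)
    (hQ : ∀ c0 c1 c2 : ℝ, 0 ≤ a * c0 ^ 2 + b * c1 ^ 2 + c2 ^ 2 + 2 * p * c0 * c1 + c0 * c2
      + c1 * c2)
    (ha : a ≤ 1) (hb : b ≤ 1) (ha' : 3 / 5 ≤ a) (hb' : 3 / 5 ≤ b) (hp : p ≤ 1 / 2) (hp' : 0 ≤ p)
    (z0 z1 z2 x0 x1 x2 : ℝ) (e0 : a * x0 + p * x1 + 1 / 2 * x2 = z0)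
    (e1 : p * x0 + b * x1 + 1 / 2 * x2 = z1) (e2 : 1 / 2 * x0 + 1 / 2 * x1 + x2 = z2)
    (h0 : 1 < z0) (h1 : 1 < z1) (h2 : 1 < z2)
    (hP : 0 < 5 / 3 - (z0 * x0 + z1 * x1 + z2 * x2)) :
    0 ≤ 5 / 3 - (2 * (z0 ^ 2 + z1 ^ 2 + z2 ^ 2) - (z0 + z1 + z2) ^ 2 / 2) ∧
    (5 / 3 - (z0 * x0 + z1 * x1 + z2 * x2)) ^ 5 * (1 / 2) ≤
      (5 / 3 - (2 * (z0 ^ 2 + z1 ^ 2 + z2 ^ 2) - (z0 + z1 + z2) ^ 2 / 2)) ^ 5 *
        (a * b - a / 4 - b / 4 - p ^ 2 + p / 2) := by
  obtain ⟨q, hq⟩ : ∃ t, t = z0 * x0 + z1 * x1 + z2 * x2 := ⟨_, rfl⟩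
  rw [← hq] at hP ⊢
  obtain ⟨T, hT⟩ : ∃ t, t = z0 + z1 + z2 := ⟨_, rfl⟩
  rw [← hT]
  have hT3 : 3 < T := by linarith
  -- Cauchy-Schwarz
  have hT2 : T ^ 2 ≤ 6 * q := by
    have h := hQ (x0 - T / 6) (x1 - T / 6) (x2 - T / 6)
    have e : a * (x0 - T / 6) ^ 2 + b * (x1 - T / 6) ^ 2 + (x2 - T / 6) ^ 2 +
        2 * p * (x0 - T / 6) * (x1 - T / 6) + (x0 - T / 6) * (x2 - T / 6)
        + (x1 - T / 6) * (x2 - T / 6) = q - T / 3 * T + (T / 6) ^ 2 * (a + b + 2 * p + 3) := by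
      rw [hq, hT, ← e0, ← e1, ← e2]
      ring
    rw [e] at h
    have h3 : (T / 6) ^ 2 * (a + b + 2 * p + 3) ≤ (T / 6) ^ 2 * 6 :=
      mul_le_mul_of_nonneg_left (by linarith) (sq_nonneg _)
    linarith
  have hT4 : T < 3 + 1 / 5 := by
    by_contra hc
    have h4 : (3 + 1 / 5 : ℝ) ^ 2 ≤ T ^ 2 := pow_le_pow_left₀ (by norm_num) (not_lt.1 hc) 2
    norm_num at h4
    linarith
  obtain ⟨y0, hy0⟩ : ∃ t, t = 2 * z0 - T / 2 := ⟨_, rfl⟩
  obtain ⟨y1, hy1⟩ : ∃ t, t = 2 * z1 - T / 2 := ⟨_, rfl⟩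
  obtain ⟨y2, hy2⟩ : ∃ t, t = 2 * z2 - T / 2 := ⟨_, rfl⟩
  have hy0' : 2 / 5 ≤ y0 := by linarith
  have hy1' : 2 / 5 ≤ y1 := by linarith
  obtain ⟨d1, hd1⟩ : ∃ t, t = 1 - a := ⟨_, rfl⟩
  obtain ⟨d2, hd2⟩ : ∃ t, t = 1 - b := ⟨_, rfl⟩
  obtain ⟨k, hk⟩ : ∃ t, t = 1 / 2 - p := ⟨_, rfl⟩
  have hd10 : 0 ≤ d1 := by linarith
  have hd20 : 0 ≤ d2 := by linarith
  have hk0 : 0 ≤ k := by linarith
  obtain ⟨q0, hq0⟩ : ∃ t, t = 2 * (z0 ^ 2 + z1 ^ 2 + z2 ^ 2) - T ^ 2 / 2 := ⟨_, rfl⟩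
  rw [← hq0]
  obtain ⟨E', hE⟩ : ∃ t, t = d1 * y0 ^ 2 + d2 * y1 ^ 2 + 2 * k * (y0 * y1) := ⟨_, rfl⟩
  -- complete the square
  have hqq : q0 + E' ≤ q := by
    have h := hQ (x0 - y0) (x1 - y1) (x2 - y2)
    have e : a * (x0 - y0) ^ 2 + b * (x1 - y1) ^ 2 + (x2 - y2) ^ 2 +
        2 * p * (x0 - y0) * (x1 - y1) + (x0 - y0) * (x2 - y2)
        + (x1 - y1) * (x2 - y2) = q - 2 * (z0 * y0 + z1 * y1 + z2 * y2) +
        (a * y0 ^ 2 + b * y1 ^ 2 + y2 ^ 2 + 2 * p * y0 * y1 + y0 * y2 + y1 * y2) := by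
      rw [hq, ← e0, ← e1, ← e2]
      ring
    have e' : 2 * (z0 * y0 + z1 * y1 + z2 * y2) -
        (a * y0 ^ 2 + b * y1 ^ 2 + y2 ^ 2 + 2 * p * y0 * y1 + y0 * y2 + y1 * y2) = q0 + E' := by
      simp only [hE, hd1, hd2, hk, hq0, hy0, hy1, hy2, hT]
      ring
    linarith
  have hEl : 4 / 25 * (d1 + d2 + 2 * k) ≤ E' := by
    have f1 : (4 / 25 : ℝ) ≤ y0 ^ 2 := by
      have h := pow_le_pow_left₀ (by norm_num : (0 : ℝ) ≤ 2 / 5) hy0' 2
      norm_num at h
      exact h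
    have f2 : (4 / 25 : ℝ) ≤ y1 ^ 2 := by
      have h := pow_le_pow_left₀ (by norm_num : (0 : ℝ) ≤ 2 / 5) hy1' 2
      norm_num at h
      exact h
    have f3 : (4 / 25 : ℝ) ≤ y0 * y1 := by
      have h := mul_le_mul hy0' hy1' (by norm_num) (by linarith)
      norm_num at h
      exact h
    have g1 := mul_le_mul_of_nonneg_left f1 hd10
    have g2 := mul_le_mul_of_nonneg_left f2 hd20
    have g3 := mul_le_mul_of_nonneg_left f3 hk0
    simp only [hE]
    linarith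
  have hE0 : 0 ≤ E' := le_trans (by positivity) hEl
  have hq0l : 3 / 2 ≤ q0 := by
    have i1 : 0 ≤ (z0 - z1) ^ 2 + (z0 - z2) ^ 2 + (z1 - z2) ^ 2 := by positivity
    have i2 : T ^ 2 ≤ 3 * (z0 ^ 2 + z1 ^ 2 + z2 ^ 2) := by
      have i4 : 3 * (z0 ^ 2 + z1 ^ 2 + z2 ^ 2) - T ^ 2 =
        (z0 - z1) ^ 2 + (z0 - z2) ^ 2 + (z1 - z2) ^ 2 := by
        rw [hT]
        ring
      linarith
    have i3 : 9 ≤ T ^ 2 := by
      have h := pow_le_pow_left₀ (by norm_num : (0 : ℝ) ≤ 3) hT3.le 2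
      norm_num at h
      exact h
    simp only [hq0]
    linarith
  have hP0 : 0 < 5 / 3 - q0 := by linarith
  refine ⟨hP0.le, ?_⟩
  have hX : 24 / 25 * (d1 + d2) ≤ 6 * E' := by linarith
  have hPP : 5 / 3 - q ≤ (5 / 3 - q0) * (1 - 24 / 25 * (d1 + d2)) := by
    have j1 : (5 / 3 - q0) * (6 * E') ≤ E' := by
      have h : (5 / 3 - q0) * 6 ≤ 1 := by linarith
      have h' := mul_le_mul_of_nonneg_right h hE0
      linarith
    have j2 : (5 / 3 - q0) * (24 / 25 * (d1 + d2)) ≤ (5 / 3 - q0) * (6 * E') :=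
      mul_le_mul_of_nonneg_left hX hP0.le
    linarith
  have hdet := detc (d1 + d2) d1 d2 k rfl hd10 hd20 (by linarith) (by linarith) hk0 (by linarith)
  have hfin : (5 / 3 - q) ^ 5 ≤ (5 / 3 - q0) ^ 5 *
      (1 - 3 / 2 * (d1 + d2) + k + 2 * (d1 * d2 - k ^ 2)) := by
    calc (5 / 3 - q) ^ 5 ≤ ((5 / 3 - q0) * (1 - 24 / 25 * (d1 + d2))) ^ 5 :=
          pow_le_pow_left₀ hP.le hPP 5
      _ = (5 / 3 - q0) ^ 5 * (1 - 24 / 25 * (d1 + d2)) ^ 5 := by ring
      _ ≤ _ := mul_le_mul_of_nonneg_left hdet (by positivity)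
  have edet : a * b - a / 4 - b / 4 - p ^ 2 + p / 2 =
      (1 - 3 / 2 * (d1 + d2) + k + 2 * (d1 * d2 - k ^ 2)) * (1 / 2) := by
    simp only [hd1, hd2, hk]
    ring
  rw [edet, ← mul_assoc]
  exact mul_le_mul_of_nonneg_right hfin (by norm_num)

/-- The Gram matrix. -/
noncomputable def Gm (u v w : E) : Matrix (Fin 3) (Fin 3) ℝ :=
  Matrix.of fun i l => (inner ℝ ((![u, v, w] : Fin 3 → E) i) ((![u, v, w] : Fin 3 → E) l) : ℝ)

/-- The entries of the Gram matrix. -/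
lemma entries (u v w : E) (a b p : ℝ) (ha : ‖u‖ ^ 2 = a) (hb : ‖v‖ ^ 2 = b) (hw : ‖w‖ ^ 2 = 1)
    (hp : (inner ℝ u v : ℝ) = p) (h1 : (inner ℝ w u : ℝ) = 1 / 2)
    (h2 : (inner ℝ w v : ℝ) = 1 / 2) :
    Gm u v w 0 0 = a ∧ Gm u v w 0 1 = p ∧ Gm u v w 0 2 = 1 / 2 ∧ Gm u v w 1 0 = p ∧
      Gm u v w 1 1 = b ∧ Gm u v w 1 2 = 1 / 2 ∧ Gm u v w 2 0 = 1 / 2 ∧ Gm u v w 2 1 = 1 / 2 ∧
      Gm u v w 2 2 = 1 := by
  have h1' : (inner ℝ u w : ℝ) = 1 / 2 := by rw [real_inner_comm]; exact h1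
  have h2' : (inner ℝ v w : ℝ) = 1 / 2 := by rw [real_inner_comm]; exact h2
  have hp' : (inner ℝ v u : ℝ) = p := by rw [real_inner_comm]; exact hp
  have ha' : (inner ℝ u u : ℝ) = a := by rw [real_inner_self_eq_norm_sq]; exact ha
  have hb' : (inner ℝ v v : ℝ) = b := by rw [real_inner_self_eq_norm_sq]; exact hb
  have hw' : (inner ℝ w w : ℝ) = 1 := by rw [real_inner_self_eq_norm_sq]; exact hw
  exact ⟨ha', hp, h1', hp', hb', h2', h1, h2, hw'⟩

lemma Gm_det (u v w : E) (a b p : ℝ) (ha : ‖u‖ ^ 2 = a) (hb : ‖v‖ ^ 2 = b) (hw : ‖w‖ ^ 2 = 1)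
    (hp : (inner ℝ u v : ℝ) = p) (h1 : (inner ℝ w u : ℝ) = 1 / 2)
    (h2 : (inner ℝ w v : ℝ) = 1 / 2) :
    (Gm u v w).det = a * b - a / 4 - b / 4 - p ^ 2 + p / 2 := by
  obtain ⟨q00, q01, q02, q10, q11, q12, q20, q21, q22⟩ := entries u v w a b p ha hb hw hp h1 h2
  rw [Matrix.det_fin_three, q00, q01, q02, q10, q11, q12, q20, q21, q22]
  ring

/-- The linear system solved by `G⁻¹ z`. -/
lemma sys (u v w : E) (a b p : ℝ) (ha : ‖u‖ ^ 2 = a) (hb : ‖v‖ ^ 2 = b) (hw : ‖w‖ ^ 2 = 1)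
    (hp : (inner ℝ u v : ℝ) = p) (h1 : (inner ℝ w u : ℝ) = 1 / 2)
    (h2 : (inner ℝ w v : ℝ) = 1 / 2) (hd : (Gm u v w).det ≠ 0) (z : Fin 3 → ℝ) :
    ∃ x0 x1 x2 : ℝ, a * x0 + p * x1 + 1 / 2 * x2 = z 0 ∧ p * x0 + b * x1 + 1 / 2 * x2 = z 1 ∧
      1 / 2 * x0 + 1 / 2 * x1 + x2 = z 2 ∧
      z ⬝ᵥ ((Gm u v w)⁻¹.mulVec z) = z 0 * x0 + z 1 * x1 + z 2 * x2 := by
  obtain ⟨q00, q01, q02, q10, q11, q12, q20, q21, q22⟩ := entries u v w a b p ha hb hw hp h1 h2
  set x := (Gm u v w)⁻¹.mulVec z with hx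
  have hG : (Gm u v w).mulVec x = z := by
    rw [hx, Matrix.mulVec_mulVec, Matrix.mul_nonsing_inv _ (Ne.isUnit hd), Matrix.one_mulVec]
  refine ⟨x 0, x 1, x 2, ?_, ?_, ?_, ?_⟩
  · have h := congrFun hG 0
    simp only [Matrix.mulVec, dotProduct, Fin.sum_univ_three] at h
    rw [q00, q01, q02] at h
    exact h
  · have h := congrFun hG 1
    simp only [Matrix.mulVec, dotProduct, Fin.sum_univ_three] at h
    rw [q10, q11, q12] at h
    exact h
  · have h := congrFun hG 2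
    simp only [Matrix.mulVec, dotProduct, Fin.sum_univ_three] at h
    rw [q20, q21, q22, one_mul] at h
    exact h
  · simp only [dotProduct, Fin.sum_univ_three]

lemma measA : MeasurableSet {z : Fin 3 → ℝ | ∀ i, 1 < z i} := by
  have h : {z : Fin 3 → ℝ | ∀ i, 1 < z i} = ⋂ i, {z : Fin 3 → ℝ | 1 < z i} := by
    ext z
    simp
  rw [h]
  exact MeasurableSet.iInter fun i => measurableSet_lt measurable_const (measurable_pi_apply i)

/-- GSL for triples. -/
lemma v3_eq (hGSL : SpecGSL) (u v w : E) (hli : LinearIndependent ℝ (![u, v, w] : Fin 3 → E)) :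
    volume (cap u ∩ cap v ∩ cap w) =
      ∫⁻ z in {z : Fin 3 → ℝ | ∀ i, 1 < z i}, ENNReal.ofReal (kap 5 *
        Real.sqrt (5 / 3 - z ⬝ᵥ ((Gm u v w)⁻¹.mulVec z)) ^ 5 / Real.sqrt (Gm u v w).det) := by
  have hA := measA
  have h := hGSL 3 5 (by norm_num) (by norm_num) (![u, v, w] : Fin 3 → E) hli
    {z : Fin 3 → ℝ | ∀ i, 1 < z i} hA (5 / 3)
  have e : cap u ∩ cap v ∩ cap w = {y : E | ‖y‖ ^ 2 < 5 / 3 ∧
      (fun i => (inner ℝ ((![u, v, w] : Fin 3 → E) i) y : ℝ)) ∈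
        {z : Fin 3 → ℝ | ∀ i, 1 < z i}} := by
    ext y
    simp only [cap, Set.mem_inter_iff, Set.mem_ofPred_eq, Fin.forall_fin_succ, Fin.forall_fin_zero,
      Matrix.cons_val_zero, Matrix.cons_val_succ, and_true]
    constructor
    · rintro ⟨⟨⟨h1, h2⟩, ⟨_, h3⟩⟩, ⟨_, h4⟩⟩
      exact ⟨h1, h2, h3, h4⟩
    · rintro ⟨h1, h2, h3, h4⟩
      exact ⟨⟨⟨h1, h2⟩, ⟨h1, h3⟩⟩, ⟨h1, h4⟩⟩
  rw [e]
  exact h

/-- Nonnegativity of the quadratic form. -/
lemma quad (u v w : E) (a b p : ℝ) (ha : ‖u‖ ^ 2 = a) (hb : ‖v‖ ^ 2 = b) (hw : ‖w‖ ^ 2 = 1)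
    (hp : (inner ℝ u v : ℝ) = p) (h1 : (inner ℝ w u : ℝ) = 1 / 2)
    (h2 : (inner ℝ w v : ℝ) = 1 / 2) (c0 c1 c2 : ℝ) :
    ‖c0 • u + c1 • v + c2 • w‖ ^ 2 = a * c0 ^ 2 + b * c1 ^ 2 + c2 ^ 2 + 2 * p * c0 * c1 + c0 * c2
      + c1 * c2 := by
  have h1' : (inner ℝ u w : ℝ) = 1 / 2 := by rw [real_inner_comm]; exact h1
  have h2' : (inner ℝ v w : ℝ) = 1 / 2 := by rw [real_inner_comm]; exact h2
  have hp' : (inner ℝ v u : ℝ) = p := by rw [real_inner_comm]; exact hp
  rw [← real_inner_self_eq_norm_sq]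
  simp only [inner_add_left, inner_add_right, real_inner_smul_left, real_inner_smul_right]
  simp only [real_inner_self_eq_norm_sq]
  rw [ha, hb, hw, hp, hp', h1, h2, h1', h2']
  ring

/-- Linear independence from the determinant. -/
lemma lin (u v w : E) (hd : (Gm u v w).det ≠ 0) :
    LinearIndependent ℝ (![u, v, w] : Fin 3 → E) := by
  rw [Fintype.linearIndependent_iff]
  intro g hg i
  have h : (Gm u v w).mulVec g = 0 := by
    ext i
    have h2 := congrArg (fun y => (inner ℝ ((![u, v, w] : Fin 3 → E) i) y : ℝ)) hg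
    simp only [inner_sum, real_inner_smul_right, inner_zero_right] at h2
    simp only [Matrix.mulVec, dotProduct, Gm, Matrix.of_apply, Pi.zero_apply]
    rw [← h2]
    apply Finset.sum_congr rfl
    intro j _
    ring
  exact congrFun (Matrix.eq_zero_of_mulVec_eq_zero hd h) i

lemma ee (x y : Fin 8 → ℝ) : (inner ℝ (WithLp.toLp 2 x : E) (WithLp.toLp 2 y : E) : ℝ) =
    ∑ i, x i * y i := by
  rw [PiLp.inner_apply]
  apply Finset.sum_congr rfl
  intro i _
  simp [mul_comm]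

lemma n0 : ‖e0‖ ^ 2 = 1 := by
  rw [← real_inner_self_eq_norm_sq, e0, ee]
  simp [Fin.sum_univ_succ]

lemma n1 : ‖e1‖ ^ 2 = 1 := by
  rw [← real_inner_self_eq_norm_sq, e1, ee]
  simp [Fin.sum_univ_succ]
  norm_num

lemma n2 : ‖e2‖ ^ 2 = 1 := by
  rw [← real_inner_self_eq_norm_sq, e2, ee]
  simp [Fin.sum_univ_succ]
  norm_num

lemma i01 : (inner ℝ e0 e1 : ℝ) = 1 / 2 := by
  rw [e0, e1, ee]
  simp [Fin.sum_univ_succ]

lemma i20 : (inner ℝ e2 e0 : ℝ) = 1 / 2 := by
  rw [e0, e2, ee]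
  simp [Fin.sum_univ_succ]

lemma i21 : (inner ℝ e2 e1 : ℝ) = 1 / 2 := by
  rw [e1, e2, ee]
  simp [Fin.sum_univ_succ]
  norm_num

lemma cap_fin (u v w : E) : volume (cap u ∩ cap v ∩ cap w) ≠ ⊤ := by
  have h : cap u ∩ cap v ∩ cap w ⊆ Metric.ball (0 : E) 2 := by
    intro y hy
    have h1 : ‖y‖ ^ 2 < 5 / 3 := hy.1.1.1
    rw [mem_ball_zero_iff]
    nlinarith [norm_nonneg y]
  exact ne_top_of_le_ne_top measure_ball_lt_top.ne (measure_mono h)

end MCPM

open MCPM in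
/-- **MCP**: the virtual triple volume is largest for contact pairs. -/
theorem specMCP (hGSL : SpecGSL) : SpecMCP := by
  intro u v n hR hn hnu hnv
  set a := ‖u‖ ^ 2 with ha
  set b := ‖v‖ ^ 2 with hb
  set p := (inner ℝ u v : ℝ) with hp
  set w := wst u v n with hw
  have hD : 0 < a * b - p ^ 2 := hR.D
  have ha1 : a ≤ 1 := by
    rw [ha]
    exact pow_le_one₀ (norm_nonneg _) hR.uhi
  have hb1 : b ≤ 1 := by
    rw [hb]
    exact pow_le_one₀ (norm_nonneg _) hR.vhi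
  have hvu : (inner ℝ v u : ℝ) = p := by rw [real_inner_comm]
  have hDt : Dt u v = a * b - p ^ 2 := rfl
  have hDne : a * b - p ^ 2 ≠ 0 := hD.ne'
  -- the circumcentre
  have hcu : (inner ℝ (cc u v) u : ℝ) = 1 := by
    unfold cc
    rw [inner_add_left, real_inner_smul_left, real_inner_smul_left, real_inner_self_eq_norm_sq,
      hvu, hDt, ← ha, ← hb, ← hp, div_mul_eq_mul_div, div_mul_eq_mul_div, ← add_div,
      div_eq_one_iff_eq hDne]
    ring
  have hcv : (inner ℝ (cc u v) v : ℝ) = 1 := by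
    unfold cc
    rw [inner_add_left, real_inner_smul_left, real_inner_smul_left, real_inner_self_eq_norm_sq,
      hDt, ← ha, ← hb, ← hp, div_mul_eq_mul_div, div_mul_eq_mul_div, ← add_div,
      div_eq_one_iff_eq hDne]
    ring
  have hcn : (inner ℝ (cc u v) n : ℝ) = 0 := by
    unfold cc
    rw [inner_add_left, real_inner_smul_left, real_inner_smul_left, real_inner_comm n u,
      real_inner_comm n v, hnu, hnv]
    ring
  have hcc : ‖cc u v‖ ^ 2 = (a + b - 2 * p) / (a * b - p ^ 2) := by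
    rw [← real_inner_self_eq_norm_sq]
    nth_rewrite 2 [cc]
    rw [inner_add_right, real_inner_smul_right, real_inner_smul_right, hcu, hcv, hDt, ← ha, ← hb,
      ← hp]
    field_simp
    ring
  have hm : mm u v = 1 - ‖cc u v‖ ^ 2 / 2 := rfl
  have hm0 : 0 ≤ (1 + mm u v) / 2 := by linarith [hR.mlo]
  have hwu : (inner ℝ w u : ℝ) = 1 / 2 := by
    rw [hw, wst, inner_add_left, real_inner_smul_left, real_inner_smul_left, hcu, hnu]
    ring
  have hwv : (inner ℝ w v : ℝ) = 1 / 2 := by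
    rw [hw, wst, inner_add_left, real_inner_smul_left, real_inner_smul_left, hcv, hnv]
    ring
  have hww : ‖w‖ ^ 2 = 1 := by
    rw [hw, wst, ← real_inner_self_eq_norm_sq]
    simp only [inner_add_left, inner_add_right, real_inner_smul_left, real_inner_smul_right]
    simp only [real_inner_self_eq_norm_sq]
    have hnc : (inner ℝ n (cc u v) : ℝ) = 0 := by rw [real_inner_comm]; exact hcn
    rw [hcn, hnc, hn]
    have hs := Real.mul_self_sqrt hm0
    linear_combination hs + (1 / 2) * hm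
  have hdet := Gm_det u v w a b p rfl rfl hww rfl hwu hwv
  have hdet0 := Gm_det e0 e1 e2 1 1 (1 / 2) n0 n1 n2 i01 i20 i21
  have hdetpos : 0 < (Gm u v w).det := by
    rw [hdet]
    have h1 : a * b - a / 4 - b / 4 - p ^ 2 + p / 2 =
        (a * b - p ^ 2) * ((1 + mm u v) / 2) := by
      rw [hm, hcc]
      field_simp
      ring
    rw [h1]
    exact mul_pos hD (by linarith [hR.mlo])
  have hdet0' : (Gm e0 e1 e2).det = 1 / 2 := by
    rw [hdet0]
    norm_num
  have hv := v3_eq hGSL u v w (lin u v w hdetpos.ne')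
  have hv0 := v3_eq hGSL e0 e1 e2 (lin e0 e1 e2 (by rw [hdet0']; norm_num))
  unfold s3 v3
  apply ENNReal.toReal_mono (cap_fin _ _ _)
  rw [hv, hv0]
  apply setLIntegral_mono' measA
  intro z hz
  have hz : ∀ i, 1 < z i := hz
  apply ENNReal.ofReal_le_ofReal
  rw [mul_div_assoc, mul_div_assoc]
  apply mul_le_mul_of_nonneg_left _ ENNReal.toReal_nonneg
  obtain ⟨x0, x1, x2, h0, h1, h2, h3⟩ := sys u v w a b p rfl rfl hww rfl hwu hwv hdetpos.ne' z
  obtain ⟨y0, y1, y2, g0, g1, g2, g3⟩ := sys e0 e1 e2 1 1 (1 / 2) n0 n1 n2 i01 i20 i21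
    (by rw [hdet0']; norm_num) z
  rw [h3, g3, hdet0', hdet]
  have hy : z 0 * y0 + z 1 * y1 + z 2 * y2 =
      2 * (z 0 ^ 2 + z 1 ^ 2 + z 2 ^ 2) - (z 0 + z 1 + z 2) ^ 2 / 2 := by
    rw [← g0, ← g1, ← g2]
    ring
  rw [hy]
  rcases le_or_gt (5 / 3 - (z 0 * x0 + z 1 * x1 + z 2 * x2)) 0 with hP | hP
  · rw [Real.sqrt_eq_zero_of_nonpos hP, zero_pow (by norm_num), zero_div]
    positivity
  · obtain ⟨hP0, hle⟩ := core a b p
      (fun c0 c1 c2 => by
        rw [← quad u v w a b p rfl rfl hww rfl hwu hwv]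
        positivity)
      ha1 hb1 hR.ulo.le hR.vlo.le hR.phi (by linarith [hR.plo]) (z 0) (z 1) (z 2) x0 x1 x2 h0 h1 h2
      (hz 0) (hz 1) (hz 2) hP
    rw [hdet] at hdetpos
    rw [div_le_div_iff₀ (Real.sqrt_pos.2 hdetpos) (Real.sqrt_pos.2 (by norm_num))]
    apply le_of_sq_le_sq _ (by positivity)
    rw [mul_pow, mul_pow, ← pow_mul, ← pow_mul, mul_comm 5 2, pow_mul, pow_mul,
      Real.sq_sqrt hP.le, Real.sq_sqrt hP0, Real.sq_sqrt hdetpos.le, Real.sq_sqrt (by norm_num)]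
    exact hle

end Pool.Agent.Lib.MP_f1379f_gt.FV
end

section
set_option autoImplicit false

namespace Pool.Agent.Lib.MP_f1379f_gt.FV

namespace REDM

open MeasureTheory

/-- the inversion `z ↦ (2/|z|²) z` -/
noncomputable def inv (z : E) : E := (2 / ‖z‖ ^ 2) • z

theorem inv_ne {z : E} (hz : z ≠ 0) : inv z ≠ 0 := by
  have h : 0 < ‖z‖ := norm_pos_iff.2 hz
  rw [inv]
  exact smul_ne_zero (by positivity) hz

theorem norm_inv' {z : E} (hz : z ≠ 0) : ‖inv z‖ = 2 / ‖z‖ := by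
  have h : 0 < ‖z‖ := norm_pos_iff.2 hz
  rw [inv, norm_smul, Real.norm_eq_abs, abs_of_pos (by positivity)]
  field_simp

theorem inv_inv' {z : E} (hz : z ≠ 0) : inv (inv z) = z := by
  have h : 0 < ‖z‖ := norm_pos_iff.2 hz
  have h1 := norm_inv' hz
  rw [inv, h1]
  rw [inv, smul_smul]
  have : 2 / (2 / ‖z‖) ^ 2 * (2 / ‖z‖ ^ 2) = 1 := by
    field_simp
  rw [this, one_smul]

theorem inner_inv {z z' : E} :
    (inner ℝ (inv z) (inv z') : ℝ) = 2 / ‖z‖ ^ 2 * (2 / ‖z'‖ ^ 2) * inner ℝ z z' := by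
  rw [inv, inv, inner_smul_left, inner_smul_right]
  simp
  ring

theorem finite_of_sep (Z : Set E) (hb : ∀ z ∈ Z, ‖z‖ ≤ 4)
    (hsep : ∀ z ∈ Z, ∀ z' ∈ Z, z ≠ z' → 2 ≤ dist z z') : Z.Finite := by
  by_contra hinf
  have hinf' : Z.Infinite := hinf
  have hsub : Z ⊆ Metric.closedBall (0 : E) 4 := by
    intro z hz
    rw [mem_closedBall_zero_iff]
    exact hb z hz
  obtain ⟨x, _, hx⟩ := hinf'.exists_accPt_of_subset_isCompact (isCompact_closedBall (0 : E) 4) hsub
  rw [accPt_iff_nhds] at hx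
  obtain ⟨y, ⟨hy1, hy2⟩, hyx⟩ := hx (Metric.ball x 1) (Metric.ball_mem_nhds x one_pos)
  have hpos : 0 < dist y x := dist_pos.2 hyx
  obtain ⟨w, ⟨hw1, hw2⟩, _⟩ := hx (Metric.ball x (dist y x)) (Metric.ball_mem_nhds x hpos)
  rw [Metric.mem_ball] at hw1 hy1
  have hne : y ≠ w := by
    rintro rfl
    exact lt_irrefl _ hw1
  have h1 := hsep y hy2 w hw2 hne
  have h2 : dist y w ≤ dist y x + dist w x := dist_triangle_right y w x
  linarith

end REDM

open REDM MeasureTheory in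
theorem specRED : SpecRED := by
  intro H X hX x hx
  classical
  set Z : Set E := {z | z ≠ 0 ∧ ‖z‖ ≤ 4 ∧ x + z ∈ X} with hZ
  have hsep : ∀ z ∈ Z, ∀ z' ∈ Z, z ≠ z' → 2 ≤ dist z z' := by
    intro z hz z' hz' hne
    have h := hX (x + z) hz.2.2 (x + z') hz'.2.2 (fun h => hne (add_left_cancel h))
    rwa [dist_add_left] at h
  have hnorm : ∀ z ∈ Z, 2 ≤ ‖z‖ := by
    intro z hz
    have h := hX (x + z) hz.2.2 x hx (fun h => hz.1 (by simpa using h))
    rwa [dist_eq_norm, add_sub_cancel_left] at h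
  have hfin : Z.Finite := finite_of_sep Z (fun z hz => hz.2.1) hsep
  set U : Finset E := hfin.toFinset.image REDM.inv with hU
  have hmem : ∀ u, u ∈ U ↔ ∃ z ∈ Z, REDM.inv z = u := by
    intro u
    rw [hU, Finset.mem_image]
    simp
  have hAdm : Adm U := by
    refine ⟨?_, ?_, ?_⟩
    · intro u hu
      obtain ⟨z, hz, rfl⟩ := (hmem u).1 hu
      exact inv_ne hz.1
    · intro u hu
      obtain ⟨z, hz, rfl⟩ := (hmem u).1 hu
      rw [norm_inv' hz.1]
      have h := hnorm z hz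
      rw [div_le_one (by linarith)]
      exact h
    · intro u hu v hv huv
      obtain ⟨z, hz, rfl⟩ := (hmem u).1 hu
      obtain ⟨z', hz', rfl⟩ := (hmem v).1 hv
      have hne : z ≠ z' := fun h => huv (by rw [h])
      have h2 := hsep z hz z' hz' hne
      have hp : 0 < ‖z‖ := norm_pos_iff.2 hz.1
      have hp' : 0 < ‖z'‖ := norm_pos_iff.2 hz'.1
      have h3 : (4 : ℝ) ≤ ‖z‖ ^ 2 - 2 * inner ℝ z z' + ‖z'‖ ^ 2 := by
        rw [← norm_sub_sq_real, ← dist_eq_norm]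
        nlinarith
      rw [norm_inv' hz.1, norm_inv' hz'.1, inner_inv]
      have e1 : (2 / ‖z‖) ^ 2 + (2 / ‖z'‖) ^ 2 - (2 / ‖z‖) ^ 2 * (2 / ‖z'‖) ^ 2
          - 2 * (2 / ‖z‖ ^ 2 * (2 / ‖z'‖ ^ 2) * inner ℝ z z')
          = 4 / (‖z‖ ^ 2 * ‖z'‖ ^ 2) * (‖z‖ ^ 2 - 2 * inner ℝ z z' + ‖z'‖ ^ 2 - 4) := by
        field_simp
        ring
      have e2 : 0 ≤ 4 / (‖z‖ ^ 2 * ‖z'‖ ^ 2) * (‖z‖ ^ 2 - 2 * inner ℝ z z' + ‖z'‖ ^ 2 - 4) := by
        apply mul_nonneg (by positivity)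
        linarith
      linarith
  refine (H U hAdm).trans ?_
  have hsub : (fun y => y - x) ⁻¹' (poly U ∩ Metric.ball (0 : E) 2) ⊆
      {y : EuclideanSpace ℝ (Fin 8) | ∀ x' ∈ X, dist y x ≤ dist y x'} := by
    intro y hy x' hx'
    obtain ⟨hy1, hy2⟩ := hy
    have hy2' : ‖y - x‖ < 2 := by simpa using hy2
    set w : E := y - x with hw
    set z : E := x' - x with hz
    have e1 : dist y x = ‖w‖ := by rw [dist_eq_norm]
    have e2 : dist y x' = ‖w - z‖ := by rw [dist_eq_norm, hw, hz]; congr 1; abel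
    rw [e1, e2]
    have key : 2 * inner ℝ z w ≤ ‖z‖ ^ 2 → ‖w‖ ≤ ‖w - z‖ := by
      intro h
      have h3 : ‖w - z‖ ^ 2 = ‖w‖ ^ 2 - 2 * inner ℝ w z + ‖z‖ ^ 2 := norm_sub_sq_real w z
      have h4 : inner ℝ w z = (inner ℝ z w : ℝ) := real_inner_comm z w
      apply le_of_sq_le_sq _ (norm_nonneg _)
      rw [h3, h4]
      linarith
    by_cases hz0 : z = 0
    · rw [hz0, sub_zero]
    have hzp : 0 < ‖z‖ := norm_pos_iff.2 hz0
    apply key
    by_cases hz4 : ‖z‖ ≤ 4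
    · have hzZ : z ∈ Z := ⟨hz0, hz4, by rw [hz]; simpa using hx'⟩
      have h1 := hy1 (REDM.inv z) ((hmem _).2 ⟨z, hzZ, rfl⟩)
      rw [REDM.inv, inner_smul_left] at h1
      simp only [conj_trivial] at h1
      rw [div_mul_eq_mul_div, div_le_one (by positivity)] at h1
      exact h1
    · push Not at hz4
      have h1 : inner ℝ z w ≤ ‖z‖ * ‖w‖ := real_inner_le_norm z w
      nlinarith
  refine le_trans ?_ (measure_mono hsub)
  have hmp : MeasurePreserving (fun y : E => y - x) volume volume := measurePreserving_sub_right _ x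
  rw [hmp.measure_preimage_emb (MeasurableEquiv.subRight x).measurableEmbedding]

end Pool.Agent.Lib.MP_f1379f_gt.FV
end

section
set_option autoImplicit false

namespace Pool.Agent.Lib.MP_f1379f_gt.FV

open MeasureTheory

namespace RPRM

theorem cc_norm_sq (u v : E) (hD : Dt u v ≠ 0) :
    ‖cc u v‖ ^ 2 = (‖u‖ ^ 2 + ‖v‖ ^ 2 - 2 * (inner ℝ u v : ℝ)) / Dt u v := by
  have h1 : ‖cc u v‖ ^ 2 = inner ℝ (cc u v) (cc u v) := (real_inner_self_eq_norm_sq _).symm
  rw [h1]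
  unfold cc
  simp only [inner_add_left, inner_add_right, inner_smul_left, inner_smul_right,
    RCLike.conj_to_real, real_inner_self_eq_norm_sq, real_inner_comm u v]
  generalize hDD : Dt u v = D at hD ⊢
  unfold Dt at hDD
  generalize ‖u‖ ^ 2 = a at *
  generalize ‖v‖ ^ 2 = b at *
  generalize (inner ℝ u v : ℝ) = p at *
  field_simp
  rw [← hDD]
  ring

theorem cc_inner (u v y : E) :
    (inner ℝ (cc u v) y : ℝ) = ((‖v‖ ^ 2 - (inner ℝ u v : ℝ)) / Dt u v) * inner ℝ u y +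
      ((‖u‖ ^ 2 - (inner ℝ u v : ℝ)) / Dt u v) * inner ℝ v y := by
  unfold cc
  simp only [inner_add_left, inner_smul_left, RCLike.conj_to_real]

theorem sq_bound (x y : E) (t : ℝ) (ht : 0 ≤ t) (hy : ‖y‖ ^ 2 < 5 / 3)
    (h : t < (inner ℝ x y : ℝ)) : t ^ 2 * 3 / 5 < ‖x‖ ^ 2 ∨ t = 0 := by
  by_cases h0 : t = 0
  · exact Or.inr h0
  left
  have ht' : 0 < t := lt_of_le_of_ne ht (Ne.symm h0)
  have h1 : (inner ℝ x y : ℝ) ≤ ‖x‖ * ‖y‖ := real_inner_le_norm x y
  have h2 : t < ‖x‖ * ‖y‖ := lt_of_lt_of_le h h1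
  have h3 : t ^ 2 < (‖x‖ * ‖y‖) ^ 2 := by
    apply pow_lt_pow_left₀ h2 ht (by norm_num)
  have h4 : (‖x‖ * ‖y‖) ^ 2 ≤ ‖x‖ ^ 2 * (5 / 3) := by
    rw [mul_pow]
    exact mul_le_mul_of_nonneg_left hy.le (by positivity)
  linarith

end RPRM

open RPRM

theorem specRPR : SpecRPR := by
  intro u v hu hv hsep hne
  obtain ⟨y, ⟨hy, huy⟩, ⟨-, hvy⟩⟩ := hne
  have ha : 3 / 5 < ‖u‖ ^ 2 := by
    rcases sq_bound u y 1 zero_le_one hy huy with h | h
    · linarith
    · norm_num at h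
  have hb : 3 / 5 < ‖v‖ ^ 2 := by
    rcases sq_bound v y 1 zero_le_one hy hvy with h | h
    · linarith
    · norm_num at h
  have ha1 : ‖u‖ ^ 2 ≤ 1 := by nlinarith [norm_nonneg u]
  have hb1 : ‖v‖ ^ 2 ≤ 1 := by nlinarith [norm_nonneg v]
  have hsum : ‖u + v‖ ^ 2 = ‖u‖ ^ 2 + 2 * (inner ℝ u v : ℝ) + ‖v‖ ^ 2 := norm_add_sq_real u v
  have hp1 : 1 / 5 < (inner ℝ u v : ℝ) := by
    have h1 : (2 : ℝ) < inner ℝ (u + v) y := by
      rw [inner_add_left]; linarith
    rcases sq_bound (u + v) y 2 (by norm_num) hy h1 with h | h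
    · rw [hsum] at h; linarith
    · norm_num at h
  have hp2 : (inner ℝ u v : ℝ) ≤ 1 / 2 := by nlinarith
  have hD : 0 < Dt u v := by
    unfold Dt
    nlinarith
  have hcn := cc_norm_sq u v hD.ne'
  have hcy := cc_inner u v y
  refine ⟨hD, ha, hu, hb, hv, hp1, hp2, ?_, ?_⟩
  · -- 1/6 < mm
    have hlam : 0 < (‖v‖ ^ 2 - (inner ℝ u v : ℝ)) / Dt u v := div_pos (by linarith) hD
    have hmu : 0 < (‖u‖ ^ 2 - (inner ℝ u v : ℝ)) / Dt u v := div_pos (by linarith) hD
    have h1 : ‖cc u v‖ ^ 2 < (inner ℝ (cc u v) y : ℝ) := by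
      rw [hcn, hcy]
      have e : (‖u‖ ^ 2 + ‖v‖ ^ 2 - 2 * (inner ℝ u v : ℝ)) / Dt u v =
          (‖v‖ ^ 2 - (inner ℝ u v : ℝ)) / Dt u v + (‖u‖ ^ 2 - (inner ℝ u v : ℝ)) / Dt u v := by
        rw [← add_div]; ring
      rw [e]
      nlinarith
    have h2 := real_inner_le_norm (cc u v) y
    have h3 : ‖cc u v‖ ^ 2 < ‖cc u v‖ * ‖y‖ := lt_of_lt_of_le h1 h2
    have h4 : ‖cc u v‖ < ‖y‖ := by
      by_contra hcon
      push Not at hcon
      nlinarith [norm_nonneg (cc u v), norm_nonneg y]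
    have h5 : ‖cc u v‖ ^ 2 < ‖y‖ ^ 2 := by
      apply pow_lt_pow_left₀ h4 (norm_nonneg _) (by norm_num)
    unfold mm
    linarith
  · have h1 : 4 / 3 ≤ ‖cc u v‖ ^ 2 := by
      rw [hcn, le_div_iff₀ hD]
      unfold Dt
      generalize ‖u‖ ^ 2 = a at *
      generalize ‖v‖ ^ 2 = b at *
      generalize (inner ℝ u v : ℝ) = p at *
      have hP : 2 * p ≤ a + b - a * b := hsep
      have hP1 : a + b - a * b ≤ 1 := by nlinarith
      have h2 : a * b ≤ (a + b - a * b) ^ 2 := by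
        have e1 : a ≤ a + b - a * b := by nlinarith
        have e2 : b ≤ a + b - a * b := by nlinarith
        calc a * b ≤ (a + b - a * b) * (a + b - a * b) :=
              mul_le_mul e1 e2 (by linarith) (by linarith)
          _ = _ := by ring
      have h3 : 0 ≤ (a + b - a * b - 2 * p) * (6 - 2 * (2 * p + (a + b - a * b))) :=
        mul_nonneg (by linarith) (by linarith)
      nlinarith
    unfold mm
    linarith

end Pool.Agent.Lib.MP_f1379f_gt.FV
end

section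
/-!
# MP_f1379f_gt, equality case: the reduction to finite configurations, with the centres remembered
-/
set_option autoImplicit false

namespace Pool.Agent.Lib.MP_f1379f_gt.FV

open REDM MeasureTheory

/-- The reduction of `specRED`, with the configuration exhibited. -/
theorem red_ex (X : Set E) (hX : ∀ x ∈ X, ∀ x' ∈ X, x ≠ x' → (2 : ℝ) ≤ dist x x') (x : E)
    (hx : x ∈ X) :
    ∃ U : Finset E, Adm U ∧
      volume (poly U ∩ Metric.ball (0 : E) 2) ≤ volume {y : E | ∀ x' ∈ X, dist y x ≤ dist y x'} ∧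
      ∀ u ∈ U, x + REDM.inv u ∈ X := by
  classical
  set Z : Set E := {z | z ≠ 0 ∧ ‖z‖ ≤ 4 ∧ x + z ∈ X} with hZ
  have hsep : ∀ z ∈ Z, ∀ z' ∈ Z, z ≠ z' → 2 ≤ dist z z' := by
    intro z hz z' hz' hne
    have h := hX (x + z) hz.2.2 (x + z') hz'.2.2 (fun h => hne (add_left_cancel h))
    rwa [dist_add_left] at h
  have hnorm : ∀ z ∈ Z, 2 ≤ ‖z‖ := by
    intro z hz
    have h := hX (x + z) hz.2.2 x hx (fun h => hz.1 (by simpa using h))
    rwa [dist_eq_norm, add_sub_cancel_left] at h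
  have hfin : Z.Finite := finite_of_sep Z (fun z hz => hz.2.1) hsep
  set U : Finset E := hfin.toFinset.image REDM.inv with hU
  have hmem : ∀ u, u ∈ U ↔ ∃ z ∈ Z, REDM.inv z = u := by
    intro u
    rw [hU, Finset.mem_image]
    simp
  have hAdm : Adm U := by
    refine ⟨?_, ?_, ?_⟩
    · intro u hu
      obtain ⟨z, hz, rfl⟩ := (hmem u).1 hu
      exact inv_ne hz.1
    · intro u hu
      obtain ⟨z, hz, rfl⟩ := (hmem u).1 hu
      rw [norm_inv' hz.1]
      have h := hnorm z hz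
      rw [div_le_one (by linarith)]
      exact h
    · intro u hu v hv huv
      obtain ⟨z, hz, rfl⟩ := (hmem u).1 hu
      obtain ⟨z', hz', rfl⟩ := (hmem v).1 hv
      have hne : z ≠ z' := fun h => huv (by rw [h])
      have h2 := hsep z hz z' hz' hne
      have hp : 0 < ‖z‖ := norm_pos_iff.2 hz.1
      have hp' : 0 < ‖z'‖ := norm_pos_iff.2 hz'.1
      have h3 : (4 : ℝ) ≤ ‖z‖ ^ 2 - 2 * inner ℝ z z' + ‖z'‖ ^ 2 := by
        rw [← norm_sub_sq_real, ← dist_eq_norm]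
        nlinarith
      rw [norm_inv' hz.1, norm_inv' hz'.1, inner_inv]
      have e1 : (2 / ‖z‖) ^ 2 + (2 / ‖z'‖) ^ 2 - (2 / ‖z‖) ^ 2 * (2 / ‖z'‖) ^ 2
          - 2 * (2 / ‖z‖ ^ 2 * (2 / ‖z'‖ ^ 2) * inner ℝ z z')
          = 4 / (‖z‖ ^ 2 * ‖z'‖ ^ 2) * (‖z‖ ^ 2 - 2 * inner ℝ z z' + ‖z'‖ ^ 2 - 4) := by
        field_simp
        ring
      have e2 : 0 ≤ 4 / (‖z‖ ^ 2 * ‖z'‖ ^ 2) * (‖z‖ ^ 2 - 2 * inner ℝ z z' + ‖z'‖ ^ 2 - 4) := by
        apply mul_nonneg (by positivity)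
        linarith
      linarith
  refine ⟨U, hAdm, ?_, ?_⟩
  · have hsub : (fun y => y - x) ⁻¹' (poly U ∩ Metric.ball (0 : E) 2) ⊆
        {y : EuclideanSpace ℝ (Fin 8) | ∀ x' ∈ X, dist y x ≤ dist y x'} := by
      intro y hy x' hx'
      obtain ⟨hy1, hy2⟩ := hy
      have hy2' : ‖y - x‖ < 2 := by simpa using hy2
      set w : E := y - x with hw
      set z : E := x' - x with hz
      have e1 : dist y x = ‖w‖ := by rw [dist_eq_norm]
      have e2 : dist y x' = ‖w - z‖ := by rw [dist_eq_norm, hw, hz]; congr 1; abel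
      rw [e1, e2]
      have key : 2 * inner ℝ z w ≤ ‖z‖ ^ 2 → ‖w‖ ≤ ‖w - z‖ := by
        intro h
        have h3 : ‖w - z‖ ^ 2 = ‖w‖ ^ 2 - 2 * inner ℝ w z + ‖z‖ ^ 2 := norm_sub_sq_real w z
        have h4 : inner ℝ w z = (inner ℝ z w : ℝ) := real_inner_comm z w
        apply le_of_sq_le_sq _ (norm_nonneg _)
        rw [h3, h4]
        linarith
      by_cases hz0 : z = 0
      · rw [hz0, sub_zero]
      have hzp : 0 < ‖z‖ := norm_pos_iff.2 hz0
      apply key
      by_cases hz4 : ‖z‖ ≤ 4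
      · have hzZ : z ∈ Z := ⟨hz0, hz4, by rw [hz]; simpa using hx'⟩
        have h1 := hy1 (REDM.inv z) ((hmem _).2 ⟨z, hzZ, rfl⟩)
        rw [REDM.inv, inner_smul_left] at h1
        simp only [conj_trivial] at h1
        rw [div_mul_eq_mul_div, div_le_one (by positivity)] at h1
        exact h1
      · push Not at hz4
        have h1 : inner ℝ z w ≤ ‖z‖ * ‖w‖ := real_inner_le_norm z w
        nlinarith
    refine le_trans ?_ (measure_mono hsub)
    have hmp : MeasurePreserving (fun y : E => y - x) volume volume :=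
      measurePreserving_sub_right _ x
    rw [hmp.measure_preimage_emb (MeasurableEquiv.subRight x).measurableEmbedding]
  · intro u hu
    obtain ⟨z, hz, rfl⟩ := (hmem u).1 hu
    rw [inv_inv' hz.1]
    exact hz.2.2

end Pool.Agent.Lib.MP_f1379f_gt.FV
end
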