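import Pool.Agent.Lib.MP_f1379f_gt.FV.SpecA
import Pool.Agent.Lib.MP_f1379f_gt.FV.GEN
import Pool.Agent.Lib.MP_f1379f_gt.EQ.EQC
import Pool.Agent.Lib.MP_f1379f_gt.EQ.RDE
import Pool.Agent.Lib.MP_f1379f_gt.FV.BON
import Pool.Agent.Lib.MP_f1379f_gt.FV.LKS
import Pool.Agent.Lib.MP_f1379f_gt.FV.S27
import Pool.Agent.Lib.MP_f1379f_gt.FV.K4
import Pool.Agent.Lib.MP_f1379f_gt.FV.IEX
import Pool.Agent.Lib.MP_f1379f_gt.FV.CNE
import Pool.Agent.Lib.MP_f1379f_gt.FV.E8V
import Pool.Agent.Lib.MP_f1379f_gt.FV.SpecB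
import Pool.Agent.Lib.MP_f1379f_gt.FV.ISO
import Pool.Agent.Lib.MP_f1379f_gt.FV.QVD
import Pool.Agent.Lib.MP_f1379f_gt.FV.FIN

section
/-!
# MP_f1379f_gt, full Q1, module LP6: at most 93 points with cosines at most 1/2 on the sphere of R^6
-/
set_option autoImplicit false

namespace Pool.Agent.Lib.MP_f1379f_gt.FV

namespace LP6M

/-- Expansion of the test polynomial. -/
lemma expand (t : ℝ) :
    t ^ 2 * (t + 3 / 5) ^ 2 * (t - 1 / 2) =
      11 / 800 * Zg 6 0 t 1 + 39 / 400 * Zg 6 1 t 1 + 1 / 5 * Zg 6 2 t 1 +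
        89 / 240 * Zg 6 3 t 1 + 49 / 160 * Zg 6 4 t 1 + 7 / 24 * Zg 6 5 t 1 := by
  simp only [Zg]
  push_cast
  ring

end LP6M

open LP6M in
/-- At most 93 points with cosines at most 1/2 on the sphere of R^6. -/
theorem specLP6 : SpecLP6 := by
  intro s h1 h2
  have hin : ∀ p ∈ s, (inner ℝ p p : ℝ) = 1 := by
    intro p hp
    rw [real_inner_self_eq_norm_sq, h1 p hp]
    norm_num
  have hpos : ∀ k : ℕ, 0 ≤ ∑ p ∈ s, ∑ q ∈ s, Zg 6 k (inner ℝ p q) 1 := by
    intro k
    have h := gen_pos (n := 6) (by norm_num) k s (fun p : E6 => p) (fun _ => 1)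
    refine h.trans_eq ?_
    refine Finset.sum_congr rfl (fun p hp => Finset.sum_congr rfl (fun q hq => ?_))
    simp only [hin p hp, hin q hq, mul_one, one_mul]
  have hsum : ∑ p ∈ s, ∑ q ∈ s,
      ((inner ℝ p q : ℝ) ^ 2 * ((inner ℝ p q : ℝ) + 3 / 5) ^ 2 * ((inner ℝ p q : ℝ) - 1 / 2)) =
      11 / 800 * ∑ p ∈ s, ∑ q ∈ s, Zg 6 0 (inner ℝ p q) 1 +
      39 / 400 * ∑ p ∈ s, ∑ q ∈ s, Zg 6 1 (inner ℝ p q) 1 +
      1 / 5 * ∑ p ∈ s, ∑ q ∈ s, Zg 6 2 (inner ℝ p q) 1 +
      89 / 240 * ∑ p ∈ s, ∑ q ∈ s, Zg 6 3 (inner ℝ p q) 1 +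
      49 / 160 * ∑ p ∈ s, ∑ q ∈ s, Zg 6 4 (inner ℝ p q) 1 +
      7 / 24 * ∑ p ∈ s, ∑ q ∈ s, Zg 6 5 (inner ℝ p q) 1 := by
    simp only [Finset.mul_sum, ← Finset.sum_add_distrib]
    refine Finset.sum_congr rfl (fun p _ => Finset.sum_congr rfl (fun q _ => ?_))
    exact expand _
  have hzero : ∑ p ∈ s, ∑ q ∈ s, Zg 6 0 (inner ℝ p q) 1 = (s.card : ℝ) ^ 2 := by
    simp only [Zg, Finset.sum_const, nsmul_eq_mul, mul_one]
    ring
  have hupper : ∑ p ∈ s, ∑ q ∈ s,
      ((inner ℝ p q : ℝ) ^ 2 * ((inner ℝ p q : ℝ) + 3 / 5) ^ 2 * ((inner ℝ p q : ℝ) - 1 / 2)) ≤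
      (s.card : ℝ) * (32 / 25) := by
    have h3 : ∀ p ∈ s, ∑ q ∈ s,
        ((inner ℝ p q : ℝ) ^ 2 * ((inner ℝ p q : ℝ) + 3 / 5) ^ 2 * ((inner ℝ p q : ℝ) - 1 / 2)) ≤
        32 / 25 := by
      classical
      intro p hp
      rw [← Finset.add_sum_erase s _ hp]
      have h4 : ∑ q ∈ s.erase p,
          ((inner ℝ p q : ℝ) ^ 2 * ((inner ℝ p q : ℝ) + 3 / 5) ^ 2 * ((inner ℝ p q : ℝ) - 1 / 2)) ≤
          0 := by
        apply Finset.sum_nonpos
        intro q hq
        have h5 := h2 p hp q (Finset.mem_of_mem_erase hq) (Finset.ne_of_mem_erase hq).symm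
        apply mul_nonpos_of_nonneg_of_nonpos
        · positivity
        · linarith
      rw [hin p hp]
      linarith
    refine (Finset.sum_le_sum h3).trans ?_
    rw [Finset.sum_const, nsmul_eq_mul]
  have hc : 11 / 800 * (s.card : ℝ) ^ 2 ≤ (s.card : ℝ) * (32 / 25) := by
    have := hpos 1
    have := hpos 2
    have := hpos 3
    have := hpos 4
    have := hpos 5
    rw [hsum, hzero] at hupper
    linarith
  by_contra hcon
  have h94 : (94 : ℝ) ≤ s.card := by
    have : 94 ≤ s.card := by omega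
    exact_mod_cast this
  nlinarith

end Pool.Agent.Lib.MP_f1379f_gt.FV
end

section
/-!
# MP_f1379f_gt, full Q1: assembly of blocks A and E (row 199)
-/
set_option autoImplicit false

namespace Pool.Agent.Lib.MP_f1379f_gt.FV.AllA

theorem hRED : SpecRED := specRED
theorem hBON : SpecBON := specBON
theorem hGSL : SpecGSL := specGSL
theorem hINV : SpecINV := specINV
theorem hRPR : SpecRPR := specRPR
theorem hLKV : SpecLKV := specLKV
theorem hLKP : SpecLKP := specLKP
theorem hJIN : SpecJIN := specJIN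
theorem hLKS : SpecLKS := specLKS hLKV hLKP hJIN hGSL hINV
theorem hMCP : SpecMCP := specMCP hGSL
theorem hLP6 : SpecLP6 := specLP6
theorem hS27 : SpecS27 := specS27 hLP6
theorem hLNK : SpecLNK := specLNK hRPR hLKV hLKS hMCP hS27
theorem hI0 : SpecI0 := specI0 hBON hLNK
theorem hK4 : SpecK4 := specK4
theorem hIEX : SpecIEX := specIEX hK4
theorem hIN4 : SpecIN4 := specIN4
theorem hCNE : SpecCNE := specCNE EV.All.hLPI EV.All.hPOL EV.All.hCLO EV.All.hROT
theorem hE8V : SpecE8V := specE8V hINV hIN4 hCNE hIEX EV.All.hROT EV.All.hCNT EV.All.hLPI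
  EV.All.hVOL EV.All.hCOV

end Pool.Agent.Lib.MP_f1379f_gt.FV.AllA
end

section
/-!
# MP_f1379f_gt, full Q1: assembly

`frozen_of`: the frozen statement from the certificates (C_X), (C_P), the labelling theorem STAB, L1
and the end game FIN.
-/
set_option autoImplicit false

namespace Pool.Agent.Lib.MP_f1379f_gt.FV

open MeasureTheory Finset

namespace ASBM

theorem sub_ball (U : Finset E) : bal ∩ poly U ⊆ poly U ∩ Metric.ball (0 : E) 2 := by
  rintro y ⟨hy1, hy2⟩
  refine ⟨hy2, ?_⟩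
  rw [mem_ball_zero_iff]
  have h1 : ‖y‖ ^ 2 < 5 / 3 := hy1
  nlinarith [norm_nonneg y]

theorem vol_lt {U : Finset E} (hcon : volume (poly U ∩ Metric.ball (0 : E) 2) < 16) :
    (volume (bal ∩ poly U)).toReal < 16 := by
  have h1 := lt_of_le_of_lt (measure_mono (sub_ball U)) hcon
  have h2 := (ENNReal.toReal_lt_toReal h1.ne_top (by norm_num)).mpr h1
  simpa using h2

theorem w2_lt {U : Finset E} (hU : Adm U)
    (hcon : volume (poly U ∩ Metric.ball (0 : E) 2) < 16) : W2F U < 16 :=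
  lt_of_le_of_lt (AllA.hI0 U hU) (vol_lt hcon)

/-- The input of L1. -/
theorem l1_input (hS4F : SpecS4F) {U : Finset E} {u : E → E} (hU : Adm U)
    (hlab : ∀ e ∈ UE, u e ∈ U) (hinj : Set.InjOn u (UE : Set E))
    (hrr : ∀ e ∈ UE, 4 / 5 < rr (u e)) (hC : CTF U u)
    (hcon : volume (poly U ∩ Metric.ball (0 : E) 2) < 16) :
    gx u ≤ 24 / 1000 ∧
    17 / 1000 * ∑ e ∈ UE, ∑ f ∈ UE.erase e, base (TT (u e) (u f)) * (1 / 2 - TT (u e) (u f)) ≤
      72655 / 10 ^ 7 + 31 / 10 ^ 8 * (108 * gL u + 4032 * gx u) := by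
  have hs := QV.s4_lower
  have hTh : 15.9916 < Th0 := PW.That_ge
  have hP := vol_lt hcon
  have h4F := hS4F U u hU hlab hinj
  have hWo : Wo u = gL u := rfl
  have hXr : Xr u = gx u := rfl
  rw [hWo, hXr] at h4F
  have hW2 : (volume bal).toReal - ∑ v ∈ U, v1 v
        + (1 / 2) * ∑ v ∈ U, ∑ w ∈ U.erase v, max 0 (v2 v w - 9 * s3) = W2 U := rfl
  rw [hW2] at h4F
  have h1rr : ∀ e ∈ UE, 1 - rr (u e) = 5 * gr u e := by
    intro e he
    rw [rr_of_pos (lt_trans (by norm_num) (hrr e he))]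
    unfold gr
    ring
  have hcx : Th0 + 7 / 100 * (5 * gx u) ≤ W2 U := by
    have h1 := hC.cx
    rw [Finset.sum_congr rfl h1rr, ← Finset.mul_sum] at h1
    exact h1
  have hcp := hC.cp
  constructor
  · have h1 := w2_lt hU hcon
    have h2 : W2 U < 16 := h1
    linarith
  · norm_num at h4F hs ⊢
    linarith

/-- The certificates on a labelled configuration. -/
theorem ctf_of {U : Finset E} (hU : Adm U) (hW : W2F U < 16) (hCX : SpecCX) (hCP : SpecCP)
    (hc : UE.card = 240) {u : E → E}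
    (hlab : ∀ e ∈ UE, u e ∈ nearS U) (hinj : Set.InjOn u (UE : Set E)) :
    CTF U u ∧ ∀ v ∈ U, (∀ e ∈ UE, v ≠ u e) → rr v ≤ 7 / 20 := by
  classical
  obtain ⟨hcard, hdic⟩ := near_set U hU hW
  have himg : UE.image u = nearS U := by
    apply Finset.eq_of_subset_of_card_le
    · intro v hv
      obtain ⟨e, he, rfl⟩ := Finset.mem_image.1 hv
      exact hlab e he
    · rw [hcard, Finset.card_image_of_injOn hinj, hc]
  refine ⟨⟨?_, ?_⟩, ?_⟩
  · have h1 := hCX U hU hW
    unfold CXc at h1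
    rw [← himg, Finset.sum_image hinj] at h1
    exact h1
  · have h1 := hCP U hU hW
    unfold CPc at h1
    have h2 : ∑ v ∈ nearS U, ∑ w ∈ (nearS U).erase v, base (TT v w) * (1 / 2 - TT v w) =
        ∑ e ∈ UE, ∑ f ∈ UE.erase e, base (TT (u e) (u f)) * (1 / 2 - TT (u e) (u f)) := by
      rw [← himg, Finset.sum_image hinj]
      refine Finset.sum_congr rfl fun e he => ?_
      have h3 : (UE.image u).erase (u e) = (UE.erase e).image u := by
        ext x
        simp only [Finset.mem_erase, Finset.mem_image]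
        constructor
        · rintro ⟨hx, f, hf, rfl⟩
          exact ⟨f, ⟨fun h => hx (by rw [h]), hf⟩, rfl⟩
        · rintro ⟨f, ⟨hf1, hf2⟩, rfl⟩
          exact ⟨fun h => hf1 (hinj hf2 he h), f, hf2, rfl⟩
      rw [h3, Finset.sum_image fun a ha b hb hab =>
        hinj (Finset.mem_of_mem_erase ha) (Finset.mem_of_mem_erase hb) hab]
    rw [h2] at h1
    exact h1
  · intro v hv hne
    rcases hdic v hv with h | h
    · exfalso
      have h1 : v ∈ nearS U := mem_nearS.2 ⟨hv, h⟩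
      rw [← himg] at h1
      obtain ⟨e, he, h2⟩ := Finset.mem_image.1 h1
      exact hne e he h2.symm
    · exact h

end ASBM

open ASBM in
/-- The frozen statement from the open blocks. -/
theorem frozen_of (hUEF : SpecUEF) (hS4F : SpecS4F) (hFIN : SpecFIN) (hCX : SpecCX) (hCP : SpecCP)
    (hSTAB : SpecSTAB) (hL1 : SpecL1) : Frozen := by
  refine specRED fun U hU => ?_
  by_contra hcon
  push Not at hcon
  have hW := w2_lt hU hcon
  obtain ⟨u, A0, hlab, hinj, hA0⟩ := hSTAB U hU hW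
  obtain ⟨hC, hoth⟩ := ctf_of hU hW hCX hCP hUEF.c240 hlab hinj
  have hlabU : ∀ e ∈ UE, u e ∈ U := fun e he => (mem_nearS.1 (hlab e he)).1
  have hrr : ∀ e ∈ UE, 4 / 5 < rr (u e) := fun e he => (mem_nearS.1 (hlab e he)).2
  have h16 := end_game hFIN U u hU hlabU hinj hrr hoth hC (1 / 4) A0 hA0 ?_
  · exact absurd hcon (not_lt.2 h16)
  · intro A hcfg hgS
    have hvol : volume (poly (U.image A) ∩ Metric.ball (0 : E) 2) < 16 := by
      rw [ISOM.vol_image]
      exact hcon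
    obtain ⟨hx, hs⟩ := l1_input hS4F (ISOM.adm_image A hU) (u := fun e => A (u e))
      (fun e he => Finset.mem_image_of_mem A (hlabU e he))
      (fun e he f hf h => hinj he hf (A.injective h))
      (fun e he => by
        show 4 / 5 < rr (A (u e))
        rw [ISOM.rr_map]
        exact hrr e he) (ISOM.ctf_image A hC) hvol
    exact hL1 _ hcfg hgS hx hs

end Pool.Agent.Lib.MP_f1379f_gt.FV
end

section
/-!
# MP_f1379f_gt, equality case: a cell is never contained in the ball of squared radius 5/3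

A vertex of a Voronoi cell of a packing of unit balls in dimension 8 has squared distance at least
16/9 from the centre, so the part of the cell in the ball `bal` has strictly smaller volume.
-/
set_option autoImplicit false

namespace Pool.Agent.Lib.MP_f1379f_gt.FV

open MeasureTheory Finset Filter Topology

namespace CIRM

/-- At most five constraints are tight at a point of squared norm at most 5/3. -/
theorem tight_card (U : Finset E) (hU : Adm U) (y : E) (hy2 : ‖y‖ ^ 2 ≤ 5 / 3)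
    (T : Finset E) (hTU : T ⊆ U) (hT : ∀ u ∈ T, (inner ℝ u y : ℝ) = 1) : T.card ≤ 5 := by
  classical
  set e : E → E := fun u => (2 / ‖u‖ ^ 2) • u - y with he
  have hpos : ∀ u ∈ T, 0 < ‖u‖ ^ 2 := fun u hu => by
    have := norm_pos_iff.2 (hU.ne u (hTU hu)); positivity
  have hle : ∀ u ∈ T, ‖u‖ ^ 2 ≤ 1 := fun u hu =>
    pow_le_one₀ (norm_nonneg _) (hU.le_one u (hTU hu))
  have hdiag : ∀ u ∈ T, (inner ℝ (e u) (e u) : ℝ) = ‖y‖ ^ 2 := by
    intro u hu
    have h0 : ‖u‖ ≠ 0 := (norm_pos_iff.2 (hU.ne u (hTU hu))).ne'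
    rw [real_inner_self_eq_norm_sq, he]
    simp only [norm_sub_sq_real, norm_smul, real_inner_smul_left, hT u hu, Real.norm_eq_abs,
      mul_pow, sq_abs]
    field_simp
    ring
  have hoff : ∀ u ∈ T, ∀ v ∈ T, u ≠ v → (inner ℝ (e u) (e v) : ℝ) ≤ ‖y‖ ^ 2 - 2 := by
    intro u hu v hv huv
    have h0 := hpos u hu
    have h1 := hpos v hv
    have hs := hU.sep u (hTU hu) v (hTU hv) huv
    have e1 : (inner ℝ (e u) (e v) : ℝ) =
        ‖y‖ ^ 2 - 2 - 2 / (‖u‖ ^ 2 * ‖v‖ ^ 2) *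
          (‖u‖ ^ 2 + ‖v‖ ^ 2 - ‖u‖ ^ 2 * ‖v‖ ^ 2 - 2 * (inner ℝ u v : ℝ)) := by
      rw [he]
      simp only [inner_sub_left, inner_sub_right, real_inner_smul_left, real_inner_smul_right,
        real_inner_self_eq_norm_sq, hT u hu]
      rw [real_inner_comm v y, hT v hv]
      have h0' : ‖u‖ ≠ 0 := (norm_pos_iff.2 (hU.ne u (hTU hu))).ne'
      have h1' : ‖v‖ ≠ 0 := (norm_pos_iff.2 (hU.ne v (hTU hv))).ne'
      field_simp
      ring
    rw [e1]
    have : 0 ≤ 2 / (‖u‖ ^ 2 * ‖v‖ ^ 2) *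
        (‖u‖ ^ 2 + ‖v‖ ^ 2 - ‖u‖ ^ 2 * ‖v‖ ^ 2 - 2 * (inner ℝ u v : ℝ)) :=
      mul_nonneg (by positivity) (by linarith)
    linarith
  have hey : ∀ u ∈ T, 2 - ‖y‖ ^ 2 ≤ (inner ℝ (e u) y : ℝ) := by
    intro u hu
    have h0 := hpos u hu
    rw [he]
    simp only [inner_sub_left, real_inner_smul_left, real_inner_self_eq_norm_sq, hT u hu]
    have : 2 ≤ 2 / ‖u‖ ^ 2 := by
      rw [le_div_iff₀ h0]
      linarith [hle u hu]
    linarith
  set n : ℝ := (T.card : ℝ) with hn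
  have h1 : (inner ℝ (∑ u ∈ T, e u) (∑ u ∈ T, e u) : ℝ) ≤
      n * ‖y‖ ^ 2 + (n ^ 2 - n) * (‖y‖ ^ 2 - 2) := by
    rw [sum_inner]
    simp only [inner_sum]
    have h2 : ∀ u ∈ T, ∑ v ∈ T, (inner ℝ (e u) (e v) : ℝ) ≤
        ‖y‖ ^ 2 + (n - 1) * (‖y‖ ^ 2 - 2) := by
      intro u hu
      rw [← add_sum_erase T _ hu, hdiag u hu]
      have h3 : ∑ v ∈ T.erase u, (inner ℝ (e u) (e v) : ℝ) ≤
          ∑ v ∈ T.erase u, (‖y‖ ^ 2 - 2) :=
        sum_le_sum fun v hv => hoff u hu v (mem_of_mem_erase hv) (ne_of_mem_erase hv).symm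
      rw [sum_const, card_erase_of_mem hu, nsmul_eq_mul,
        Nat.cast_sub (card_pos.2 ⟨u, hu⟩)] at h3
      push_cast at h3
      linarith
    refine (sum_le_sum h2).trans ?_
    rw [sum_const, nsmul_eq_mul]
    nlinarith
  have h2 : n * (2 - ‖y‖ ^ 2) ≤ (inner ℝ (∑ u ∈ T, e u) y : ℝ) := by
    rw [sum_inner]
    have := sum_le_sum hey
    rw [sum_const, nsmul_eq_mul] at this
    exact this
  have h3 : 0 ≤ (inner ℝ (∑ u ∈ T, e u - y) (∑ u ∈ T, e u - y) : ℝ) := real_inner_self_nonneg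
  rw [inner_sub_left, inner_sub_right, inner_sub_right, real_inner_self_eq_norm_sq y,
    real_inner_comm (∑ u ∈ T, e u) y] at h3
  by_contra hc
  push Not at hc
  have hc' : (6 : ℝ) ≤ n := by
    rw [hn]
    exact_mod_cast hc
  nlinarith [mul_nonneg (by linarith : (0:ℝ) ≤ n + 1) (by linarith : (0:ℝ) ≤ 5 / 3 - ‖y‖ ^ 2),
    mul_nonneg (mul_nonneg (by linarith : (0:ℝ) ≤ n) (by linarith : (0:ℝ) ≤ n + 1))
      (by linarith : (0:ℝ) ≤ 5 / 3 - ‖y‖ ^ 2)]

/-- The cell has a point outside the ball. -/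
theorem exists_far (U : Finset E) (hU : Adm U) : ∃ y ∈ poly U, 5 / 3 < ‖y‖ ^ 2 := by
  classical
  by_contra hcon
  push Not at hcon
  have hclosed : IsClosed (poly U) := by
    have : poly U = ⋂ u ∈ U, {y : E | (inner ℝ u y : ℝ) ≤ 1} := by
      ext y; simp [poly]
    rw [this]
    exact isClosed_biInter fun u _ => isClosed_le (by fun_prop) continuous_const
  have hbdd : poly U ⊆ Metric.closedBall (0 : E) 2 := by
    intro y hy
    rw [mem_closedBall_zero_iff]
    have := hcon y hy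
    nlinarith [norm_nonneg y]
  have hcomp : IsCompact (poly U) :=
    (isCompact_closedBall (0 : E) 2).of_isClosed_subset hclosed hbdd
  have hne : (poly U).Nonempty := ⟨0, fun u _ => by rw [inner_zero_right]; norm_num⟩
  obtain ⟨y, hy, hmax⟩ := hcomp.exists_isMaxOn hne (f := fun y => ‖y‖ ^ 2) (by fun_prop)
  set T : Finset E := U.filter fun u => (inner ℝ u y : ℝ) = 1 with hT
  have hcard : T.card ≤ 5 := tight_card U hU y (hcon y hy) T (filter_subset _ _) fun u hu =>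
    (mem_filter.1 hu).2
  have hspan : Submodule.span ℝ (T : Set E) ≠ ⊤ := by
    intro h
    have h1 : Module.finrank ℝ (Submodule.span ℝ (T : Set E)) ≤ T.card :=
      finrank_span_finset_le_card T
    rw [h, finrank_top] at h1
    simp [E] at h1
    omega
  obtain ⟨d, hd, hd0⟩ : ∃ d ∈ (Submodule.span ℝ (T : Set E))ᗮ, d ≠ 0 := by
    have h1 : (Submodule.span ℝ (T : Set E))ᗮ ≠ ⊥ := by
      intro h
      exact hspan ((Submodule.orthogonal_eq_bot_iff (K := Submodule.span ℝ (T : Set E))).1 h)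
    exact Submodule.exists_mem_ne_zero_of_ne_bot h1
  have hdT : ∀ u ∈ T, (inner ℝ u d : ℝ) = 0 := fun u hu =>
    hd u (Submodule.subset_span hu)
  have hev : ∀ s : ℝ, ∀ᶠ t : ℝ in 𝓝 0, y + (s * t) • d ∈ poly U := by
    intro s
    have h1 : ∀ u ∈ U, ∀ᶠ t : ℝ in 𝓝 0, (inner ℝ u (y + (s * t) • d) : ℝ) ≤ 1 := by
      intro u hu
      by_cases hu1 : (inner ℝ u y : ℝ) = 1
      · have h2 := hdT u (mem_filter.2 ⟨hu, hu1⟩)
        refine Eventually.of_forall fun t => ?_
        rw [inner_add_right, real_inner_smul_right, h2, hu1]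
        simp
      · have h2 : (inner ℝ u y : ℝ) < 1 := lt_of_le_of_ne (hy u hu) hu1
        have h3 : Continuous fun t : ℝ => (inner ℝ u (y + (s * t) • d) : ℝ) := by fun_prop
        have h4 : (inner ℝ u (y + (s * 0) • d) : ℝ) < 1 := by simpa using h2
        exact (h3.continuousAt.eventually_lt continuousAt_const h4).mono fun t ht => ht.le
    have h2 := (Finset.eventually_all U).2 h1
    exact h2.mono fun t ht u hu => ht u hu
  obtain ⟨t, ⟨ht1, ht2⟩, ht0⟩ := (((hev 1).and (hev (-1))).filter_mono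
    (nhdsWithin_le_nhds (s := {0}ᶜ))).and self_mem_nhdsWithin |>.exists
  have h1 := hmax ht1
  have h2 := hmax ht2
  simp only [Set.mem_ofPred_eq] at h1 h2
  have h3 : ‖y + (1 * t) • d‖ ^ 2 + ‖y + (-1 * t) • d‖ ^ 2 = 2 * ‖y‖ ^ 2 + 2 * (t ^ 2 * ‖d‖ ^ 2) := by
    rw [norm_add_sq_real, norm_add_sq_real, norm_smul, norm_smul, real_inner_smul_right,
      real_inner_smul_right, Real.norm_eq_abs, Real.norm_eq_abs, mul_pow, mul_pow, sq_abs, sq_abs]
    ring
  have h4 : 0 < t ^ 2 * ‖d‖ ^ 2 := by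
    have a1 : t ≠ 0 := ht0
    have a2 := norm_pos_iff.2 hd0
    positivity
  linarith

/-- A point of the cell outside the ball, in general position. -/
theorem exists_far' (U : Finset E) (hU : Adm U) :
    ∃ y : E, 5 / 3 < ‖y‖ ^ 2 ∧ ‖y‖ < 2 ∧ ∀ u ∈ U, (inner ℝ u y : ℝ) < 1 := by
  obtain ⟨y, hy, hn⟩ := exists_far U hU
  have hr : 0 < ‖y‖ := by
    by_contra h
    push Not at h
    have : ‖y‖ = 0 := le_antisymm h (norm_nonneg _)
    rw [this] at hn
    norm_num at hn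
  have hsq : Real.sqrt (5 / 3) < ‖y‖ := by
    rw [Real.sqrt_lt' hr]
    exact hn
  have hs2 : Real.sqrt (5 / 3) < 2 := by
    rw [Real.sqrt_lt' (by norm_num)]
    norm_num
  obtain ⟨ρ, hρ1, hρ2⟩ := exists_between (lt_min hsq hs2)
  have hρ3 : ρ < ‖y‖ := lt_of_lt_of_le hρ2 (min_le_left _ _)
  have hρ4 : ρ < 2 := lt_of_lt_of_le hρ2 (min_le_right _ _)
  have hρ0 : 0 < ρ := lt_of_le_of_lt (Real.sqrt_nonneg _) hρ1
  have hnorm : ‖(ρ / ‖y‖) • y‖ = ρ := by
    rw [norm_smul, Real.norm_eq_abs, abs_of_pos (by positivity)]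
    field_simp
  refine ⟨(ρ / ‖y‖) • y, ?_, ?_, ?_⟩
  · rw [hnorm]
    have := (Real.sqrt_lt' hρ0).1 hρ1
    exact this
  · rw [hnorm]; exact hρ4
  · intro u hu
    rw [real_inner_smul_right]
    have h1 := hy u hu
    have h2 : ρ / ‖y‖ < 1 := (div_lt_one hr).2 hρ3
    have h3 : 0 < ρ / ‖y‖ := by positivity
    nlinarith

end CIRM

open CIRM in
/-- If the volume of the cell is at most 16, then the part in the ball has volume less than 16. -/
theorem bal_lt {U : Finset E} (hU : Adm U) (h16 : volume (poly U ∩ Metric.ball (0 : E) 2) ≤ 16) :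
    (volume (bal ∩ poly U)).toReal < 16 := by
  obtain ⟨y, hy1, hy2, hy3⟩ := exists_far' U hU
  set O : Set E := {y | 5 / 3 < ‖y‖ ^ 2} ∩ {y | ‖y‖ < 2} ∩ ⋂ u ∈ U, {y | (inner ℝ u y : ℝ) < 1}
    with hO
  have hopen : IsOpen O := by
    refine ((isOpen_lt continuous_const (by fun_prop)).inter
      (isOpen_lt (by fun_prop) continuous_const)).inter ?_
    exact isOpen_biInter_finset fun u _ => isOpen_lt (by fun_prop) continuous_const
  have hmem : y ∈ O := ⟨⟨hy1, hy2⟩, by simpa using hy3⟩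
  have hpos : 0 < volume O := hopen.measure_pos volume ⟨y, hmem⟩
  have hdisj : Disjoint (bal ∩ poly U) O := by
    rw [Set.disjoint_left]
    rintro z ⟨hz1, _⟩ ⟨⟨hz2, _⟩, _⟩
    have a1 : ‖z‖ ^ 2 < 5 / 3 := hz1
    have a2 : 5 / 3 < ‖z‖ ^ 2 := hz2
    linarith
  have hsub : (bal ∩ poly U) ∪ O ⊆ poly U ∩ Metric.ball (0 : E) 2 := by
    refine Set.union_subset (ASBM.sub_ball U) ?_
    rintro z ⟨⟨_, hz2⟩, hz3⟩
    refine ⟨fun u hu => ?_, by rw [mem_ball_zero_iff]; exact hz2⟩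
    have := Set.mem_iInter₂.1 hz3 u hu
    exact le_of_lt this
  have h1 : volume (bal ∩ poly U) + volume O ≤ 16 := by
    rw [← measure_union hdisj hopen.measurableSet]
    exact (measure_mono hsub).trans h16
  have hfin : volume (bal ∩ poly U) ≠ ⊤ :=
    ne_top_of_le_ne_top (by norm_num : (16 : ENNReal) ≠ ⊤) (le_self_add.trans h1)
  have h2 : volume (bal ∩ poly U) < 16 := by
    refine lt_of_lt_of_le ?_ h1
    exact ENNReal.lt_add_right hfin hpos.ne'
  have h3 := (ENNReal.toReal_lt_toReal h2.ne_top (by norm_num)).mpr h2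
  simpa using h3

end Pool.Agent.Lib.MP_f1379f_gt.FV
end

section
/-!
# MP_f1379f_gt, equality case: the final comparison with `≤ 16` in place of `< 16`

If the volume is at most 16 then all radial defects vanish: the 240 labelled points are contacts.
-/
set_option autoImplicit false
set_option linter.constructorNameAsVariable false

namespace Pool.Agent.Lib.MP_f1379f_gt.FV

open MeasureTheory

/-- The final inequality in numbers, equality version. -/
theorem arithE {P O V W T Th N x L s A B S : ℝ} (hPO : P + O ≤ 16)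
    (hx0 : 0 ≤ x) (hL0 : 0 ≤ L)
    (h4 : W + 241920 * s - 31 / 10 ^ 8 * (108 * L + 4032 * x) ≤ P)
    (hcell : 16 = T + 241920 * s + V) (hO : V - N ≤ O)
    (hT : T = Th + 240 * A + 6720 * B) (hA : A ≤ 2 / 10 ^ 8) (hB : B ≤ 2 / 10 ^ 8)
    (hcx : Th + 7 / 100 * (5 * x) ≤ W)
    (hL : L ≤ 2) (hNhi : N ≤ 183 / 1000 * S) (hS : S ≤ 1 / 50) (hS80 : x ≤ 1 / 80 → S ≤ 3 / 200)
    (hlo : x ≤ 1 / 100 → N ≤ x / 70 + 8 / 10000 * L ∧
      Th + (240 * A + 6720 * B + x / 20 + 7 / 5000 * L) ≤ W) : x = 0 := by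
  rcases le_total x (1 / 100) with h | h
  · obtain ⟨h1, h2⟩ := hlo h
    norm_num at h4
    linarith
  · exfalso
    rcases le_total x (1 / 80) with h' | h'
    · have h3 := hS80 h'
      norm_num at h4 hA hB
      linarith
    · norm_num at h4 hA hB
      linarith

open FINM in
theorem specFINE (hUEF : SpecUEF) (hTLC : SpecTLC) (hE8V : SpecE8V) (hGBA : SpecGBA)
    (hHXC : SpecHXC) (hHEX : SpecHEX) (hSTG2 : SpecSTG2) (hNSM : SpecNSM) (hNSM2 : SpecNSM2)
    (hCEX : SpecCEX)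
    (hXOU : SpecXOU) (hS4F : SpecS4F) (hI0 : SpecI0)
    (U V : Finset E) (u : E → E) (hAdm : Adm U) (hEXT : EXT U V u) (hu : CFG u)
    (hinj : Set.InjOn u (UE : Set E))
    (hrr : ∀ e ∈ UE, 4 / 5 < rr (u e)) (hCTF : CTF U u) (hS : gS u ≤ 9 / 100)
    (hcon : volume (poly U ∩ Metric.ball (0 : E) 2) ≤ 16) : gx u = 0 := by
  classical
  have hr0 := hGBA.r0 u hu
  have hx0 : 0 ≤ gx u := Finset.sum_nonneg hr0
  have hL0 : 0 ≤ gL u := gL_nonneg hUEF hGBA hu
  have hs := QV.s4_lower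
  have hTh : 15.9916 < Th0 := PW.That_ge
  -- volumes
  have hP : (volume (bal ∩ poly U)).toReal < 16 := bal_lt hAdm hcon
  have h4F := hS4F U u hAdm hEXT.lab hinj
  have hWo : Wo u = gL u := rfl
  have hXr : Xr u = gx u := rfl
  rw [hWo, hXr] at h4F
  have hW2 : (volume bal).toReal - ∑ v ∈ U, v1 v
        + (1 / 2) * ∑ v ∈ U, ∑ w ∈ U.erase v, max 0 (v2 v w - 9 * s3) = W2 U := rfl
  rw [hW2] at h4F
  have h1rr : ∀ e ∈ UE, 1 - rr (u e) = 5 * gr u e := by
    intro e he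
    rw [rr_of_pos (lt_trans (by norm_num) (hrr e he))]
    unfold gr
    ring
  have hcx : Th0 + 7 / 100 * (5 * gx u) ≤ W2 U := by
    have h1 := hCTF.cx
    rw [Finset.sum_congr rfl h1rr, ← Finset.mul_sum] at h1
    exact h1
  have hx' : gx u ≤ 24 / 1000 := by
    have h1 := hI0 U hAdm
    rw [hW2] at h1
    linarith
  have hxL : 7 / 20 * gx u ≤ 72655 / 10 ^ 7 + 31 / 10 ^ 8 * (108 * gL u + 4032 * gx u) := by
    norm_num at h4F hs ⊢
    linarith
  -- the certificate (C_P)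
  have hC : 17 / 1000 * ∑ e ∈ UE, ∑ f ∈ nb e,
      base (TT (u e) (u f)) * (1 / 2 - TT (u e) (u f)) ≤
        72655 / 10 ^ 7 + 31 / 10 ^ 8 * (108 * gL u + 4032 * gx u) := by
    have h1 := hCTF.cp
    have h2 : ∑ e ∈ UE, ∑ f ∈ nb e, base (TT (u e) (u f)) * (1 / 2 - TT (u e) (u f)) ≤
        ∑ e ∈ UE, ∑ f ∈ UE.erase e, base (TT (u e) (u f)) * (1 / 2 - TT (u e) (u f)) := by
      refine Finset.sum_le_sum fun e he => ?_
      refine Finset.sum_le_sum_of_subset_of_nonneg ?_ ?_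
      · intro f hf
        obtain ⟨hfU, hne⟩ := nb_ne hUEF hf
        rw [Finset.mem_erase]
        exact ⟨hne.symm, hfU⟩
      · intro f hf _
        have hfU := Finset.mem_of_mem_erase hf
        have hne := (Finset.ne_of_mem_erase hf).symm
        have e1 := TT_le_half (hu.sep e he f hfU hne)
        have e2 := TT_lower (lt_trans (by norm_num) (hrr e he))
          (lt_trans (by norm_num) (hrr f hfU))
        have e3 := rr_le_one (hu.le_one e he)
        have e4 := rr_le_one (hu.le_one f hfU)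
        have e5 : 0 ≤ 2 / 25 * (1 - rr (u e)) * (1 - rr (u f)) := by
          have a1 : 0 ≤ 1 - rr (u e) := by linarith
          have a2 : 0 ≤ 1 - rr (u f) := by linarith
          have a3 := mul_nonneg a1 a2
          linarith
        exact mul_nonneg (base_nonneg (by linarith)) (by linarith)
    norm_num at h4F hs ⊢
    linarith
  -- stage 1'
  obtain ⟨hx, hS50, hS80, hS100⟩ := hSTG2 u hu hS hx' hxL hC
  have hd : ∀ e ∈ UE, ‖u e - e‖ ≤ 3 / 20 := by
    intro e he
    have h1 : ‖u e - e‖ ^ 2 ≤ gS u :=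
      Finset.single_le_sum (f := fun e => ‖u e - e‖ ^ 2) (fun i _ => sq_nonneg _) he
    have h2 : ‖u e - e‖ ^ 2 ≤ (3 / 20) ^ 2 := by
      refine le_trans h1 (le_trans hS50 (by norm_num))
    exact le_of_sq_le_sq h2 (by norm_num)
  have hsub2 : poly U ⊆ Metric.ball (0 : E) 2 := by
    intro y hy
    refine hTLC.sub u (fun e he => le_trans (hd e he) (by norm_num)) ?_
    intro e he
    exact hy _ (hEXT.lab e he)
  -- contact strains
  have hWS : ∀ e ∈ UE, ∀ f ∈ nb e, gw u e f ≤ gx u + 3 / 2 * gS u := by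
    intro e he f hf
    have h1 := hHEX u hu e he f hf
    have h2 := hS_le hHXC u he hf
    linarith
  have hW : ∀ e ∈ UE, ∀ f ∈ nb e, gw u e f ≤ 11 / 200 := by
    intro e he f hf
    have h1 := hWS e he f hf
    linarith
  have hL2 : gL u ≤ 2 := by
    have h1 := contact_lower hUEF hGBA hu hW (by norm_num)
    have h2 : base (1 / 2 - 11 / 200) = 81771405849 / 320000000000 := by
      unfold base
      norm_num
    have h3 : gx u ^ 2 ≤ (213 / 10000) ^ 2 := pow_le_pow_left₀ hx0 hx 2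
    rw [h2] at h1
    norm_num at h3 hC
    linarith
  -- volumes outside the ball
  have hO := hXOU U V u hEXT fun e he => le_trans (hd e he) (by norm_num)
  have hPO : (volume (bal ∩ poly U)).toReal + (volume (poly U \ bal)).toReal ≤ 16 := by
    have h1 : volume (poly U) ≤ 16 := by
      rwa [Set.inter_eq_left.mpr hsub2] at hcon
    have h1t : volume (poly U) ≠ ⊤ := ne_top_of_le_ne_top (by norm_num) h1
    have h2 : volume (poly U ∩ bal) + volume (poly U \ bal) = volume (poly U) :=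
      measure_inter_add_sdiff _ BONM.meas_bal
    have f1 : volume (poly U ∩ bal) ≠ ⊤ :=
      ne_top_of_le_ne_top h1t (measure_mono Set.inter_subset_left)
    have f2 : volume (poly U \ bal) ≠ ⊤ :=
      ne_top_of_le_ne_top h1t (measure_mono Set.sdiff_subset)
    rw [Set.inter_comm, ← ENNReal.toReal_add f1 f2, h2]
    have h3 := ENNReal.toReal_mono (by norm_num : (16 : ENNReal) ≠ ⊤) h1
    simpa using h3
  have hT : T0 = Th0 + 240 * (801889 / 10 ^ 7 - c1) + 6720 * (GG - 5833 / 10 ^ 7) := by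
    unfold T0 Th0
    ring
  refine arithE (N := ∑ e ∈ UE, (204 / 5000 * ‖del u e‖ ^ 2 + 106 / 125 * ‖del u e‖ ^ 4)
    + 1 / 8 * gS u) hPO hx0 hL0 h4F hE8V.cell ?_ hT PW.chat_bd.2 PW.Ghat_bd.2 hcx hL2
    (hNSM2 u hu hS50) hS50 hS80 ?_
  · unfold gS
    linarith
  · intro hx1
    refine ⟨hNSM.lo u hu (hS100 hx1) hx1, ?_⟩
    have hcert := specCERT U hAdm
    rw [hW2] at hcert
    have hcex := hCEX u hu hx1 fun e he f hf => by
      have h1 := hWS e he f hf
      have h2 := hS100 hx1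
      linarith
    have hA := PW.chat_bd.1
    have hB := PW.Ghat_bd.1
    have g1 := sum_lab (g := fun v => (801889 / 10 ^ 7 - c1) * rr v ^ 3
      + 12 / 1000 * (rr v ^ 3 * (1 - rr v))) hEXT.lab hinj fun v hv => by
        have a1 := rr_nonneg v
        have a2 := rr_le_one (hAdm.le_one v hv)
        have a3 := pow_nonneg a1 3
        have a4 := mul_nonneg hA a3
        have a5 := mul_nonneg a3 (by linarith : (0 : ℝ) ≤ 1 - rr v)
        show 0 ≤ (801889 / 10 ^ 7 - c1) * rr v ^ 3 + 12 / 1000 * (rr v ^ 3 * (1 - rr v))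
        linarith
    have g2 := sum_lab2 hUEF (g := fun v w => (GG - 5833 / 10 ^ 7) *
        (rr v ^ 3 * rr w ^ 3 * EE (TT v w)) + rr v ^ 4 * rr w ^ 4 * psi (TT v w))
        hEXT.lab hinj fun v hv w hw hvw => by
      show 0 ≤ (GG - 5833 / 10 ^ 7) * (rr v ^ 3 * rr w ^ 3 * EE (TT v w))
        + rr v ^ 4 * rr w ^ 4 * psi (TT v w)
      rcases (rr_nonneg v).eq_or_lt with h0 | h0
      · rw [← h0]; simp
      rcases (rr_nonneg w).eq_or_lt with h1 | h1
      · rw [← h1]; simp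
      have b1 := rr_le_one (hAdm.le_one v hv)
      have b2 := rr_le_one (hAdm.le_one w hw)
      have b3 := TT_lower h0 h1
      have b4 := TT_le_half (hAdm.sep v hv w hw hvw)
      have b5 : 0 ≤ 2 / 25 * (1 - rr v) * (1 - rr w) := by
        have a1 : 0 ≤ 1 - rr v := by linarith
        have a2 : 0 ≤ 1 - rr w := by linarith
        have a3 := mul_nonneg a1 a2
        linarith
      have b6 : -1 ≤ TT v w := by linarith
      have b7 := EE_nonneg b6
      have b8 := psi_nonneg b6 b4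
      have c1 := mul_nonneg hB (mul_nonneg (mul_nonneg (pow_nonneg h0.le 3)
        (pow_nonneg h1.le 3)) b7)
      have c2 := mul_nonneg (mul_nonneg (pow_nonneg h0.le 4) (pow_nonneg h1.le 4)) b8
      linarith
    unfold Th0
    linarith

end Pool.Agent.Lib.MP_f1379f_gt.FV
end
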