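import Pool.Agent.Lib.MP_f1379f_gt.FV.CZn0
import Pool.Agent.Lib.MP_f1379f_gt.FV.CZn1
import Pool.Agent.Lib.MP_f1379f_gt.FV.CZc
import Pool.Agent.Lib.MP_f1379f_gt.FV.CZd
import Pool.Agent.Lib.MP_f1379f_gt.FV.CZe
import Pool.Agent.Lib.MP_f1379f_gt.FV.CZf
import Pool.Agent.Lib.MP_f1379f_gt.FV.CZg
import Pool.Agent.Lib.MP_f1379f_gt.FV.CZh
import Pool.Agent.Lib.MP_f1379f_gt.FV.CZi
import Pool.Agent.Lib.MP_f1379f_gt.FV.CZVn
import Pool.Agent.Lib.MP_f1379f_gt.FV.CZVf
import Pool.Agent.Lib.MP_f1379f_gt.FV.CEX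
import Pool.Agent.Lib.MP_f1379f_gt.FV.NRP
import Pool.Agent.Lib.MP_f1379f_gt.FV.SNF
import Pool.Agent.Lib.MP_f1379f_gt.FV.NRK
import Pool.Agent.Lib.MP_f1379f_gt.FV.CMB
import Pool.Agent.Lib.MP_f1379f_gt.FV.RBD
import Pool.Agent.Lib.MP_f1379f_gt.FV.TRP
import Pool.Agent.Lib.MP_f1379f_gt.FV.SEL
import Pool.Agent.Lib.MP_f1379f_gt.FV.GEO
import Pool.Agent.Lib.MP_f1379f_gt.FV.SLC
import Pool.Agent.Lib.MP_f1379f_gt.EQ.FNE
import Pool.Agent.Lib.MP_f1379f_gt.EQ.RDE
import Pool.Agent.Lib.MP_f1379f_gt.EQ.EQC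

section
/-!
# MP_f1379f_gt, full Q1: Certificate (C_X2): the radii of the near points, constant 745/10000.
-/
set_option autoImplicit false
set_option linter.style.longLine false
set_option linter.unusedSimpArgs false

namespace Pool.Agent.Lib.MP_f1379f_gt.FV

open MeasureTheory Finset

namespace CZ

/-- The pair slack (zero). -/
noncomputable def PS (_ : ℝ) : ℝ := 0

lemma PS_eq (T : ℝ) (_ : T ≤ 1 / 2) : PS T = 0 := rfl

/-- The lower chart. -/
theorem low (x y T : ℝ) (hx0 : 0 ≤ x) (hx1 : x ≤ 1) (hy0 : 0 ≤ y) (hy1 : y ≤ 1)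
    (hlo : -1 + (x + y) / 5 + 2 / 25 * x * y ≤ T) (h2 : T ≤ -1 / 2) :
    ∃ v, 0 ≤ v ∧ v ≤ 1 ∧ L.TL x y v = T := by
  have hxy : x * y ≤ 1 := by nlinarith
  have hden : 0 < 1 / 2 - 1 / 5 * (x + y) - 2 / 25 * (x * y) := by linarith
  refine ⟨(-1 / 2 - T) / (1 / 2 - 1 / 5 * (x + y) - 2 / 25 * (x * y)), ?_, ?_, ?_⟩
  · exact div_nonneg (by linarith) hden.le
  · rw [div_le_one hden]; linarith
  · unfold L.TL
    rw [div_mul_cancel₀ _ hden.ne']
    ring

/-- Near and near. -/
theorem good_nn (x y T : ℝ) (hx0 : 0 ≤ x) (hx1 : x ≤ 1) (hy0 : 0 ≤ y) (hy1 : y ≤ 1)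
    (hlo : -1 + (x + y) / 5 + 2 / 25 * x * y ≤ T) (hhi : T ≤ 1 / 2) (hx : x ≤ (7 / 60)) (hy : y ≤ (7 / 60)) :
    PG.Good7 (K3 x y T + PS T) x y T := by
  rcases le_total T (-1 / 2) with h2 | h2
  · obtain ⟨v, hv0, hv1, hT⟩ := low x y T hx0 hx1 hy0 hy1 hlo h2
    have h3 := gr.region x y v (by linarith) (by linarith) (by linarith) (by linarith) (by linarith) (by linarith)
    rw [hT] at h3
    rw [PS_eq T (by linarith), add_zero]
    exact h3
  rcases le_total T ((3 / 10)) with h3 | h3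
  · rw [PS_eq T (by linarith), add_zero]
    exact n0r.region x y T (by linarith) (by linarith) (by linarith) (by linarith) (by linarith) (by linarith)
  rw [PS_eq T (by linarith), add_zero]
  exact n1r.region x y T (by linarith) (by linarith) (by linarith) (by linarith) (by linarith) (by linarith)

/-- Region good_fn. -/
theorem good_fn (x y T : ℝ) (hx0 : 0 ≤ x) (hx1 : x ≤ 1) (hy0 : 0 ≤ y) (hy1 : y ≤ 1)
    (hlo : -1 + (x + y) / 5 + 2 / 25 * x * y ≤ T) (hhi : T ≤ 1 / 2) (hx : 13 / 20 ≤ x) (hy : y ≤ (7 / 60)) :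
    PG.Good7 (K3 x y T) x y T := by
  rcases le_total T ((3 / 10)) with h1 | h1
  · rcases le_total T (-1 / 2) with h2 | h2
    · obtain ⟨v, hv0, hv1, hT⟩ := low x y T hx0 hx1 hy0 hy1 hlo h2
      have := hr.region x y v (by linarith) (by linarith) (by linarith) (by linarith) (by linarith) (by linarith)
      rw [hT] at this
      exact this
    · exact cr.region x y T (by linarith) (by linarith) (by linarith) (by linarith) (by linarith) (by linarith)
  · exact dr.region x y T (by linarith) (by linarith) (by linarith) (by linarith) (by linarith) (by linarith)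

/-- Region good_ff. -/
theorem good_ff (x y T : ℝ) (hx0 : 0 ≤ x) (hx1 : x ≤ 1) (hy0 : 0 ≤ y) (hy1 : y ≤ 1)
    (hlo : -1 + (x + y) / 5 + 2 / 25 * x * y ≤ T) (hhi : T ≤ 1 / 2) (hx : 13 / 20 ≤ x) (hy : 13 / 20 ≤ y) :
    PG.Good7 (K3 x y T) x y T := by
  rcases le_total T ((3 / 10)) with h1 | h1
  · rcases le_total T (-1 / 2) with h2 | h2
    · obtain ⟨v, hv0, hv1, hT⟩ := low x y T hx0 hx1 hy0 hy1 hlo h2
      have := ir.region x y v (by linarith) (by linarith) (by linarith) (by linarith) (by linarith) (by linarith)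
      rw [hT] at this
      exact this
    · exact er.region x y T (by linarith) (by linarith) (by linarith) (by linarith) (by linarith) (by linarith)
  · exact fr.region x y T (by linarith) (by linarith) (by linarith) (by linarith) (by linarith) (by linarith)

/-- Near and far. -/
theorem good_nf (x y T : ℝ) (hx0 : 0 ≤ x) (hx1 : x ≤ 1) (hy0 : 0 ≤ y) (hy1 : y ≤ 1)
    (hlo : -1 + (x + y) / 5 + 2 / 25 * x * y ≤ T) (hhi : T ≤ 1 / 2) (hx : x ≤ (7 / 60)) (hy : 13 / 20 ≤ y) :
    PG.Good7 (K3 x y T) x y T := by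
  have h := good_fn y x T hy0 hy1 hx0 hx1 (by linarith) hhi hy hx
  rw [K3_symm y x] at h
  exact PG.Good7_symm h

/-- The one-body inequality, near. -/
theorem one_n (x : ℝ) (hx0 : 0 ≤ x) (hx1 : x ≤ (7 / 60)) :
    (1 - x) ^ 3 * PW.VV x + 1 / 2 * ((1 - x) ^ 6 *
      Kt 11 4 cA x x (1 - 2 / 5 * x) ((1 - 2 / 5 * x) * (1 - 2 / 5 * x))) + (-((23 / 1000)) + (149 / 2000) * x) ≤
      240 * ((1 - x) ^ 3 * ∑ i ∈ range 4, cA 0 i 0 * x ^ i) := by
  have h1 := Vnr.region x (by linarith) (by linarith)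
  linarith

/-- The one-body inequality, far. -/
theorem one_f (x : ℝ) (hx0 : 13 / 20 ≤ x) (hx1 : x ≤ 1) :
    (1 - x) ^ 3 * PW.VV x + 1 / 2 * ((1 - x) ^ 6 *
      Kt 11 4 cA x x (1 - 2 / 5 * x) ((1 - 2 / 5 * x) * (1 - 2 / 5 * x))) + 0 ≤
      240 * ((1 - x) ^ 3 * ∑ i ∈ range 4, cA 0 i 0 * x ^ i) := by
  have h1 := Vfr.region x (by linarith) (by linarith)
  have h2 : (1 - x) ^ 3 * (PW.VV x + 1 / 2 * ((1 - x) ^ 3 *
      Kt 11 4 cA x x (1 - 2 / 5 * x) ((1 - 2 / 5 * x) * (1 - 2 / 5 * x)))) ≤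
      (1 - x) ^ 3 * (240 * ∑ i ∈ range 4, cA 0 i 0 * x ^ i) :=
    mul_le_mul_of_nonneg_left h1 (pow_nonneg (by linarith) 3)
  have e1 : (1 - x) ^ 6 = (1 - x) ^ 3 * (1 - x) ^ 3 := by ring
  rw [e1]
  linarith

end CZ

open CZ in
/-- **Certificate (C_X2): the radii of the near points, constant 745/10000.** -/
theorem certCZ (U : Finset E) (hU : Adm U) (S : Finset E) (hSU : S ⊆ U) (hcard : S.card = 240)
    (hS : ∀ u ∈ S, 1 - rr u ≤ (7 / 60)) (hF : ∀ u ∈ U, u ∉ S → rr u ≤ 7 / 20) :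
    ((volume bal).toReal - 240 * (801889 / 10 ^ 7) + 6720 * (5833 / 10 ^ 7))
      + (149 / 2000) * ∑ u ∈ S, (1 - rr u)
      + 1 / 2 * ∑ u ∈ S, ∑ v ∈ S.erase u, PS (TT u v) ≤ W2F U := by
  classical
  have h := asm7 U hU 11 4 4 cw cL cw_nonneg cA (fun _ _ _ => rfl)
    (fun u => if u ∈ S then -((23 / 1000)) + (149 / 2000) * (1 - rr u) else 0)
    (fun u v => if u ∈ S ∧ v ∈ S then PS (TT u v) else 0)
    (by
      intro u hu v hv _ x y T c
      have e := c.hx
      have e' := c.hy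
      have e'' := c.hT
      by_cases h1 : u ∈ S <;> by_cases h2 : v ∈ S
      · have a1 := hS u h1
        have a2 := hS v h2
        simp only [h1, h2, and_self, if_true]
        rw [← e'']
        exact good_nn x y T c.x0 c.x1.le c.y0 c.y1.le c.lo c.hi (by linarith) (by linarith)
      · have a1 := hS u h1
        have a2 := hF v hv h2
        rw [if_neg (by tauto), add_zero]
        exact good_nf x y T c.x0 c.x1.le c.y0 c.y1.le c.lo c.hi (by linarith) (by linarith)
      · have a1 := hF u hu h1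
        have a2 := hS v h2
        rw [if_neg (by tauto), add_zero]
        exact good_fn x y T c.x0 c.x1.le c.y0 c.y1.le c.lo c.hi (by linarith) (by linarith)
      · have a1 := hF u hu h1
        have a2 := hF v hv h2
        rw [if_neg (by tauto), add_zero]
        exact good_ff x y T c.x0 c.x1.le c.y0 c.y1.le c.lo c.hi (by linarith) (by linarith))
    (by
      intro u _ v _ _ h
      rw [if_neg]
      rintro ⟨h1, h2⟩
      have a1 := hS u h1
      have a2 := hS v h2
      rcases h with h | h <;> linarith)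
    (by
      intro u hu x hx hx0 hx1
      by_cases h1 : u ∈ S
      · have a1 := hS u h1
        rw [if_pos h1, show 1 - rr u = x from hx.symm]
        exact one_n x hx0 (by linarith)
      · have a1 := hF u hu h1
        rw [if_neg h1]
        exact one_f x (by linarith) hx1.le)
    (by
      intro u _ hu
      by_cases h1 : u ∈ S
      · have a1 := hS u h1
        linarith
      · rw [if_neg h1])
  have h0 : 28800 * cA 0 0 0 = 240 * (801889 / 10 ^ 7) - 6720 * (5833 / 10 ^ 7)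
      - 240 * ((23 / 1000)) := by
    unfold cA
    simp only [sum_range_succ, sum_range_zero, cw, cL, cL0]
    norm_num
  have hfil : U.filter (fun u => u ∈ S) = S := by
    ext u
    rw [mem_filter]
    exact ⟨fun h => h.2, fun h => ⟨hSU h, h⟩⟩
  have h1 : ∑ u ∈ U, (if u ∈ S then (-((23 / 1000)) + (149 / 2000) * (1 - rr u) : ℝ) else 0) = -(240 * ((23 / 1000))) + (149 / 2000) * ∑ u ∈ S, (1 - rr u) := by
    rw [← sum_filter, hfil]
    rw [sum_add_distrib, ← mul_sum, sum_const, hcard]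
    norm_num
  have h2 : ∑ u ∈ U, ∑ v ∈ U.erase u, (if u ∈ S ∧ v ∈ S then PS (TT u v) else 0) =
      ∑ u ∈ S, ∑ v ∈ S.erase u, PS (TT u v) := by
    conv_rhs => rw [← hfil]
    rw [sum_filter]
    apply sum_congr rfl
    intro u hu
    split_ifs with h3
    · rw [← filter_erase, sum_filter]
      apply sum_congr rfl
      intro v hv
      simp only [h3, true_and]
    · apply sum_eq_zero
      intro v hv
      rw [if_neg (by tauto)]
  rw [h0, h1, h2] at h
  linarith

end Pool.Agent.Lib.MP_f1379f_gt.FV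
end

section
/-!
# MP_f1379f_gt, full Q1: the radii of the 240 near points, constant 745/10000
-/
set_option autoImplicit false

namespace Pool.Agent.Lib.MP_f1379f_gt.FV

open MeasureTheory Finset

/-- The radial certificate on the near points with the improved constant. -/
theorem near_x2 (U : Finset E) (hU : Adm U) (hW : W2F U < 16) :
    ((volume bal).toReal - 240 * (801889 / 10 ^ 7) + 6720 * (5833 / 10 ^ 7))
      + 745 / 10000 * ∑ u ∈ nearS U, (1 - rr u) ≤ W2F U := by
  obtain ⟨hcard, hdom⟩ := near_set U hU hW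
  obtain ⟨hx, -⟩ := near_x U hU hW
  have h := certCZ U hU (nearS U) (fun u hu => (mem_nearS.1 hu).1) hcard
    (fun u hu => (hx u hu).le)
    (fun u hu hn => by
      rcases hdom u hu with h1 | h1
      · exact absurd (mem_nearS.2 ⟨hu, h1⟩) hn
      · exact h1)
  have e : ∑ u ∈ nearS U, ∑ v ∈ (nearS U).erase u, CZ.PS (TT u v) = 0 := by
    apply sum_eq_zero
    intro u _
    apply sum_eq_zero
    intro v _
    rfl
  rw [e] at h
  linarith

end Pool.Agent.Lib.MP_f1379f_gt.FV
end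

section
/-!
# MP_f1379f_gt, full Q1: the frozen statement from the 57 pins alone
-/
set_option autoImplicit false

namespace Pool.Agent.Lib.MP_f1379f_gt.FV

theorem hCK : SpecCK := fun U hU hW => near_k U hU hW

theorem hCX2 : SpecCX2 := fun U hU hW => near_x2 U hU hW

/-- **The frozen statement** from STAB1. -/
theorem frozen_of_pins (hPN : SpecPN57) : Frozen := frozen_of_blocks hPN hCK hCX2 specCMB

end Pool.Agent.Lib.MP_f1379f_gt.FV
end

section
/-!
# MP_f1379f_gt, full Q1, block STAB1, part 2: the sum of the radial defects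
-/
set_option autoImplicit false

namespace Pool.Agent.Lib.MP_f1379f_gt.FV

open Finset MeasureTheory

theorem specXR : SpecXR := by
  intro U hU hW
  have h1 := near_x2 U hU hW
  have h2 := PV.vol_bal_bounds.1
  have h3 : ∑ u ∈ nearS U, xr u = 2 / 5 * ∑ u ∈ nearS U, (1 - rr u) := by
    rw [mul_sum]
    exact sum_congr rfl fun u hu => RBDM.xr_eq (RBDM.near_pos hu)
  rw [h3]
  norm_num at h1 h2 ⊢
  linarith

end Pool.Agent.Lib.MP_f1379f_gt.FV
end

section
/-!
# MP_f1379f_gt, full Q1: the complete proof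

All blocks of SpecS2 and SpecS3 are discharged: the 57 pins, and the frozen statement.
-/
set_option autoImplicit false

namespace Pool.Agent.Lib.MP_f1379f_gt.FV

namespace PNSM

theorem hLLB : SpecLLB := specLLB specKER7 specRBD specPRJ specGEO

theorem hSLC : SpecSLC := specSLC hLLB (specCNT specRBD) specSEL specCJ specXR specRBD

/-- **The 57 pins.** -/
theorem hPINS : SpecPINS :=
  specPINS specRBD specPRJ specGEO hLLB hSLC (specANT0 specKER7) specDEG specCCT
    (specCCS specRBD specGEO hLLB) (specERL AllO.hUEF specKER7 specLPT) (specRAD specRBD)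

end PNSM

/-- **Every Voronoi cell of a packing of unit balls in dimension 8 has volume at least 16.** -/
theorem frozen : Frozen := frozen_of_pins PNSM.hPINS

end Pool.Agent.Lib.MP_f1379f_gt.FV
end

section
/-!
# MP_f1379f_gt, equality case: assembly

A cell of volume at most 16 has 240 contacts, hence it is a copy of the E8 cell.
-/
set_option autoImplicit false

namespace Pool.Agent.Lib.MP_f1379f_gt.FV

open MeasureTheory Finset

theorem hSTAB : SpecSTAB := stab_of PNSM.hPINS hCK hCX2 specCMB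

namespace EQAM

theorem w2_lt' {U : Finset E} (hU : Adm U) (hP : (volume (bal ∩ poly U)).toReal < 16) :
    W2F U < 16 :=
  lt_of_le_of_lt (AllA.hI0 U hU) hP

/-- The input of L1. -/
theorem l1_input' (hS4F : SpecS4F) {U : Finset E} {u : E → E} (hU : Adm U)
    (hlab : ∀ e ∈ UE, u e ∈ U) (hinj : Set.InjOn u (UE : Set E))
    (hrr : ∀ e ∈ UE, 4 / 5 < rr (u e)) (hC : CTF U u)
    (hP : (volume (bal ∩ poly U)).toReal < 16) :
    gx u ≤ 24 / 1000 ∧
    17 / 1000 * ∑ e ∈ UE, ∑ f ∈ UE.erase e, base (TT (u e) (u f)) * (1 / 2 - TT (u e) (u f)) ≤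
      72655 / 10 ^ 7 + 31 / 10 ^ 8 * (108 * gL u + 4032 * gx u) := by
  have hs := QV.s4_lower
  have hTh : 15.9916 < Th0 := PW.That_ge
  have h4F := hS4F U u hU hlab hinj
  have hWo : Wo u = gL u := rfl
  have hXr : Xr u = gx u := rfl
  rw [hWo, hXr] at h4F
  have hW2 : (volume bal).toReal - ∑ v ∈ U, v1 v
        + (1 / 2) * ∑ v ∈ U, ∑ w ∈ U.erase v, max 0 (v2 v w - 9 * s3) = W2 U := rfl
  rw [hW2] at h4F
  have h1rr : ∀ e ∈ UE, 1 - rr (u e) = 5 * gr u e := by
    intro e he
    rw [rr_of_pos (lt_trans (by norm_num) (hrr e he))]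
    unfold gr
    ring
  have hcx : Th0 + 7 / 100 * (5 * gx u) ≤ W2 U := by
    have h1 := hC.cx
    rw [Finset.sum_congr rfl h1rr, ← Finset.mul_sum] at h1
    exact h1
  have hcp := hC.cp
  constructor
  · have h1 := w2_lt' hU hP
    have h2 : W2 U < 16 := h1
    linarith
  · norm_num at h4F hs ⊢
    linarith

open ISOM in
/-- The end game in arbitrary position, equality version. -/
theorem end_gameE (U : Finset E) (u : E → E) (hU : Adm U)
    (hlab : ∀ e ∈ UE, u e ∈ U) (hinj : Set.InjOn u (UE : Set E))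
    (hrr : ∀ e ∈ UE, 4 / 5 < rr (u e))
    (hoth : ∀ v ∈ U, (∀ e ∈ UE, v ≠ u e) → rr v ≤ 7 / 20) (hC : CTF U u)
    (E1 : ℝ) (A0 : E ≃ₗᵢ[ℝ] E) (hA0 : ∑ e ∈ UE, ‖A0 (u e) - e‖ ^ 2 ≤ E1)
    (hL1 : ∀ A : E ≃ₗᵢ[ℝ] E, CFG (fun e => A (u e)) → gS (fun e => A (u e)) ≤ E1 →
      gS (fun e => A (u e)) ≤ 9 / 100)
    (h16 : volume (poly U ∩ Metric.ball (0 : E) 2) ≤ 16) :
    gx u = 0 := by
  classical
  obtain ⟨A, hA, hg⟩ := procrustes u
  have hU' := adm_image A hU
  set u' : E → E := fun e => A (u e) with hu'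
  have hcfg : CFG u' := by
    refine ⟨fun e he => ?_, fun e he f hf hne => ?_, hg⟩
    · exact hU'.le_one _ (Finset.mem_image_of_mem A (hlab e he))
    · refine hU'.sep _ (Finset.mem_image_of_mem A (hlab e he)) _
        (Finset.mem_image_of_mem A (hlab f hf)) fun h => hne (hinj he hf (A.injective h))
  have hS : gS u' ≤ 9 / 100 := hL1 A hcfg ((hA A0).trans hA0)
  have hext : EXT (U.image A) (U.image A \ UE.image u') u' := by
    refine ⟨fun e he => Finset.mem_image_of_mem A (hlab e he), ?_, hU'.le_one, ?_, ?_⟩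
    · intro v hv
      by_cases h : v ∈ UE.image u'
      · right
        obtain ⟨e, he, h2⟩ := Finset.mem_image.1 h
        exact ⟨e, he, h2.symm⟩
      · left
        exact Finset.mem_sdiff.2 ⟨hv, h⟩
    · intro v hv
      obtain ⟨hv1, hv2⟩ := Finset.mem_sdiff.1 hv
      obtain ⟨w, hw, rfl⟩ := Finset.mem_image.1 hv1
      have h1 : rr w ≤ 7 / 20 := by
        refine hoth w hw fun e he h => hv2 ?_
        rw [h]
        exact Finset.mem_image_of_mem u' he
      rw [A.norm_map]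
      have h2 := le_trans (le_max_right _ _) h1
      linarith
    · intro v hv e he
      obtain ⟨hv1, hv2⟩ := Finset.mem_sdiff.1 hv
      have hmem : u' e ∈ U.image A := Finset.mem_image_of_mem A (hlab e he)
      have hne : v ≠ u' e := by
        intro h
        exact hv2 (h ▸ Finset.mem_image_of_mem u' he)
      have h1 := hU'.sep v hv1 _ hmem hne
      have h2 := hU'.le_one v hv1
      have h3 := hU'.le_one _ hmem
      have h4 : ‖v‖ ^ 2 ≤ 1 := by nlinarith [norm_nonneg v]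
      have h5 : ‖u' e‖ ^ 2 ≤ 1 := by nlinarith [norm_nonneg (u' e)]
      nlinarith [mul_nonneg (sub_nonneg.2 h4) (sub_nonneg.2 h5)]
  have h1 := specFINE AllO.hUEF AllO.hTLC AllA.hE8V AllG.hGBA AllG.hHXC AllG.hHEX AllG.hSTG2
    AllG.hNSM AllG.hNSM2 AllG.hCEX AllG.hXOU AllS.hS4F AllA.hI0
    (U.image A) (U.image A \ UE.image u') u' hU' hext hcfg
    (fun e he f hf h => hinj he hf (A.injective h))
    (fun e he => by
      show 4 / 5 < rr (A (u e))
      rw [rr_map]
      exact hrr e he) (ctf_image A hC) hS (by rw [vol_image]; exact h16)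
  have h2 : gx u' = gx u := by
    unfold gx gr
    simp only [hu', A.norm_map]
  rw [← h2]
  exact h1

/-- A configuration whose cell has volume at most 16 contains 240 unit vectors. -/
theorem labels {U : Finset E} (hU : Adm U)
    (h16 : volume (poly U ∩ Metric.ball (0 : E) 2) ≤ 16) :
    ∃ u : E → E, (∀ e ∈ UE, u e ∈ U ∧ ‖u e‖ = 1) ∧ Set.InjOn u (UE : Set E) := by
  classical
  have hP := bal_lt hU h16
  have hW := w2_lt' hU hP
  obtain ⟨u, A0, hlab, hinj, hA0⟩ := hSTAB U hU hW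
  obtain ⟨hC, hoth⟩ := ASBM.ctf_of hU hW hCX hCP AllO.hUEF.c240 hlab hinj
  have hlabU : ∀ e ∈ UE, u e ∈ U := fun e he => (mem_nearS.1 (hlab e he)).1
  have hrr : ∀ e ∈ UE, 4 / 5 < rr (u e) := fun e he => (mem_nearS.1 (hlab e he)).2
  have hx : gx u = 0 := by
    refine end_gameE U u hU hlabU hinj hrr hoth hC (1 / 4) A0 hA0 ?_ h16
    intro A hcfg hgS
    have hvol : volume (poly (U.image A) ∩ Metric.ball (0 : E) 2) ≤ 16 := by
      rw [ISOM.vol_image]
      exact h16
    obtain ⟨hx, hs⟩ := l1_input' AllS.hS4F (ISOM.adm_image A hU) (u := fun e => A (u e))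
      (fun e he => Finset.mem_image_of_mem A (hlabU e he))
      (fun e he f hf h => hinj he hf (A.injective h))
      (fun e he => by
        show 4 / 5 < rr (A (u e))
        rw [ISOM.rr_map]
        exact hrr e he) (ISOM.ctf_image A hC) (bal_lt (ISOM.adm_image A hU) hvol)
    exact specL1 _ hcfg hgS hx hs
  have hle : ∀ e ∈ UE, ‖u e‖ ≤ 1 := fun e he => hU.le_one _ (hlabU e he)
  have hnn : ∀ e ∈ UE, 0 ≤ gr u e := fun e he => by
    unfold gr
    have := pow_le_one₀ (n := 2) (norm_nonneg _) (hle e he)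
    linarith
  have h0 := (Finset.sum_eq_zero_iff_of_nonneg hnn).1 hx
  refine ⟨u, fun e he => ⟨hlabU e he, ?_⟩, hinj⟩
  have h1 := h0 e he
  unfold gr at h1
  have h2 : ‖u e‖ ^ 2 = 1 := by linarith
  have h3 : (‖u e‖ - 1) * (‖u e‖ + 1) = 0 := by ring_nf; linarith
  rcases mul_eq_zero.1 h3 with h | h
  · linarith
  · linarith [norm_nonneg (u e)]

/-- A centre whose cell has volume at most 16 touches 240 others. -/
theorem contacts (X : Set E) (hX : EV.Packing X) (x : E) (hx : x ∈ X)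
    (hv : volume (EV.cell X x) ≤ 16) (ε : ℝ) (hε : 0 < ε) :
    240 ≤ {x' : E | x' ∈ X ∧ x' ≠ x ∧ dist x' x ≤ 2 + ε}.encard := by
  classical
  obtain ⟨U, hU, hvol, hmem⟩ := red_ex X hX x hx
  have h16 : volume (poly U ∩ Metric.ball (0 : E) 2) ≤ 16 := hvol.trans hv
  obtain ⟨u, hu, hinj⟩ := labels hU h16
  have hinv : ∀ e ∈ UE, REDM.inv (u e) = (2 : ℝ) • u e := fun e he => by
    rw [REDM.inv, (hu e he).2]
    norm_num
  have hnorm : ∀ e ∈ UE, ‖(2 : ℝ) • u e‖ = 2 := fun e he => by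
    rw [norm_smul, (hu e he).2]
    norm_num
  set f : E → E := fun e => x + (2 : ℝ) • u e with hf
  have hfi : Set.InjOn f (UE : Set E) := by
    intro a ha b hb hab
    have h1 : (2 : ℝ) • u a = (2 : ℝ) • u b := add_left_cancel hab
    have h2 : u a = u b := smul_right_injective E (two_ne_zero (α := ℝ)) h1
    exact hinj ha hb h2
  have hcard : (UE.image f).card = 240 := by
    rw [Finset.card_image_of_injOn hfi, AllO.hUEF.c240]
  have hsub : ((UE.image f : Finset E) : Set E) ⊆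
      {x' : E | x' ∈ X ∧ x' ≠ x ∧ dist x' x ≤ 2 + ε} := by
    intro y hy
    obtain ⟨e, he, rfl⟩ := Finset.mem_image.1 (Finset.mem_coe.1 hy)
    have h1 := hmem (u e) (hu e he).1
    rw [hinv e he] at h1
    have h2 : dist (x + (2 : ℝ) • u e) x = 2 := by
      rw [dist_eq_norm, add_sub_cancel_left, hnorm e he]
    refine ⟨h1, ?_, ?_⟩
    · intro h
      have h3 : dist (x + (2 : ℝ) • u e) x = 0 := by
        rw [show x + (2 : ℝ) • u e = x from h, dist_self]
      rw [h2] at h3
      norm_num at h3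
    · show dist (x + (2 : ℝ) • u e) x ≤ 2 + ε
      rw [h2]
      linarith
  have h3 := Set.encard_le_encard hsub
  rw [Set.encard_coe_eq_coe_finsetCard, hcard] at h3
  exact h3

end EQAM

/-- **The inequality.** -/
theorem cell_ge (X : Set E) (hX : EV.Packing X) (x : E) (hx : x ∈ X) :
    16 ≤ volume (EV.cell X x) := frozen X hX x hx

/-- **The equality case.** -/
theorem cell_eq (X : Set E) (hX : EV.Packing X) (x : E) (hx : x ∈ X)
    (hv : volume (EV.cell X x) ≤ 16) :
    ∃ A : E ≃ₗᵢ[ℝ] E, ∀ r ∈ EV.shell, x + A r ∈ X := by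
  obtain ⟨ε, c, hε, hc, h⟩ := EV.All.hFIN.main
  obtain ⟨A, hA⟩ := h X hX x hx (EQAM.contacts X hX x hx hv ε hε)
  refine ⟨A, fun r hr => ?_⟩
  obtain ⟨y, hy, hyv⟩ := hA r hr
  have h2 : 16 + c * dist y (x + A r) ≤ 16 := by
    have h3 : (16 : ENNReal) = ENNReal.ofReal 16 := by norm_num
    have h4 := hyv.trans hv
    rw [h3] at h4
    exact (ENNReal.ofReal_le_ofReal_iff (by norm_num)).1 h4
  have h4 : dist y (x + A r) = 0 := by
    have := dist_nonneg (x := y) (y := x + A r)
    nlinarith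
  rw [← dist_eq_zero.1 h4]
  exact hy

end Pool.Agent.Lib.MP_f1379f_gt.FV
end
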